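import Mathlib

/-!
# Real embeddings of `K = L(u)`: counting
-/

set_option autoImplicit false

namespace H89ED

open Polynomial NumberField

theorem CardK_root (d : ℕ) (P : ℝ[X]) (hP : P.Monic) (hd : P.natDegree = d)
    (r : Fin d → ℝ) (hinj : Function.Injective r) (hr : ∀ i, P.eval (r i) = 0)
    (x : ℝ) (hx : P.eval x = 0) : ∃ i, r i = x := by
  classical
  by_contra hcon
  push Not at hcon
  obtain ⟨S, hS⟩ : ∃ S : Finset ℝ, S = insert x (Finset.univ.image r) := ⟨_, rfl⟩
  have hcard : S.card = d + 1 := by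
    rw [hS, Finset.card_insert_of_notMem, Finset.card_image_of_injective _ hinj,
      Finset.card_univ, Fintype.card_fin]
    intro h
    obtain ⟨i, -, hi⟩ := Finset.mem_image.1 h
    exact hcon i hi
  have hsub : S.val ⊆ P.roots := by
    intro y hy
    have hy' : y ∈ S := hy
    rw [mem_roots hP.ne_zero, IsRoot.def]
    rw [hS, Finset.mem_insert] at hy'
    rcases hy' with h | h
    · rw [h]; exact hx
    · obtain ⟨i, -, hi⟩ := Finset.mem_image.1 h
      rw [← hi]; exact hr i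
  have := card_le_degree_of_subset_roots hsub
  rw [hcard, hd] at this
  omega

section
variable (L K : Type) [Field L] [NumberField L] [IsTotallyReal L] [Field K] [NumberField K]
  [Algebra L K] (pb : PowerBasis L K) (G : (𝓞 L)[X]) (hmon : G.Monic) (d : ℕ)
  (hd : G.natDegree = d) (hG : minpoly L pb.gen = G.map (algebraMap (𝓞 L) L))
  (r : (L →+* ℝ) → Fin d → ℝ) (hr : ∀ σ, StrictMono (r σ))
  (hroot : ∀ (σ : L →+* ℝ) (i : Fin d), (G.map (σ.comp (algebraMap (𝓞 L) L))).eval (r σ i) = 0)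

include hmon hd hG hr hroot in
theorem card_emb (σ : L →+* ℝ) (c : ℝ) :
    Nat.card {ρ : K →+* ℝ // ρ.comp (algebraMap L K) = σ ∧ ρ pb.gen + c < 0}
      = Nat.card {i : Fin d // r σ i + c < 0} := by
  let _ : Algebra L ℝ := σ.toAlgebra
  have halg : algebraMap L ℝ = σ := rfl
  have hev : ∀ x : ℝ, aeval x (minpoly L pb.gen)
      = (G.map (σ.comp (algebraMap (𝓞 L) L))).eval x := by
    intro x
    rw [hG, aeval_def, eval₂_eq_eval_map, Polynomial.map_map, halg]
  have hmonP : (G.map (σ.comp (algebraMap (𝓞 L) L))).Monic := hmon.map _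
  have hdP : (G.map (σ.comp (algebraMap (𝓞 L) L))).natDegree = d := by
    rw [hmon.natDegree_map]; exact hd
  have hlift : ∀ i : Fin d, aeval (r σ i) (minpoly L pb.gen) = 0 := by
    intro i; rw [hev]; exact hroot σ i
  have hgen : ∀ i : Fin d, (pb.lift (r σ i) (hlift i)) pb.gen = r σ i := by
    intro i; exact pb.lift_gen _ _
  symm
  refine Nat.card_eq_of_bijective
    (fun i : {i : Fin d // r σ i + c < 0} =>
      (⟨(pb.lift (r σ i.1) (hlift i.1) : K →ₐ[L] ℝ).toRingHom, ?_, ?_⟩ :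
        {ρ : K →+* ℝ // ρ.comp (algebraMap L K) = σ ∧ ρ pb.gen + c < 0})) ⟨?_, ?_⟩
  · exact (pb.lift (r σ i.1) (hlift i.1)).comp_algebraMap
  · have h := i.2
    rw [← hgen i.1] at h
    exact h
  · intro i j hij
    apply Subtype.ext
    apply (hr σ).injective
    have h1 := congrArg (fun z : {ρ : K →+* ℝ // ρ.comp (algebraMap L K) = σ ∧ ρ pb.gen + c < 0} =>
      z.1 pb.gen) hij
    have h2 : (pb.lift (r σ i.1) (hlift i.1)) pb.gen = (pb.lift (r σ j.1) (hlift j.1)) pb.gen := h1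
    rw [hgen, hgen] at h2
    exact h2
  · rintro ⟨ρ, hρ, hlt⟩
    obtain ⟨ρ', hρ'⟩ : ∃ ρ' : K →ₐ[L] ℝ, ∀ x, ρ' x = ρ x :=
      ⟨{ ρ with commutes' := fun x => RingHom.congr_fun hρ x }, fun _ => rfl⟩
    have hz : (G.map (σ.comp (algebraMap (𝓞 L) L))).eval (ρ pb.gen) = 0 := by
      rw [← hev, ← hρ', aeval_algHom_apply, minpoly.aeval, map_zero]
    obtain ⟨i, hi⟩ := CardK_root d _ hmonP hdP (r σ) (hr σ).injective (hroot σ) _ hz
    have hi' : r σ i + c < 0 := by rw [hi]; exact hlt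
    refine ⟨⟨i, hi'⟩, ?_⟩
    apply Subtype.ext
    have e : pb.lift (r σ i) (hlift i) = ρ' := by
      apply pb.algHom_ext
      rw [hgen, hi, hρ']
    apply RingHom.ext
    intro x
    have h3 : (pb.lift (r σ i) (hlift i)) x = ρ x := by rw [e, hρ']
    exact h3

end

end H89ED
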