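import Mathlib

/-!
# The polynomials `X (X + q) H - 1`
-/

set_option autoImplicit false

namespace H89ED

open Polynomial

/-- the polynomial `X (X + q) H - 1` -/
noncomputable def GG {R : Type*} [CommRing R] (q : R) (H : R[X]) : R[X] :=
  X * (X + C q) * H - 1

/-- the product of the `X + (A + 2 i + 2)`, `i < n` -/
noncomputable def RR (n A : ℕ) : ℤ[X] := ∏ i ∈ Finset.range n, (X + C ((A + 2 * i + 2 : ℕ) : ℤ))

/-- the polynomial `H₀ + N δ R` -/
noncomputable def HH {R : Type*} [CommRing R] (H0 : ℤ[X]) (n A N : ℕ) (δ : R) : R[X] :=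
  H0.map (Int.castRingHom R) + C ((N : R) * δ) * (RR n A).map (Int.castRingHom R)

section
variable {R S : Type*} [CommRing R] [CommRing S]

theorem GG_map (f : R →+* S) (q : R) (H : R[X]) : (GG q H).map f = GG (f q) (H.map f) := by
  simp [GG]

theorem HH_map (f : R →+* S) (H0 : ℤ[X]) (n A N : ℕ) (δ : R) :
    (HH H0 n A N δ).map f = HH H0 n A N (f δ) := by
  rw [HH, HH, Polynomial.map_add, Polynomial.map_mul, map_C, Polynomial.map_map,
    Polynomial.map_map, map_mul, map_natCast]
  have e : f.comp (Int.castRingHom R) = Int.castRingHom S := RingHom.ext_int _ _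
  rw [e]

theorem GG_eval (q x : R) (H : R[X]) : (GG q H).eval x = x * (x + q) * H.eval x - 1 := by
  simp [GG]

theorem RR_monic (n A : ℕ) : (RR n A).Monic :=
  monic_prod_of_monic _ _ fun _ _ => monic_X_add_C _

theorem RR_natDegree (n A : ℕ) : (RR n A).natDegree = n := by
  rw [RR, natDegree_prod_of_monic _ _ fun _ _ => monic_X_add_C _,
    Finset.sum_congr rfl fun _ _ => natDegree_X_add_C _]
  simp

theorem HH_monic [Nontrivial R] (H0 : ℤ[X]) (n A N : ℕ) (δ : R) (h1 : H0.Monic)
    (h2 : H0.natDegree = n + 1) : (HH H0 n A N δ).Monic ∧ (HH H0 n A N δ).natDegree = n + 1 := by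
  have h3 : (H0.map (Int.castRingHom R)).Monic := h1.map _
  have h4 : (H0.map (Int.castRingHom R)).natDegree = n + 1 := by rw [h1.natDegree_map, h2]
  have h5 : (C ((N : R) * δ) * (RR n A).map (Int.castRingHom R)).natDegree < n + 1 := by
    refine lt_of_le_of_lt natDegree_mul_le ?_
    rw [natDegree_C, (RR_monic n A).natDegree_map, RR_natDegree]
    omega
  have h6 : (C ((N : R) * δ) * (RR n A).map (Int.castRingHom R)).degree
      < (H0.map (Int.castRingHom R)).degree := by
    refine degree_lt_degree ?_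
    rwa [h4]
  rw [HH]
  refine ⟨h3.add_of_left h6, ?_⟩
  rw [natDegree_add_eq_left_of_natDegree_lt (by rwa [h4]), h4]

theorem GG_monic [Nontrivial R] (q : R) (H : R[X]) (n : ℕ) (h1 : H.Monic)
    (h2 : H.natDegree = n + 1) : (GG q H).Monic ∧ (GG q H).natDegree = n + 3 := by
  have h3 : (X * (X + C q) * H).Monic := (monic_X.mul (monic_X_add_C q)).mul h1
  have h4 : (X * (X + C q) * H).natDegree = n + 3 := by
    rw [(monic_X.mul (monic_X_add_C q)).natDegree_mul h1, monic_X.natDegree_mul (monic_X_add_C q),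
      natDegree_X, natDegree_X_add_C, h2]
    omega
  have h5 : (1 : R[X]).natDegree < (X * (X + C q) * H).natDegree := by
    rw [natDegree_one, h4]
    omega
  rw [GG]
  refine ⟨h3.sub_of_left (degree_lt_degree h5), ?_⟩
  rw [natDegree_sub_eq_left_of_natDegree_lt h5, h4]

end

end H89ED
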