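import Mathlib
import Pool.Agent.H89.ED.Defs

/-!
# No root modulo `l`
-/

set_option autoImplicit false

namespace H89ED

open Polynomial

/-- the values `b` to be avoided -/
theorem AtL_exists (l : ℕ) [Fact l.Prime] (n : ℕ) (q : ZMod l) :
    ∃ b : ZMod l, ∀ x : ZMod l, x * (x + q) * (x ^ n * (x + b)) ≠ 1 := by
  classical
  set S : Finset (ZMod l) :=
    (Finset.univ.erase (0 : ZMod l)).image fun x => (x ^ (n + 1) * (x + q))⁻¹ - x with hS
  have h1 : S.card < Fintype.card (ZMod l) := by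
    refine lt_of_le_of_lt Finset.card_image_le ?_
    rw [Finset.card_erase_of_mem (Finset.mem_univ _), Finset.card_univ]
    exact Nat.sub_lt Fintype.card_pos Nat.one_pos
  obtain ⟨b, hb⟩ : ∃ b : ZMod l, b ∉ S := by
    by_contra hcon
    push Not at hcon
    have h2 : S = Finset.univ := Finset.eq_univ_iff_forall.mpr hcon
    rw [h2, Finset.card_univ] at h1
    exact lt_irrefl _ h1
  refine ⟨b, fun x hx => hb ?_⟩
  have hx0 : x ≠ 0 := by
    rintro rfl
    simp at hx
  have hxq : x + q ≠ 0 := by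
    intro h
    rw [h] at hx
    simp at hx
  rw [hS, Finset.mem_image]
  refine ⟨x, Finset.mem_erase.mpr ⟨hx0, Finset.mem_univ _⟩, ?_⟩
  have h3 : x ^ (n + 1) * (x + q) * (x + b) = 1 := by
    rw [← hx]
    ring
  have h4 : (x ^ (n + 1) * (x + q))⁻¹ = x + b := inv_eq_of_mul_eq_one_right h3
  simp only [h4]
  ring

theorem atl (l : ℕ) [Fact l.Prime] (n : ℕ) (q : ZMod l) :
    ∃ H2 : ℤ[X], H2.Monic ∧ H2.natDegree = n + 1 ∧
      ∀ x : ZMod l, (GG q (H2.map (Int.castRingHom (ZMod l)))).eval x ≠ 0 := by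
  obtain ⟨b, hb⟩ := AtL_exists l n q
  obtain ⟨c, rfl⟩ := ZMod.intCast_surjective b
  refine ⟨X ^ n * (X + C c), (monic_X_pow n).mul (monic_X_add_C c), ?_, fun x h => hb x ?_⟩
  · rw [(monic_X_pow n).natDegree_mul (monic_X_add_C c), natDegree_X_pow, natDegree_X_add_C]
  · rw [GG_eval] at h
    have h2 := sub_eq_zero.mp h
    rw [← h2]
    simp

end H89ED
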