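import Mathlib

/-!
# A value which the Dickson polynomial does not take
-/

set_option autoImplicit false

namespace H89ED

open Polynomial

theorem Miss_neg {R : Type*} [CommRing R] (t : R) (n : ℕ) :
    (dickson 1 (1 : R) n).eval (-t) = (-1) ^ n * (dickson 1 (1 : R) n).eval t := by
  induction n using Nat.twoStepInduction with
  | zero =>
    rw [dickson_zero]
    simp
  | one =>
    rw [dickson_one]
    simp
  | more n ih1 ih2 =>
    rw [dickson_add_two, eval_sub, eval_sub, eval_mul, eval_mul, eval_mul, eval_mul, eval_X,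
      eval_X, eval_C, eval_C, ih1, ih2]
    ring

theorem Miss_two {R : Type*} [CommRing R] (n : ℕ) : (dickson 1 (1 : R) n).eval 2 = 2 := by
  induction n using Nat.twoStepInduction with
  | zero =>
    rw [dickson_zero]
    simp
    norm_num
  | one =>
    rw [dickson_one]
    simp
  | more n ih1 ih2 =>
    rw [dickson_add_two, eval_sub, eval_mul, eval_mul, eval_X, eval_C, ih1, ih2]
    ring

theorem missed (l : ℕ) [Fact l.Prime] (r : ℕ) (hr : Odd r) (w : ZMod l) (hw : w ≠ 2)
    (hD : (dickson 1 (1 : ZMod l) r).eval w = 2) :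
    ∃ y : ZMod l, y ≠ 2 ∧ y ≠ -2 ∧ (∀ t, (dickson 1 (1 : ZMod l) r).eval t ≠ y) ∧
      ∀ t, (dickson 1 (1 : ZMod l) r).eval t ≠ -y := by
  have h1 : ¬ Function.Injective fun t : ZMod l => (dickson 1 (1 : ZMod l) r).eval t := by
    intro h
    exact hw (h (hD.trans (Miss_two r).symm))
  have h2 : ¬ Function.Surjective fun t : ZMod l => (dickson 1 (1 : ZMod l) r).eval t := by
    rwa [← Finite.injective_iff_surjective]
  have h3 : ∃ y : ZMod l, ∀ t, (dickson 1 (1 : ZMod l) r).eval t ≠ y := by
    by_contra hcon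
    push Not at hcon
    exact h2 hcon
  obtain ⟨y, hy⟩ := h3
  have hneg : ∀ t : ZMod l, (dickson 1 (1 : ZMod l) r).eval (-t)
      = -(dickson 1 (1 : ZMod l) r).eval t := by
    intro t
    rw [Miss_neg, hr.neg_one_pow, neg_one_mul]
  refine ⟨y, ?_, ?_, hy, ?_⟩
  · intro h
    exact hy 2 ((Miss_two r).trans h.symm)
  · intro h
    apply hy (-2)
    rw [hneg, Miss_two, h]
  · intro t ht
    apply hy (-t)
    rw [hneg, ht, neg_neg]

end H89ED
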