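import Mathlib
import Pool.Agent.H76.EF.Schur

/-!
# Embeddings into `p`-adic fields
-/

set_option autoImplicit false

namespace H89ED

open Polynomial NumberField

theorem exists_emb_large (E : Type) [Field E] [NumberField E] (B : ℕ) :
    ∃ (p : ℕ) (_ : Fact p.Prime), B < p ∧ Nonempty (E →+* ℚ_[p]) := by
  obtain ⟨α, hα⟩ := Field.exists_primitive_element ℚ E
  have halg : IsAlgebraic ℤ α := by
    have h1 : IsAlgebraic ℚ α := Algebra.IsAlgebraic.isAlgebraic α
    exact (IsFractionRing.isAlgebraic_iff ℤ ℚ E).2 h1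
  obtain ⟨c, hc0, hcint⟩ := halg.exists_integral_multiple
  obtain ⟨g, hg⟩ : ∃ g : E, g = c • α := ⟨_, rfl⟩
  rw [← hg] at hcint
  have hgc : g = (c : E) * α := by rw [hg, zsmul_eq_mul]
  have hc0' : (c : E) ≠ 0 := by exact_mod_cast hc0
  have hgQ : IsIntegral ℚ g := hcint.tower_top
  have htop : IntermediateField.adjoin ℚ {g} = ⊤ := by
    rw [eq_top_iff, ← hα]
    rw [IntermediateField.adjoin_simple_le_iff]
    have h1 : g ∈ IntermediateField.adjoin ℚ {g} := IntermediateField.mem_adjoin_simple_self ℚ g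
    have h2 : α = ((c : ℚ)⁻¹) • g := by
      rw [hgc, Algebra.smul_def]
      have : algebraMap ℚ E ((c : ℚ)⁻¹) = (c : E)⁻¹ := by
        rw [map_inv₀, map_intCast]
      rw [this, ← mul_assoc, inv_mul_cancel₀ hc0', one_mul]
    rw [h2]
    exact IntermediateField.smul_mem _ h1
  have htop' : Algebra.adjoin ℚ {g} = ⊤ := by
    have h1 := IntermediateField.adjoin_simple_toSubalgebra_of_isAlgebraic hgQ.isAlgebraic
    rw [htop] at h1
    rw [← h1]
    rfl
  obtain ⟨pb, hpb⟩ : ∃ pb : PowerBasis ℚ E, pb.gen = g :=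
    ⟨PowerBasis.ofAdjoinEqTop hgQ htop', by simp⟩
  obtain ⟨f, hf⟩ : ∃ f : ℤ[X], f = minpoly ℤ g := ⟨_, rfl⟩
  have hfQ : minpoly ℚ pb.gen = f.map (Int.castRingHom ℚ) := by
    rw [hpb, hf]
    exact minpoly.isIntegrallyClosed_eq_field_fractions' ℚ hcint
  have hirr : Irreducible (f.map (Int.castRingHom ℚ)) := by
    rw [← hfQ, hpb]; exact minpoly.irreducible hgQ
  have hdeg : 0 < f.natDegree := by
    rw [hf]; exact minpoly.natDegree_pos hcint
  obtain ⟨D, hD⟩ := H76EF.large_simple f hirr.separable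
  obtain ⟨p, hp, hpB, m, hm⟩ := H76EF.schur f hdeg (max B D)
  have hpD : D < p := lt_of_le_of_lt (le_max_right B D) hpB
  have hFp : Fact p.Prime := ⟨hp⟩
  obtain ⟨z, hz, -⟩ := H76EN.padic_root p f m hm (hD p hpD m hm)
  obtain ⟨σ, -⟩ := H76EN.exists_padic_emb p E pb f hfQ z hz
  exact ⟨p, hFp, lt_of_le_of_lt (le_max_left B D) hpB, ⟨(σ : E →+* ℚ_[p])⟩⟩

theorem int_hom (p : ℕ) [Fact p.Prime] (E : Type) [Field E] [NumberField E] (τ : E →+* ℚ_[p]) :
    ∃ τ0 : 𝓞 E →+* ℤ_[p], ∀ b : 𝓞 E, ((τ0 b : ℤ_[p]) : ℚ_[p]) = τ (b : E) := by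
  have hint : ∀ b : 𝓞 E, ‖τ (b : E)‖ ≤ 1 := by
    intro b
    apply H76EN.norm_le_one_of_integral
    exact (b.isIntegral_coe).map (τ.toIntAlgHom)
  refine ⟨{ toFun := fun b => ⟨τ (b : E), hint b⟩
            map_one' := ?_
            map_mul' := ?_
            map_zero' := ?_
            map_add' := ?_ }, fun b => rfl⟩
  · apply Subtype.ext
    simp
  · intro x y
    apply Subtype.ext
    show τ ((x * y : 𝓞 E) : E) = τ (x : E) * τ (y : E)
    rw [← map_mul]
    rfl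
  · apply Subtype.ext
    simp
  · intro x y
    apply Subtype.ext
    show τ ((x + y : 𝓞 E) : E) = τ (x : E) + τ (y : E)
    rw [← map_add]
    rfl

end H89ED
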