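import Mathlib
import Pool.Agent.H89.ED.PadA

/-!
# Roots of polynomials in `ℤ_p`
-/

set_option autoImplicit false

namespace H89ED

open Polynomial NumberField

theorem exists_root_large (L : Type) [Field L] [NumberField L] (P : (𝓞 L)[X]) (hP : P.Monic)
    (hdeg : 0 < P.natDegree) (B : ℕ) :
    ∃ (p : ℕ) (_ : Fact p.Prime) (τ : L →+* ℚ_[p]) (τ0 : 𝓞 L →+* ℤ_[p]) (κ : ℤ_[p]), B < p ∧
      (∀ b : 𝓞 L, ((τ0 b : ℤ_[p]) : ℚ_[p]) = τ (b : L)) ∧ (P.map τ0).eval κ = 0 := by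
  have hdegF : (P.map (algebraMap (𝓞 L) (AlgebraicClosure L))).degree ≠ 0 := by
    rw [hP.degree_map, degree_eq_natDegree hP.ne_zero]
    exact_mod_cast hdeg.ne'
  obtain ⟨s, hs⟩ := IsAlgClosed.exists_root _ hdegF
  have hs' : eval₂ (algebraMap (𝓞 L) (AlgebraicClosure L)) s P = 0 := by
    rw [IsRoot.def, eval_map] at hs
    exact hs
  have hintO : IsIntegral (𝓞 L) s := ⟨P, hP, hs'⟩
  have hint : IsIntegral ℤ s := isIntegral_trans s hintO
  obtain ⟨E, hE⟩ : ∃ E : IntermediateField L (AlgebraicClosure L),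
      E = IntermediateField.adjoin L {s} := ⟨_, rfl⟩
  have hsE : s ∈ E := by rw [hE]; exact IntermediateField.mem_adjoin_simple_self L s
  have hfin : FiniteDimensional L E := by
    rw [hE]
    exact IntermediateField.adjoin.finiteDimensional hint.tower_top
  have hnf : NumberField E := NumberField.of_module_finite L E
  obtain ⟨p, hp, hpB, ⟨τE⟩⟩ := exists_emb_large E B
  obtain ⟨τE0, hτE⟩ := int_hom p E τE
  have hsint : IsIntegral ℤ (⟨s, hsE⟩ : E) := by
    have h1 : IsIntegral ℤ (E.val (⟨s, hsE⟩ : E)) := hint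
    have hinj : Function.Injective (E.val.restrictScalars ℤ) := Subtype.val_injective
    exact (isIntegral_algHom_iff (E.val.restrictScalars ℤ) hinj).1 h1
  obtain ⟨σ, hσ⟩ : ∃ σ : 𝓞 E, (σ : E) = ⟨s, hsE⟩ := ⟨⟨⟨s, hsE⟩, hsint⟩, rfl⟩
  have hσ0 : eval₂ (algebraMap (𝓞 L) (𝓞 E)) σ P = 0 := by
    apply RingOfIntegers.coe_injective
    show algebraMap (𝓞 E) E _ = algebraMap (𝓞 E) E 0
    rw [hom_eval₂, map_zero]
    apply (algebraMap E (AlgebraicClosure L)).injective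
    rw [hom_eval₂, map_zero]
    have e1 : algebraMap E (AlgebraicClosure L) (algebraMap (𝓞 E) E σ) = s := by
      have : algebraMap (𝓞 E) E σ = ⟨s, hsE⟩ := hσ
      rw [this]
      rfl
    have e2 : (algebraMap E (AlgebraicClosure L)).comp
        ((algebraMap (𝓞 E) E).comp (algebraMap (𝓞 L) (𝓞 E)))
        = algebraMap (𝓞 L) (AlgebraicClosure L) := by
      rw [← IsScalarTower.algebraMap_eq]
      ext x
      rfl
    rw [e1, e2]
    exact hs'
  refine ⟨p, hp, τE.comp (algebraMap L E), τE0.comp (algebraMap (𝓞 L) (𝓞 E)), τE0 σ, hpB, ?_, ?_⟩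
  · intro b
    rw [RingHom.comp_apply, RingHom.comp_apply, hτE]
    rfl
  · rw [eval_map, ← hom_eval₂, hσ0, map_zero]

theorem unit_large (L : Type) [Field L] [NumberField L] (a : 𝓞 L) (ha : a ≠ 0) :
    ∃ B : ℕ, ∀ p : ℕ, p.Prime → B < p → ∀ φ : 𝓞 L →+* ZMod p, φ a ≠ 0 := by
  refine ⟨(Algebra.norm ℤ a).natAbs, ?_⟩
  intro p hp hBp φ hφ
  have h0 : Algebra.norm ℤ a ≠ 0 := Algebra.norm_ne_zero_iff.2 ha
  have hmem : ((Algebra.norm ℤ a : ℤ) : 𝓞 L) ∈ Ideal.span {a} := by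
    have h1 := Ideal.absNorm_mem (Ideal.span {a})
    rw [Ideal.absNorm_span_singleton] at h1
    rcases Int.natAbs_eq (Algebra.norm ℤ a) with h | h
    · rw [h, Int.cast_natCast]
      exact h1
    · rw [h, Int.cast_neg, Int.cast_natCast]
      exact neg_mem h1
  obtain ⟨c, hc⟩ := Ideal.mem_span_singleton'.1 hmem
  have h2 := congrArg φ hc
  rw [map_mul, hφ, mul_zero, map_intCast] at h2
  have h3 : ((p : ℤ)) ∣ Algebra.norm ℤ a := (ZMod.intCast_zmod_eq_zero_iff_dvd _ _).1 h2.symm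
  have := Nat.le_of_dvd (Int.natAbs_pos.2 h0) (Int.natCast_dvd.1 h3)
  omega

end H89ED
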