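import Mathlib
import Pool.Agent.H89.ED.Defs

/-!
# A simple root modulo `l`
-/

set_option autoImplicit false

namespace H89ED

open Polynomial

theorem Simple_lift (l : ℕ) [Fact l.Prime] (n : ℕ) (H : (ZMod l)[X]) (h1 : H.Monic)
    (h2 : H.natDegree = n + 1) :
    ∃ H3 : ℤ[X], H3.map (Int.castRingHom (ZMod l)) = H ∧ H3.Monic ∧ H3.natDegree = n + 1 := by
  have h := lifts_and_natDegree_eq_and_monic (f := Int.castRingHom (ZMod l)) (p := H)
    ((mem_lifts _).2 (map_surjective _ ZMod.intCast_surjective H)) h1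
  obtain ⟨q, a, b, c⟩ := h
  exact ⟨q, a, c, b.trans h2⟩

theorem Simple_deriv {F : Type*} [Field F] (q c : F) (H : F[X]) :
    (derivative (GG q H)).eval c =
      (2 * c + q) * H.eval c + c * (c + q) * (derivative H).eval c := by
  simp only [GG, derivative_sub, derivative_mul, derivative_X, derivative_add, derivative_C,
    derivative_one, eval_sub, eval_add, eval_mul, eval_X, eval_C, eval_one, eval_zero]
  ring

/-- the case of degree at least `2` -/
theorem Simple_big {F : Type*} [Field F] (n : ℕ) (q c : F) (hc : c ≠ 0) (hcq : c + q ≠ 0) :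
    ∃ H : F[X], H.Monic ∧ H.natDegree = n + 2 ∧ (GG q H).eval c = 0 ∧
      (derivative (GG q H)).eval c ≠ 0 := by
  have key : ∀ a b : F, (X ^ (n + 2) + (C a * X + C b) : F[X]).Monic ∧
      (X ^ (n + 2) + (C a * X + C b) : F[X]).natDegree = n + 2 := by
    intro a b
    have h : (C a * X + C b : F[X]).degree < ((n + 2 : ℕ) : WithBot ℕ) := by
      refine lt_of_le_of_lt degree_linear_le ?_
      exact_mod_cast (by omega : 1 < n + 2)
    refine ⟨monic_X_pow_add h, ?_⟩
    refine natDegree_eq_of_degree_eq_some ?_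
    rw [degree_add_eq_left_of_degree_lt (by rwa [degree_X_pow]), degree_X_pow]
  have hcc : c * (c + q) ≠ 0 := mul_ne_zero hc hcq
  have root : ∀ a : F, (GG q (X ^ (n + 2) + (C a * X
      + C ((c * (c + q))⁻¹ - c ^ (n + 2) - a * c)) : F[X])).eval c = 0 := by
    intro a
    rw [GG_eval]
    simp only [eval_add, eval_pow, eval_X, eval_mul, eval_C]
    have e : c ^ (n + 2) + (a * c + ((c * (c + q))⁻¹ - c ^ (n + 2) - a * c)) = (c * (c + q))⁻¹ := by
      ring
    rw [e, mul_inv_cancel₀ hcc, sub_self]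
  have der : ∀ a : F, (derivative (GG q (X ^ (n + 2) + (C a * X
      + C ((c * (c + q))⁻¹ - c ^ (n + 2) - a * c)) : F[X]))).eval c
      = (2 * c + q) * (c * (c + q))⁻¹ + c * (c + q) * (((n + 2 : ℕ) : F) * c ^ (n + 1) + a) := by
    intro a
    rw [Simple_deriv]
    simp only [eval_add, eval_pow, eval_X, eval_mul, eval_C, derivative_add, derivative_X_pow,
      derivative_mul, derivative_C, derivative_X, eval_zero, eval_one]
    have e : c ^ (n + 2) + (a * c + ((c * (c + q))⁻¹ - c ^ (n + 2) - a * c)) = (c * (c + q))⁻¹ := by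
      ring
    rw [e]
    have e2 : n + 2 - 1 = n + 1 := by omega
    rw [e2]
    ring
  by_cases h0 : (derivative (GG q (X ^ (n + 2) + (C 0 * X
      + C ((c * (c + q))⁻¹ - c ^ (n + 2) - 0 * c)) : F[X]))).eval c = 0
  · refine ⟨_, (key 1 _).1, (key 1 _).2, root 1, ?_⟩
    intro h1
    rw [der] at h0 h1
    apply hcc
    linear_combination h1 - h0
  · exact ⟨_, (key 0 _).1, (key 0 _).2, root 0, h0⟩

/-- the case of degree `1`: one value of `c` -/
theorem Simple_one {F : Type*} [Field F] (q c : F) (hc : c ≠ 0) (hcq : c + q ≠ 0)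
    (h : (c * (c + q)) ^ 2 + (2 * c + q) ≠ 0) :
    ∃ H : F[X], H.Monic ∧ H.natDegree = 1 ∧ (GG q H).eval c = 0 ∧
      (derivative (GG q H)).eval c ≠ 0 := by
  have hcc : c * (c + q) ≠ 0 := mul_ne_zero hc hcq
  refine ⟨X + C ((c * (c + q))⁻¹ - c), monic_X_add_C _, natDegree_X_add_C _, ?_, ?_⟩
  · rw [GG_eval]
    simp only [eval_add, eval_X, eval_C]
    rw [add_sub_cancel, mul_inv_cancel₀ hcc, sub_self]
  · rw [Simple_deriv]
    simp only [eval_add, eval_X, eval_C, derivative_add, derivative_X, derivative_C, eval_one,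
      add_zero, mul_one]
    rw [add_sub_cancel]
    intro h2
    apply h
    have h3 : (c * (c + q)) * ((2 * c + q) * (c * (c + q))⁻¹ + c * (c + q)) = 0 := by
      rw [h2, mul_zero]
    have h4 : (c * (c + q)) * ((2 * c + q) * (c * (c + q))⁻¹) = 2 * c + q := by
      field_simp
    rw [mul_add, h4] at h3
    linear_combination h3

/-- the algebra of the case of degree `1` -/
theorem Simple_alg {F : Type*} [Field F] (q a : F) (hq : q ≠ 0) (hq1 : q ^ 3 + 1 ≠ 0)
    (hq2 : 4 * q ^ 3 - 3 ≠ 0) (ha : a ≠ 0) (haq : a - q ≠ 0)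
    (h1 : (a - q) ^ 2 * a ^ 2 + (2 * a - q) = 0)
    (h2 : q ^ 5 * (a - q) ^ 2 = (a - 2 * q) * a ^ 3) : False := by
  have h3 : (a - q) * ((a + q) * (a ^ 4 - 2 * a ^ 3 * q + a ^ 2 * q ^ 2 - 2 * a * q ^ 3 + q ^ 4))
      = 0 := by
    linear_combination (-a ^ 2) * h2 + q ^ 5 * h1
  rcases mul_eq_zero.1 h3 with h | h
  · exact haq h
  · rcases mul_eq_zero.1 h with h | h
    · have e : a = - q := by linear_combination h
      rw [e] at h1
      have h5 : q * (4 * q ^ 3 - 3) = 0 := by linear_combination h1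
      rcases mul_eq_zero.1 h5 with h6 | h6
      · exact hq h6
      · exact hq2 h6
    · have h5 : (2 * a - q) * (q ^ 3 + 1) = 0 := by linear_combination h1 - h
      rcases mul_eq_zero.1 h5 with h6 | h6
      · rw [h6, add_zero] at h1
        have h7 : a - q ≠ 0 := haq
        exact (mul_ne_zero (pow_ne_zero 2 h7) (pow_ne_zero 2 ha)) h1
      · exact hq1 h6

theorem simple_root (l : ℕ) [Fact l.Prime] (hl : l ≠ 2) (n : ℕ) (q y : ZMod l) (hq : q ≠ 0)
    (hq1 : q ^ 3 + 1 ≠ 0) (hq2 : 4 * q ^ 3 - 3 ≠ 0) (hy : y ≠ 2) (hy' : y ≠ -2) :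
    ∃ (H3 : ℤ[X]) (c e : ZMod l), H3.Monic ∧ H3.natDegree = n + 1 ∧ c ≠ 0 ∧ (e = 1 ∨ e = -1) ∧
      c * (e * y + 2) + 4 * q = 0 ∧
      (GG q (H3.map (Int.castRingHom (ZMod l)))).eval c = 0 ∧
      (derivative (GG q (H3.map (Int.castRingHom (ZMod l))))).eval c ≠ 0 := by
  have h2 : (2 : ZMod l) ≠ 0 := by
    intro h
    have h3 : ((2 : ℕ) : ZMod l) = 0 := by exact_mod_cast h
    rw [ZMod.natCast_eq_zero_iff] at h3
    exact hl ((Nat.prime_dvd_prime_iff_eq Fact.out Nat.prime_two).1 h3)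
  have h4 : (4 : ZMod l) ≠ 0 := by
    have e : (4 : ZMod l) = 2 * 2 := by norm_num
    rw [e]
    exact mul_ne_zero h2 h2
  have hp : y + 2 ≠ 0 := fun h => hy' (by linear_combination h)
  have hm : y - 2 ≠ 0 := fun h => hy (by linear_combination h)
  -- the two values of `c`
  set c1 : ZMod l := - 4 * q / (y + 2) with hc1
  set c2 : ZMod l := 4 * q / (y - 2) with hc2
  have e1 : c1 * (1 * y + 2) + 4 * q = 0 := by
    rw [hc1]
    field_simp
    ring
  have e2 : c2 * ((-1) * y + 2) + 4 * q = 0 := by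
    rw [hc2]
    field_simp
    ring
  have n1 : c1 ≠ 0 := by
    intro h
    rw [h, zero_mul, zero_add] at e1
    exact (mul_ne_zero h4 hq) e1
  have n2 : c2 ≠ 0 := by
    intro h
    rw [h, zero_mul, zero_add] at e2
    exact (mul_ne_zero h4 hq) e2
  have s1 : (c1 + q) * (y + 2) = q * (y - 2) := by linear_combination e1
  have s2 : (c2 + q) * (y - 2) = q * (y + 2) := by linear_combination - e2
  have m1 : c1 + q ≠ 0 := by
    intro h
    rw [h, zero_mul] at s1
    exact (mul_ne_zero hq hm) s1.symm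
  have m2 : c2 + q ≠ 0 := by
    intro h
    rw [h, zero_mul] at s2
    exact (mul_ne_zero hq hp) s2.symm
  have prod : (c1 + q) * (c2 + q) = q ^ 2 := by
    have h5 : ((c1 + q) * (c2 + q) - q ^ 2) * ((y + 2) * (y - 2)) = 0 := by
      linear_combination (c2 + q) * (y - 2) * s1 + q * (y - 2) * s2
    rcases mul_eq_zero.1 h5 with h | h
    · linear_combination h
    · exact absurd h (mul_ne_zero hp hm)
  have fin : ∀ (c e : ZMod l) (_ : c ≠ 0) (_ : e = 1 ∨ e = -1) (_ : c * (e * y + 2) + 4 * q = 0)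
      (_ : ∃ H : (ZMod l)[X], H.Monic ∧ H.natDegree = n + 1 ∧ (GG q H).eval c = 0 ∧
        (derivative (GG q H)).eval c ≠ 0),
      ∃ (H3 : ℤ[X]) (c e : ZMod l), H3.Monic ∧ H3.natDegree = n + 1 ∧ c ≠ 0 ∧ (e = 1 ∨ e = -1) ∧
      c * (e * y + 2) + 4 * q = 0 ∧
      (GG q (H3.map (Int.castRingHom (ZMod l)))).eval c = 0 ∧
      (derivative (GG q (H3.map (Int.castRingHom (ZMod l))))).eval c ≠ 0 := by
    rintro c e hc he hce ⟨H, a1, a2, a3, a4⟩
    obtain ⟨H3, b1, b2, b3⟩ := Simple_lift l n H a1 a2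
    refine ⟨H3, c, e, b2, b3, hc, he, hce, ?_, ?_⟩
    · rw [b1]; exact a3
    · rw [b1]; exact a4
  rcases Nat.eq_zero_or_pos n with hn | hn
  · subst hn
    by_cases k1 : (c1 * (c1 + q)) ^ 2 + (2 * c1 + q) = 0
    · by_cases k2 : (c2 * (c2 + q)) ^ 2 + (2 * c2 + q) = 0
      · exfalso
        refine Simple_alg q (c1 + q) hq hq1 hq2 m1 (by simpa using n1) ?_ ?_
        · linear_combination k1
        · have h6 : q * (q ^ 5 * ((c1 + q) - q) ^ 2 - ((c1 + q) - 2 * q) * (c1 + q) ^ 3) = 0 := by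
            linear_combination (c1 + q) ^ 4 * k2
              - (((c1 + q) * (c2 + q) + q ^ 2 - q * (c1 + q))
                  * (((c1 + q) * (c2 + q)) ^ 2 - q * (c1 + q) * ((c1 + q) * (c2 + q)) + q ^ 4
                    - q ^ 3 * (c1 + q)) + 2 * (c1 + q) ^ 3) * prod
          rcases mul_eq_zero.1 h6 with h | h
          · exact absurd h hq
          · linear_combination h
      · exact fin c2 (-1) n2 (Or.inr rfl) e2 (Simple_one q c2 n2 m2 k2)
    · exact fin c1 1 n1 (Or.inl rfl) e1 (Simple_one q c1 n1 m1 k1)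
  · obtain ⟨k, rfl⟩ : ∃ k, n = k + 1 := ⟨n - 1, by omega⟩
    exact fin c1 1 n1 (Or.inl rfl) e1 (Simple_big k q c1 n1 m1)

end H89ED
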