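import Mathlib
import Pool.Agent.H89.ED.AtL
import Pool.Agent.H89.ED.Simple
import Pool.Agent.H89.ED.Miss
import Pool.Agent.H89.ED.PadB

/-!
# The choice of the primes `l` and `l'`
-/

set_option autoImplicit false

namespace H89ED

open Polynomial NumberField

theorem choose_l (L : Type) [Field L] [NumberField L] (q : 𝓞 L) (n B : ℕ) :
    ∃ (l : ℕ) (_ : Fact l.Prime) (φ : 𝓞 L →+* ZMod l) (H2 : ℤ[X]), B < l ∧ H2.Monic ∧
      H2.natDegree = n + 1 ∧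
      ∀ H : (𝓞 L)[X], H.map φ = H2.map (Int.castRingHom (ZMod l)) →
        ∀ x : 𝓞 L, (GG q H).eval x ≠ 0 := by
  obtain ⟨l, hl, hB, ⟨τ⟩⟩ := exists_emb_large L B
  obtain ⟨τ0, -⟩ := int_hom l L τ
  obtain ⟨φ, hφ⟩ : ∃ φ : 𝓞 L →+* ZMod l, φ = (PadicInt.toZMod (p := l)).comp τ0 := ⟨_, rfl⟩
  obtain ⟨H2, h1, h2, h3⟩ := atl l n (φ q)
  refine ⟨l, hl, φ, H2, hB, h1, h2, ?_⟩
  intro H hH x hx
  apply h3 (φ x)
  rw [← hH, ← GG_map, eval_map_apply, hx, map_zero]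

/-- the prime for the irreducibility of the two-torsion -/
theorem choose_l' (L : Type) [Field L] [NumberField L] (q ω : 𝓞 L) (hq : q ≠ 0)
    (hω : ω ≠ 2) (hq1 : q ^ 3 + 1 ≠ 0) (hq2 : 4 * q ^ 3 - 3 ≠ 0) (r : ℕ) (hr : Odd r)
    (hD : (dickson 1 (1 : 𝓞 L) r).eval ω = 2) (n B : ℕ) :
    ∃ (l : ℕ) (_ : Fact l.Prime) (τ : L →+* ℚ_[l]) (τ0 : 𝓞 L →+* ℤ_[l]) (H3 : ℤ[X])
      (c y : ZMod l), B < l ∧ (∀ b : 𝓞 L, ((τ0 b : ℤ_[l]) : ℚ_[l]) = τ (b : L)) ∧ H3.Monic ∧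
      H3.natDegree = n + 1 ∧ (∀ t, (dickson 1 (1 : ZMod l) r).eval t ≠ y) ∧
      c * (y + 2) + 4 * PadicInt.toZMod (τ0 q) = 0 ∧
      ∀ H : (𝓞 L)[X], (H.map τ0).map (PadicInt.toZMod (p := l))
          = H3.map (Int.castRingHom (ZMod l)) →
        ∃ z : ℤ_[l], ((GG q H).map τ0).eval z = 0 ∧ PadicInt.toZMod z = c := by
  obtain ⟨B1, hB1⟩ := unit_large L q hq
  obtain ⟨B2, hB2⟩ := unit_large L (q ^ 3 + 1) hq1
  obtain ⟨B3, hB3⟩ := unit_large L (4 * q ^ 3 - 3) hq2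
  obtain ⟨B4, hB4⟩ := unit_large L (ω - 2) (sub_ne_zero.2 hω)
  obtain ⟨l, hl, hB, ⟨τ⟩⟩ := exists_emb_large L (max (max B 2) (max (max B1 B2) (max B3 B4)))
  have hlp : l.Prime := hl.out
  obtain ⟨τ0, hτ⟩ := int_hom l L τ
  obtain ⟨φ, hφ⟩ : ∃ φ : 𝓞 L →+* ZMod l, φ = (PadicInt.toZMod (p := l)).comp τ0 := ⟨_, rfl⟩
  have h1 : φ q ≠ 0 := hB1 l hlp (by omega) φ
  have h2 : φ q ^ 3 + 1 ≠ 0 := by
    have := hB2 l hlp (by omega) φ
    simpa using this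
  have h3 : 4 * φ q ^ 3 - 3 ≠ 0 := by
    have := hB3 l hlp (by omega) φ
    rwa [map_sub, map_mul, map_pow, map_ofNat, map_ofNat] at this
  have h4 : φ ω ≠ 2 := by
    have := hB4 l hlp (by omega) φ
    rw [map_sub, map_ofNat] at this
    exact sub_ne_zero.1 this
  have hD' : (dickson 1 (1 : ZMod l) r).eval (φ ω) = 2 := by
    have := congrArg φ hD
    rw [map_ofNat, ← eval_map_apply, map_dickson, map_one] at this
    exact this
  obtain ⟨y, hy1, hy2, hy3, hy4⟩ := missed l r hr (φ ω) h4 hD'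
  obtain ⟨H3, c, e, g1, g2, g3, g4, g5, g6, g7⟩ := simple_root l (by omega) n (φ q) y h1 h2 h3
    hy1 hy2
  refine ⟨l, hl, τ, τ0, H3, c, e * y, by omega, hτ, g1, g2, ?_, ?_, ?_⟩
  · rcases g4 with h | h
    · rw [h, one_mul]
      exact hy3
    · rw [h, neg_one_mul]
      exact hy4
  · rw [hφ] at g5
    exact g5
  · intro H hH
    obtain ⟨F, hF⟩ : ∃ F : ℤ_[l][X], F = (GG q H).map τ0 := ⟨_, rfl⟩
    have hFm : F.map (PadicInt.toZMod (p := l))
        = GG (φ q) (H3.map (Int.castRingHom (ZMod l))) := by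
      rw [hF, GG_map, GG_map, hH, hφ]
      rfl
    obtain ⟨c', hc'⟩ : ∃ c' : ℤ_[l], PadicInt.toZMod c' = c :=
      ZMod.ringHom_surjective (PadicInt.toZMod (p := l)) c
    have e1 : PadicInt.toZMod (F.eval c') = 0 := by
      rw [← eval_map_apply, hFm, hc', g6]
    have e2 : PadicInt.toZMod (F.derivative.eval c') ≠ 0 := by
      rw [← eval_map_apply, ← derivative_map, hFm, hc']
      exact g7
    have n1 : ‖aeval c' F‖ < 1 := by
      rw [coe_aeval_eq_eval]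
      rw [← RingHom.mem_ker, PadicInt.ker_toZMod] at e1
      exact PadicInt.mem_nonunits.1 e1
    have n2 : ‖aeval c' F.derivative‖ = 1 := by
      rw [coe_aeval_eq_eval]
      apply le_antisymm (PadicInt.norm_le_one _)
      by_contra hlt
      apply e2
      rw [← RingHom.mem_ker, PadicInt.ker_toZMod]
      exact PadicInt.mem_nonunits.2 (not_le.1 hlt)
    obtain ⟨z, hz, hz2, -, -⟩ := hensels_lemma (F := F) (a := c') (by rw [n2]; simpa using n1)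
    rw [coe_aeval_eq_eval] at hz
    refine ⟨z, by rw [← hF]; exact hz, ?_⟩
    rw [n2] at hz2
    have hm : z - c' ∈ RingHom.ker (PadicInt.toZMod (p := l)) := by
      rw [PadicInt.ker_toZMod]
      exact PadicInt.mem_nonunits.2 hz2
    rw [RingHom.mem_ker, map_sub, sub_eq_zero] at hm
    rw [hm, hc']

end H89ED
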