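import Mathlib
import Pool.Agent.H89.ED.Defs

/-!
# The polynomial modulo `p`

The polynomial `(X - a) (X - c) ^ (n + 2) + 1` with `c = q / (κ - 1)` vanishes at `0` and at `- q`.
-/

set_option autoImplicit false

namespace H89ED

open Polynomial

theorem AtP_s_mul_s (k : Type) [Field k] (n : ℕ) : (-1 : k) ^ n * (-1 : k) ^ n = 1 := by
  rw [← mul_pow]
  simp

/-- the equation for `κ` in terms of `c` -/
theorem AtP_eq (k : Type) [Field k] (n : ℕ) (q κ c : k) (h1 : κ - 1 ≠ 0) (hc : q = c * (κ - 1))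
    (hκ : (-1 : k) ^ n * q ^ (n + 3) * κ ^ (n + 2) + (κ - 1) ^ (n + 2) * (κ ^ (n + 2) - 1) = 0) :
    (-1 : k) ^ n * (q * c ^ (n + 2)) * κ ^ (n + 2) + (κ ^ (n + 2) - 1) = 0 := by
  have h2 : (κ - 1) ^ (n + 2) ≠ 0 := pow_ne_zero _ h1
  have h3 : q ^ (n + 3) = q * (c ^ (n + 2) * (κ - 1) ^ (n + 2)) := by
    rw [← mul_pow, ← hc]
    ring
  have h4 : (κ - 1) ^ (n + 2) *
      ((-1 : k) ^ n * (q * c ^ (n + 2)) * κ ^ (n + 2) + (κ ^ (n + 2) - 1)) = 0 := by
    rw [h3] at hκ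
    rw [← hκ]
    ring
  exact (mul_eq_zero.1 h4).resolve_left h2

/-- division of `F + 1` by `X (X + q)` -/
theorem AtP_div (k : Type) [Field k] (n : ℕ) (q : k) (hq : q ≠ 0) (F : k[X]) (hF : F.Monic)
    (hd : F.natDegree = n + 3) (h0 : F.eval 0 = -1) (h1 : F.eval (-q) = -1) :
    ∃ H : k[X], H.Monic ∧ H.natDegree = n + 1 ∧ GG q H = F := by
  have e1 : (F + 1).Monic := by
    refine hF.add_of_left (degree_lt_degree ?_)
    rw [natDegree_one, hd]
    omega
  have e2 : (F + 1).natDegree = n + 3 := by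
    rw [natDegree_add_eq_left_of_natDegree_lt (by rw [natDegree_one, hd]; omega), hd]
  have d1 : X ∣ F + 1 := by
    rw [X_dvd_iff, coeff_zero_eq_eval_zero, eval_add, h0, eval_one]
    ring
  have d2 : X + C q ∣ F + 1 := by
    have h2 : X - C (-q) ∣ F + 1 := by
      rw [dvd_iff_isRoot, IsRoot.def, eval_add, h1, eval_one]
      ring
    rwa [C_neg, sub_neg_eq_add] at h2
  have hcop : IsCoprime (X : k[X]) (X + C q) := by
    have h3 : IsCoprime (X - C 0 : k[X]) (X - C (-q)) := by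
      refine isCoprime_X_sub_C_of_isUnit_sub ?_
      rw [sub_neg_eq_add, zero_add]
      exact hq.isUnit
    simpa [C_neg, sub_neg_eq_add] using h3
  obtain ⟨H, hH⟩ := hcop.mul_dvd d1 d2
  have m1 : (X * (X + C q) : k[X]).Monic := monic_X.mul (monic_X_add_C q)
  have m2 : H.Monic := by
    rw [hH] at e1
    exact m1.of_mul_monic_left e1
  refine ⟨H, m2, ?_, ?_⟩
  · rw [hH, m1.natDegree_mul m2, monic_X.natDegree_mul (monic_X_add_C q), natDegree_X,
      natDegree_X_add_C] at e2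
    omega
  · rw [GG, ← hH]
    ring

theorem atp_field (k : Type) [Field k] (n : ℕ) (q κ : k) (hq : q ≠ 0)
    (hκ : (-1 : k) ^ n * q ^ (n + 3) * κ ^ (n + 2) + (κ - 1) ^ (n + 2) * (κ ^ (n + 2) - 1) = 0)
    (hκ2 : κ ^ (n + 3) ≠ 1) :
    ∃ (H : k[X]) (a c : k), H.Monic ∧ H.natDegree = n + 1 ∧ a ≠ c ∧ c * (c + q) ≠ 0 ∧
      GG q H = (X - C a) * (X - C c) ^ (n + 2) := by
  have hs := AtP_s_mul_s k n
  set s : k := (-1 : k) ^ n with hsd
  have hκ0 : κ ≠ 0 := by
    rintro rfl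
    have h1 : ((0 : k) - 1) ^ (n + 2) ≠ 0 := pow_ne_zero _ (by simp)
    rw [zero_pow (by omega), mul_zero, zero_add, zero_sub (1 : k)] at hκ
    have h2 : (-1 : k) ^ (n + 2) * -1 = 0 := by simpa using hκ
    rw [zero_sub] at h1
    exact absurd (mul_eq_zero.1 h2) (by
      rintro (h | h)
      · exact h1 h
      · exact absurd h (by simp))
  have hκ1 : κ - 1 ≠ 0 := by
    intro h
    have h2 : κ = 1 := sub_eq_zero.1 h
    rw [h2, sub_self, zero_pow (by omega), one_pow, zero_mul, add_zero, mul_one] at hκ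
    rcases mul_eq_zero.1 hκ with h3 | h3
    · rw [h3, mul_zero] at hs
      exact absurd hs (by simp)
    · exact hq (pow_eq_zero_iff (by omega) |>.1 h3)
  set c : k := q / (κ - 1) with hcd
  have hqc : q = c * (κ - 1) := by
    rw [hcd]
    field_simp
  have hc0 : c ≠ 0 := by
    intro h
    rw [h, zero_mul] at hqc
    exact hq hqc
  have hcq : c + q = κ * c := by
    rw [hqc]
    ring
  have heq := AtP_eq k n q κ c hκ1 hqc hκ
  rw [← hsd] at heq
  have hcn : c ^ (n + 2) ≠ 0 := pow_ne_zero _ hc0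
  set a : k := s * (c ^ (n + 2))⁻¹ with had
  have hac : a * c ^ (n + 2) = s := by
    rw [had]
    field_simp
  have hsn : (-1 : k) ^ (n + 2) = s := by
    rw [pow_add, hsd]
    ring
  have hF0 : ((X - C a) * (X - C c) ^ (n + 2)).eval 0 = -1 := by
    rw [eval_mul, eval_pow, eval_sub, eval_sub, eval_X, eval_C, eval_C, zero_sub, zero_sub,
      neg_pow c (n + 2), hsn]
    have e : -a * (s * c ^ (n + 2)) = -(s * (a * c ^ (n + 2))) := by ring
    rw [e, hac, hs]
  have hF1 : ((X - C a) * (X - C c) ^ (n + 2)).eval (-q) = -1 := by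
    have e1 : (-q - c) = -(κ * c) := by rw [← hcq]; ring
    rw [eval_mul, eval_pow, eval_sub, eval_sub, eval_X, eval_C, eval_C, e1,
      neg_pow (κ * c) (n + 2), hsn, mul_pow]
    have e : (-q - a) * (s * (κ ^ (n + 2) * c ^ (n + 2))) =
        -(s * (q * c ^ (n + 2)) * κ ^ (n + 2) + s * (a * c ^ (n + 2)) * κ ^ (n + 2)) := by ring
    rw [e, hac, hs, one_mul]
    have e3 : s * (q * c ^ (n + 2)) * κ ^ (n + 2) + κ ^ (n + 2) = 1 := by
      rw [← sub_eq_zero, ← heq]
      ring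
    rw [e3]
  have hFm : ((X - C a) * (X - C c) ^ (n + 2)).Monic :=
    (monic_X_sub_C a).mul ((monic_X_sub_C c).pow _)
  have hFd : ((X - C a) * (X - C c) ^ (n + 2)).natDegree = n + 3 := by
    rw [(monic_X_sub_C a).natDegree_mul ((monic_X_sub_C c).pow _), natDegree_X_sub_C,
      (monic_X_sub_C c).natDegree_pow, natDegree_X_sub_C]
    omega
  obtain ⟨H, h1, h2, h3⟩ := AtP_div k n q hq _ hFm hFd hF0 hF1
  refine ⟨H, a, c, h1, h2, ?_, ?_, h3⟩
  · intro hac2
    rw [hac2] at hac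
    apply hκ2
    have e4 : q * c ^ (n + 2) = s * (κ - 1) := by
      rw [← hac, hqc]
      ring
    rw [e4] at heq
    have e5 : s * (s * (κ - 1)) * κ ^ (n + 2) + (κ ^ (n + 2) - 1) = κ ^ (n + 3) - 1 := by
      have : s * (s * (κ - 1)) = κ - 1 := by rw [← mul_assoc, hs, one_mul]
      rw [this]
      ring
    rw [e5] at heq
    exact sub_eq_zero.1 heq
  · rw [hcq]
    exact mul_ne_zero hc0 (mul_ne_zero hκ0 hc0)

end H89ED
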