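import Mathlib
import Pool.Agent.H89.ED.Defs

/-!
# The polynomial modulo `p ^ 2`

Lifting a monic polynomial modulo `p` to a monic integral polynomial so that `X (X + q) H - 1` does
not vanish modulo `p ^ 2` at a given point, and the same for every polynomial which agrees with the
lift modulo `p ^ 2`.
-/

set_option autoImplicit false

namespace H89ED

open Polynomial

/-- a `p`-adic integer is divisible by `p` exactly when it vanishes modulo `p` -/
theorem AtPB_dvd (p : ℕ) [Fact p.Prime] (x : ℤ_[p]) (h : (p : ℤ_[p]) ∣ x) :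
    PadicInt.toZMod x = 0 := by
  obtain ⟨y, rfl⟩ := h
  rw [map_mul, map_natCast, CharP.cast_eq_zero, zero_mul]

theorem AtPB_eval (p : ℕ) [Fact p.Prime] (H1 : ℤ[X]) (c' : ℤ) (q : ℤ_[p]) (Y : ℤ_[p][X]) :
    (GG q (H1.map (Int.castRingHom ℤ_[p]) + Y)).eval (c' : ℤ_[p])
      = (GG q (H1.map (Int.castRingHom ℤ_[p]))).eval (c' : ℤ_[p])
        + (c' : ℤ_[p]) * ((c' : ℤ_[p]) + q) * Y.eval (c' : ℤ_[p]) := by
  rw [GG_eval, GG_eval, eval_add]
  ring

theorem atp_lift (p : ℕ) [Fact p.Prime] (n : ℕ) (q : ℤ_[p]) (H : (ZMod p)[X]) (c : ZMod p)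
    (hmon : H.Monic) (hdeg : H.natDegree = n + 1) (hc : c * (c + PadicInt.toZMod q) ≠ 0) :
    ∃ (H1 : ℤ[X]) (c' : ℤ), H1.Monic ∧ H1.natDegree = n + 1 ∧ (c' : ZMod p) = c ∧
      H1.map (Int.castRingHom (ZMod p)) = H ∧
      ¬ ((p : ℤ_[p]) ^ 2 ∣ (GG q (H1.map (Int.castRingHom ℤ_[p]))).eval (c' : ℤ_[p])) := by
  have hsurj : Function.Surjective (Int.castRingHom (ZMod p)) := ZMod.intCast_surjective
  have hl : H ∈ lifts (Int.castRingHom (ZMod p)) := by
    rw [lifts_iff_coeff_lifts]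
    intro k
    exact hsurj _
  obtain ⟨H1, h1, h2, h3⟩ := lifts_and_natDegree_eq_and_monic hl hmon
  obtain ⟨c', hc'⟩ := hsurj c
  have hc2 : (c' : ZMod p) = c := hc'
  by_cases hd : (p : ℤ_[p]) ^ 2 ∣ (GG q (H1.map (Int.castRingHom ℤ_[p]))).eval (c' : ℤ_[p])
  · refine ⟨H1 + C (p : ℤ), c', ?_, ?_, hc2, ?_, ?_⟩
    · refine h3.add_of_left (degree_lt_degree ?_)
      rw [natDegree_C, h2, hdeg]
      omega
    · rw [natDegree_add_C, h2, hdeg]
    · rw [Polynomial.map_add, h1, map_C]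
      simp
    · intro hd2
      rw [Polynomial.map_add, AtPB_eval, map_C, eval_C] at hd2
      have h4 := (dvd_add_right hd).1 hd2
      have h5 : (p : ℤ_[p]) ∣ (c' : ℤ_[p]) * ((c' : ℤ_[p]) + q) := by
        have hp : (p : ℤ_[p]) ≠ 0 := by
          exact_mod_cast (Fact.out : p.Prime).ne_zero
        rw [pow_two] at h4
        have h6 : (Int.castRingHom ℤ_[p]) (p : ℤ) = (p : ℤ_[p]) := by simp
        rw [h6] at h4
        exact (mul_dvd_mul_iff_right hp).1 h4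
      have h7 := AtPB_dvd p _ h5
      rw [map_mul, map_add, map_intCast, hc2] at h7
      exact hc h7
  · exact ⟨H1, c', h3, by rw [h2, hdeg], hc2, h1, hd⟩

theorem atp_apply (p : ℕ) [Fact p.Prime] (q : ℤ_[p]) (H1 : ℤ[X]) (c' : ℤ) (Y H : ℤ_[p][X])
    (hH : H = H1.map (Int.castRingHom ℤ_[p]) + C ((p : ℤ_[p]) ^ 2) * Y)
    (h2 : ¬ ((p : ℤ_[p]) ^ 2 ∣ (GG q (H1.map (Int.castRingHom ℤ_[p]))).eval (c' : ℤ_[p]))) :
    (GG q H).map (PadicInt.toZMod (p := p))
      = GG (PadicInt.toZMod q) (H1.map (Int.castRingHom (ZMod p))) ∧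
    ¬ ((p : ℤ_[p]) ^ 2 ∣ (GG q H).eval (c' : ℤ_[p])) := by
  subst hH
  constructor
  · rw [GG_map, Polynomial.map_add, Polynomial.map_mul, map_C, map_pow, map_natCast,
      CharP.cast_eq_zero, Polynomial.map_map]
    have e : (PadicInt.toZMod (p := p)).comp (Int.castRingHom ℤ_[p]) = Int.castRingHom (ZMod p) :=
      RingHom.ext_int _ _
    rw [e]
    simp
  · intro h
    rw [AtPB_eval, eval_mul, eval_C] at h
    refine h2 ((dvd_add_left ?_).1 h)
    exact Dvd.dvd.mul_left (dvd_mul_right _ _) _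

end H89ED
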