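import Mathlib

/-!
# An embedding with `|q| > 2`
-/

set_option autoImplicit false

namespace H89ED

open Polynomial NumberField

theorem norm_bound (L : Type) [Field L] [NumberField L] (q : 𝓞 L) (hq : q ≠ 0) (r : ℕ)
    (hr : 3 ≤ r) (hrq : (r : 𝓞 L) ∣ q) : ∃ σ : L →+* ℂ, 2 < ‖σ (q : L)‖ := by
  obtain ⟨t, rfl⟩ := hrq
  have ht : t ≠ 0 := right_ne_zero_of_mul hq
  by_contra hcon
  push Not at hcon
  have hlt : ∀ σ : L →ₐ[ℚ] ℂ, ‖σ (t : L)‖ < 1 := by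
    intro σ
    have h := hcon (σ : L →+* ℂ)
    have h2 : (σ : L →+* ℂ) (((r : 𝓞 L) * t : 𝓞 L) : L) = (r : ℂ) * σ (t : L) := by
      simp
    rw [h2, norm_mul, Complex.norm_natCast] at h
    have h3 : (3 : ℝ) ≤ r := by exact_mod_cast hr
    by_contra h4
    push Not at h4
    nlinarith
  have hN : Algebra.norm ℤ t ≠ 0 := by
    rw [Ne, Algebra.norm_eq_zero_iff]
    exact ht
  have h1 : (1 : ℝ) ≤ ‖((Algebra.norm ℚ (t : L) : ℚ) : ℂ)‖ := by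
    rw [← Algebra.coe_norm_int t]
    have : (1 : ℤ) ≤ |Algebra.norm ℤ t| := Int.one_le_abs hN
    push_cast
    rw [Complex.norm_intCast]
    exact_mod_cast this
  have h2 := Algebra.norm_eq_prod_embeddings ℚ ℂ (t : L)
  rw [eq_ratCast] at h2
  rw [h2, norm_prod] at h1
  have hne : Nonempty (L →ₐ[ℚ] ℂ) := ⟨IsAlgClosed.lift⟩
  classical
  have h3 : ∏ σ : L →ₐ[ℚ] ℂ, ‖σ (t : L)‖ < 1 := by
    obtain ⟨σ0⟩ := hne
    rw [← Finset.mul_prod_erase Finset.univ _ (Finset.mem_univ σ0)]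
    have h5 : ∏ σ ∈ Finset.univ.erase σ0, ‖σ (t : L)‖ ≤ 1 :=
      Finset.prod_le_one (fun _ _ => norm_nonneg _) (fun σ _ => (hlt σ).le)
    calc ‖σ0 (t : L)‖ * ∏ σ ∈ Finset.univ.erase σ0, ‖σ (t : L)‖
        ≤ ‖σ0 (t : L)‖ * 1 := mul_le_mul_of_nonneg_left h5 (norm_nonneg _)
      _ < 1 := by rw [mul_one]; exact hlt σ0
  linarith

end H89ED
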