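import Mathlib
import Pool.Agent.H89.ED.CopA

/-!
# `κ` is not a root of unity

PROOF.  Over the number field `L` consider
`P = C ((-1) ^ n * q ^ (n + 3)) * X ^ (n + 2) + (X - 1) ^ (n + 2) * (X ^ (n + 2) - 1)` and `U = X ^ (n + 3) - 1`.
They are coprime in `L[X]`: otherwise they have a common root `κ` in `Ω = AlgebraicClosure L`
(`Polynomial.isCoprime_iff_aeval_ne_zero_of_isAlgClosed` or via a common irreducible factor).
`κ ^ (n + 3) = 1`, `κ ≠ 1` because `P(1) = ± q ^ (n + 3) ≠ 0`, and with `κ ^ (n + 3) = 1`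
`κ * (κ - 1) ^ (n + 2) * (κ ^ (n + 2) - 1) = - (κ - 1) ^ (n + 3)`, `κ * κ ^ (n + 2) = 1`, so `P(κ) = 0` becomes
`q ^ (n + 3) = ± (κ - 1) ^ (n + 3)`.  For every embedding `σ : L →+* ℂ`, extended to `Ω` (`IsAlgClosed.lift`),
`|σ κ| = 1`, so `|σ q| = |σ κ - 1| ≤ 2`.  Hence the norm of `q` satisfies `|N(q)| ≤ 2 ^ d`, `d = [L : ℚ]`
(`Algebra.norm_eq_prod_embeddings`).  But `r ∣ q`, `N(r) = r ^ d ≥ 3 ^ d`, and `N(q)` is a nonzero multiple
of `N(r)`: contradiction (`d ≥ 1`).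
So `a P + b U = 1` with `a, b ∈ L[X]`; clearing denominators (`IsLocalization.integerNormalization`,
compare `H76EF.clear_den` in Pool/Agent/H76/EF/Schur.lean) gives `A P + B U = C d` over `𝓞 L`, `d ≠ 0`.
Apply `φ` and evaluate at `κ`.
-/


set_option autoImplicit false

namespace H89ED

open Polynomial NumberField

theorem CopB_clear (L : Type) [Field L] [NumberField L] (a : L[X]) :
    ∃ (D : 𝓞 L) (A : (𝓞 L)[X]), D ≠ 0 ∧ A.map (algebraMap (𝓞 L) L) = C (D : L) * a := by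
  obtain ⟨b, hbm, hb⟩ := IsLocalization.integerNormalization_spec (nonZeroDivisors (𝓞 L)) a
  refine ⟨b, IsLocalization.integerNormalization (nonZeroDivisors (𝓞 L)) a,
    nonZeroDivisors.ne_zero hbm, ?_⟩
  rw [hb]
  ext n
  rw [coeff_smul, coeff_C_mul, Algebra.smul_def]

theorem CopB_root (q z : ℂ) (hq : 2 < ‖q‖) (n : ℕ)
    (h : (-1 : ℂ) ^ n * q ^ (n + 3) * z ^ (n + 2) + (z - 1) ^ (n + 2) * (z ^ (n + 2) - 1) = 0)
    (hz : z ^ (n + 3) = 1) : False := by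
  have h1 : (z - 1) ^ (n + 3) = (-1 : ℂ) ^ n * q ^ (n + 3) := by
    have h2 : z * z ^ (n + 2) = 1 := by rw [← hz]; ring
    linear_combination -z * h + ((-1 : ℂ) ^ n * q ^ (n + 3) + (z - 1) ^ (n + 2)) * h2
  have hz1 : ‖z‖ = 1 := by
    have := congrArg norm hz
    rw [norm_pow, norm_one] at this
    exact (pow_eq_one_iff_of_nonneg (norm_nonneg _) (by omega)).1 this
  have h2 := congrArg norm h1
  rw [norm_pow, norm_mul, norm_pow, norm_pow, norm_neg, norm_one, one_pow, one_mul] at h2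
  have h3 : ‖z - 1‖ = ‖q‖ := (pow_left_inj₀ (norm_nonneg _) (norm_nonneg _) (by omega)).1 h2
  have h4 : ‖z - 1‖ ≤ ‖z‖ + ‖(1 : ℂ)‖ := norm_sub_le _ _
  rw [norm_one, hz1] at h4
  linarith

theorem coprime (L : Type) [Field L] [NumberField L] (q : 𝓞 L) (hq : q ≠ 0) (r : ℕ)
    (hr : 3 ≤ r) (hrq : (r : 𝓞 L) ∣ q) (n : ℕ) :
    ∃ d : 𝓞 L, d ≠ 0 ∧ ∀ (k : Type) [Field k] (φ : 𝓞 L →+* k) (κ : k),
      (-1 : k) ^ n * φ q ^ (n + 3) * κ ^ (n + 2) + (κ - 1) ^ (n + 2) * (κ ^ (n + 2) - 1) = 0 →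
      κ ^ (n + 3) = 1 → φ d = 0 := by
  obtain ⟨σ, hσ⟩ := norm_bound L q hq r hr hrq
  obtain ⟨P0, hP0⟩ : ∃ P0 : (𝓞 L)[X], P0 = C ((-1) ^ n * q ^ (n + 3)) * X ^ (n + 2) +
      (X - 1) ^ (n + 2) * (X ^ (n + 2) - 1) := ⟨_, rfl⟩
  obtain ⟨U0, hU0⟩ : ∃ U0 : (𝓞 L)[X], U0 = X ^ (n + 3) - 1 := ⟨_, rfl⟩
  have hcop : IsCoprime (P0.map (algebraMap (𝓞 L) L)) (U0.map (algebraMap (𝓞 L) L)) := by
    rw [← Polynomial.isCoprime_map σ,
      Polynomial.isCoprime_iff_aeval_ne_zero_of_isAlgClosed ℂ ℂ]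
    intro z
    by_contra hcon
    push Not at hcon
    obtain ⟨h1, h2⟩ := hcon
    rw [hP0] at h1
    rw [hU0] at h2
    simp only [Polynomial.map_add, Polynomial.map_mul, Polynomial.map_pow, Polynomial.map_sub,
      Polynomial.map_X, Polynomial.map_one, Polynomial.map_neg, Polynomial.map_C, map_add, map_mul, map_pow, map_sub,
      map_one, aeval_X, aeval_C, map_neg, Algebra.algebraMap_self, RingHom.id_apply] at h1 h2
    exact CopB_root (σ (q : L)) z hσ n h1 (sub_eq_zero.1 h2)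
  obtain ⟨a, b, hab⟩ := hcop
  obtain ⟨D1, A, hD1, hA⟩ := CopB_clear L a
  obtain ⟨D2, B, hD2, hB⟩ := CopB_clear L b
  have key : C D2 * A * P0 + C D1 * B * U0 = C (D1 * D2) := by
    apply Polynomial.map_injective (algebraMap (𝓞 L) L) (RingOfIntegers.coe_injective)
    rw [Polynomial.map_add, Polynomial.map_mul, Polynomial.map_mul, Polynomial.map_mul,
      Polynomial.map_mul, hA, hB, Polynomial.map_C, Polynomial.map_C, Polynomial.map_C, map_mul,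
      C_mul]
    linear_combination (C ((algebraMap (𝓞 L) L) D1) * C ((algebraMap (𝓞 L) L) D2)) * hab
  refine ⟨D1 * D2, mul_ne_zero hD1 hD2, fun k _ φ κ hκ1 hκ2 => ?_⟩
  have h1 := congrArg (eval₂ φ κ) key
  have h2 : eval₂ φ κ P0 = 0 := by
    rw [hP0]
    simp only [eval₂_add, eval₂_mul, eval₂_pow, eval₂_sub, eval₂_neg, eval₂_X, eval₂_one, eval₂_C, map_mul,
      map_pow, map_neg, map_one]
    exact hκ1
  have h3 : eval₂ φ κ U0 = 0 := by
    rw [hU0]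
    simp only [eval₂_sub, eval₂_pow, eval₂_X, eval₂_one]
    exact sub_eq_zero.2 hκ2
  simp only [eval₂_add, eval₂_mul, h2, h3, mul_zero, add_zero, eval₂_C] at h1
  exact h1.symm

end H89ED
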