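import Mathlib
import Pool.Agent.H89.ED.AtP
import Pool.Agent.H89.ED.AtPB
import Pool.Agent.H89.ED.CopB
import Pool.Agent.H89.ED.PadB

/-!
# The choice of the prime `p`
-/

set_option autoImplicit false

namespace H89ED

open Polynomial NumberField

section
variable {R : Type*} [CommRing R]

/-- the polynomial with root `κ` -/
noncomputable def PK (n : ℕ) (q : R) : R[X] :=
  (X - C 1) ^ (n + 2) * (X ^ (n + 2) - C 1) + C ((-1) ^ n * q ^ (n + 3)) * X ^ (n + 2)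

theorem PK_monic [Nontrivial R] (n : ℕ) (q : R) :
    (PK n q).Monic ∧ (PK n q).natDegree = 2 * n + 4 := by
  have h1 : ((X - C 1 : R[X]) ^ (n + 2)).Monic := (monic_X_sub_C 1).pow _
  have h2 : (X ^ (n + 2) - C 1 : R[X]).Monic := monic_X_pow_sub_C 1 (by omega)
  have h3 : ((X - C 1 : R[X]) ^ (n + 2) * (X ^ (n + 2) - C 1)).natDegree = 2 * n + 4 := by
    rw [h1.natDegree_mul h2, (monic_X_sub_C (1 : R)).natDegree_pow, natDegree_X_sub_C,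
      natDegree_X_pow_sub_C]
    omega
  have h4 : (C ((-1) ^ n * q ^ (n + 3)) * X ^ (n + 2) : R[X]).natDegree < 2 * n + 4 :=
    lt_of_le_of_lt (natDegree_C_mul_X_pow_le _ _) (by omega)
  have h5 : (C ((-1) ^ n * q ^ (n + 3)) * X ^ (n + 2) : R[X]).natDegree
      < ((X - C 1 : R[X]) ^ (n + 2) * (X ^ (n + 2) - C 1)).natDegree := by rw [h3]; exact h4
  rw [PK]
  refine ⟨(h1.mul h2).add_of_left (degree_lt_degree h5), ?_⟩
  rw [natDegree_add_eq_left_of_natDegree_lt h5, h3]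

theorem PK_map {S : Type*} [CommRing S] (f : R →+* S) (n : ℕ) (q : R) :
    (PK n q).map f = PK n (f q) := by
  simp [PK]

theorem PK_eval (n : ℕ) (q x : R) : (PK n q).eval x
    = (-1) ^ n * q ^ (n + 3) * x ^ (n + 2) + (x - 1) ^ (n + 2) * (x ^ (n + 2) - 1) := by
  simp [PK]
  ring

end

theorem choose_p (L : Type) [Field L] [NumberField L] (q : 𝓞 L) (hq : q ≠ 0) (r : ℕ)
    (hr : 3 ≤ r) (hrq : (r : 𝓞 L) ∣ q) (n B : ℕ) :
    ∃ (p : ℕ) (_ : Fact p.Prime) (τ : L →+* ℚ_[p]) (τ0 : 𝓞 L →+* ℤ_[p]) (H1 : ℤ[X])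
      (a : ZMod p) (c : ℤ), B < p ∧ (∀ b : 𝓞 L, ((τ0 b : ℤ_[p]) : ℚ_[p]) = τ (b : L)) ∧
      H1.Monic ∧ H1.natDegree = n + 1 ∧ a ≠ (c : ZMod p) ∧
      ∀ (H : (𝓞 L)[X]) (Y : ℤ_[p][X]),
        H.map τ0 = H1.map (Int.castRingHom ℤ_[p]) + C ((p : ℤ_[p]) ^ 2) * Y →
        (((GG q H).map τ0).map (PadicInt.toZMod (p := p))
          = (X - C a) * (X - C (c : ZMod p)) ^ (n + 2)) ∧
        ¬ ((p : ℤ_[p]) ^ 2 ∣ ((GG q H).map τ0).eval (c : ℤ_[p])) := by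
  obtain ⟨d, hd, hd2⟩ := coprime L q hq r hr hrq n
  obtain ⟨B1, hB1⟩ := unit_large L q hq
  obtain ⟨B2, hB2⟩ := unit_large L d hd
  obtain ⟨hP1, hP2⟩ := PK_monic n q
  obtain ⟨p, hp, τ, τ0, κ, hB, hτ, hκ⟩ := exists_root_large L (PK n q) hP1
    (by rw [hP2]; omega) (max B (max B1 B2))
  have hpp : p.Prime := hp.out
  obtain ⟨φ, hφ⟩ : ∃ φ : 𝓞 L →+* ZMod p, φ = (PadicInt.toZMod (p := p)).comp τ0 := ⟨_, rfl⟩
  obtain ⟨κ', hκ'⟩ : ∃ κ' : ZMod p, κ' = PadicInt.toZMod κ := ⟨_, rfl⟩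
  have hφq : φ q ≠ 0 := hB1 p hpp (by omega) φ
  have hφd : φ d ≠ 0 := hB2 p hpp (by omega) φ
  have hφq' : φ q = PadicInt.toZMod (τ0 q) := by rw [hφ]; rfl
  have hroot : (-1 : ZMod p) ^ n * φ q ^ (n + 3) * κ' ^ (n + 2)
      + (κ' - 1) ^ (n + 2) * (κ' ^ (n + 2) - 1) = 0 := by
    have h1 := congrArg (PadicInt.toZMod (p := p)) hκ
    rw [PK_map, PK_eval] at h1
    simp only [map_add, map_mul, map_pow, map_sub, map_neg, map_one, map_zero] at h1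
    rw [hφq', hκ']
    exact h1
  have hκ3 : κ' ^ (n + 3) ≠ 1 := fun h => hφd (hd2 (ZMod p) φ κ' hroot h)
  obtain ⟨H, a, c, h1, h2, h3, h4, h5⟩ := atp_field (ZMod p) n (φ q) κ' hφq hroot hκ3
  rw [hφq'] at h4 h5
  obtain ⟨H1, c', g1, g2, g3, g4, g5⟩ := atp_lift p n (τ0 q) H c h1 h2 h4
  refine ⟨p, hp, τ, τ0, H1, a, c', by omega, hτ, g1, g2, by rw [g3]; exact h3, ?_⟩
  intro F Y hF
  obtain ⟨k1, k2⟩ := atp_apply p (τ0 q) H1 c' Y (F.map τ0) hF g5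
  rw [GG_map]
  refine ⟨?_, k2⟩
  rw [k1, g4, h5, g3]

end H89ED
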