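import Mathlib
import Pool.Agent.H89.ED.Defs

/-!
# Polynomials with alternating signs
-/

set_option autoImplicit false

namespace H89ED

open Polynomial

theorem alternating (n : ℕ) (G : ℝ[X]) (t : ℕ → ℝ) (ht : ∀ i, i < n → t i < t (i + 1))
    (hs : ∀ j, j ≤ n → 0 < (-1 : ℝ) ^ (n - j) * G.eval (t j)) :
    ∃ r : Fin n → ℝ, StrictMono r ∧ (∀ i, G.eval (r i) = 0) ∧
      ∀ (i : Fin n) (j : ℕ), j ≤ n → (r i < t j ↔ (i : ℕ) < j) := by
  have hex : ∀ i : Fin n, ∃ x : ℝ, t i < x ∧ x < t (i + 1) ∧ G.eval x = 0 := by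
    intro i
    have hi := i.2
    have h1 := hs i (by omega)
    have h2 := hs (i + 1) (by omega)
    have e : (-1 : ℝ) ^ (n - i) = -(-1 : ℝ) ^ (n - (i + 1)) := by
      have : n - (i : ℕ) = (n - (i + 1)) + 1 := by omega
      rw [this, pow_succ]; ring
    rw [e] at h1
    have hcont : ContinuousOn (fun x : ℝ => (-1 : ℝ) ^ (n - ((i : ℕ) + 1)) * G.eval x)
        (Set.Icc (t i) (t (i + 1))) := by
      apply Continuous.continuousOn
      exact continuous_const.mul G.continuous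
    have hiv := intermediate_value_Ioo (ht i hi).le hcont
    have hmem : (0 : ℝ) ∈ Set.Ioo ((-1 : ℝ) ^ (n - ((i : ℕ) + 1)) * G.eval (t i))
        ((-1 : ℝ) ^ (n - ((i : ℕ) + 1)) * G.eval (t (i + 1))) := by
      constructor
      · linarith
      · exact h2
    obtain ⟨x, hx, hx0⟩ := hiv hmem
    refine ⟨x, hx.1, hx.2, ?_⟩
    rcases mul_eq_zero.1 hx0 with h | h
    · exfalso
      exact (pow_ne_zero _ (by norm_num)) h
    · exact h
  choose r hr1 hr2 hr3 using hex
  have hmono : ∀ j, j ≤ n → ∀ i, i ≤ j → t i ≤ t j := by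
    intro j
    induction j with
    | zero => intro _ i hi; rw [Nat.le_zero.1 hi]
    | succ j ih =>
      intro hj i hi
      rcases Nat.lt_or_ge i (j + 1) with h | h
      · exact le_trans (ih (by omega) i (by omega)) (ht j (by omega)).le
      · rw [le_antisymm hi h]
  have hlt : ∀ i j : Fin n, i < j → r i < r j := by
    intro i j hij
    have h1 : (i : ℕ) + 1 ≤ j := hij
    calc r i < t (i + 1) := hr2 i
      _ ≤ t j := hmono j j.2.le _ h1
      _ < r j := hr1 j
  refine ⟨r, fun i j hij => hlt i j hij, hr3, fun i j hj => ⟨fun h => ?_, fun h => ?_⟩⟩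
  · by_contra hcon
    have h1 := hmono i i.2.le j (not_lt.1 hcon)
    exact lt_irrefl _ ((h.trans_le h1).trans (hr1 i))
  · exact (hr2 i).trans_le (hmono j hj _ h)

theorem pos_right (G : ℝ[X]) (hG : G.Monic) (hd : 0 < G.natDegree) (x0 : ℝ) :
    ∃ x : ℝ, x0 < x ∧ 0 < G.eval x := by
  have h1 : Filter.Tendsto (fun x => G.eval x) Filter.atTop Filter.atTop :=
    Polynomial.tendsto_atTop_of_leadingCoeff_nonneg G (natDegree_pos_iff_degree_pos.1 hd)
      (by rw [hG.leadingCoeff]; exact zero_le_one)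
  obtain ⟨x, h2, h3⟩ := ((h1.eventually_gt_atTop 0).and (Filter.eventually_gt_atTop x0)).exists
  exact ⟨x, h3, h2⟩

theorem pos_left (G : ℝ[X]) (hG : G.Monic) (hd : 0 < G.natDegree) (x0 : ℝ) :
    ∃ x : ℝ, x < x0 ∧ 0 < (-1 : ℝ) ^ G.natDegree * G.eval x := by
  have hdeg : (C ((-1 : ℝ) ^ G.natDegree) * G.comp (-X)).natDegree = G.natDegree := by
    rw [natDegree_C_mul (pow_ne_zero _ (by norm_num)), natDegree_comp, natDegree_neg, natDegree_X,
      mul_one]
  have hlead : (C ((-1 : ℝ) ^ G.natDegree) * G.comp (-X)).Monic := by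
    have h0 : (-X : ℝ[X]).natDegree ≠ 0 := by
      rw [natDegree_neg, natDegree_X]; exact one_ne_zero
    rw [Monic, leadingCoeff_mul, leadingCoeff_C, leadingCoeff_comp h0, hG.leadingCoeff,
      leadingCoeff_neg, leadingCoeff_X, one_mul, ← mul_pow]
    norm_num
  obtain ⟨x, h1, h2⟩ := pos_right _ hlead (by rw [hdeg]; exact hd) (-x0)
  refine ⟨-x, by linarith, ?_⟩
  rw [eval_mul, eval_C, eval_comp, eval_neg, eval_X] at h2
  exact h2

end H89ED
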