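import Mathlib
import Pool.Agent.H89.ED.Defs

/-!
# Signs at the test points
-/

set_option autoImplicit false

namespace H89ED

open Polynomial

theorem Signs_eval (n A : ℕ) (x : ℝ) : ((RR n A).map (Int.castRingHom ℝ)).eval x =
    ∏ k ∈ Finset.range n, (x + ((A : ℝ) + 2 * k + 2)) := by
  rw [RR, Polynomial.map_prod, eval_prod]
  refine Finset.prod_congr rfl fun k _ => ?_
  rw [Polynomial.map_add, map_X, map_C, eval_add, eval_X, eval_C]
  simp

theorem Signs_aux (i : ℕ) : ∀ n : ℕ,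
    1 ≤ (-1 : ℝ) ^ (min i n) * ∏ k ∈ Finset.range n, ((2 * (k : ℝ) + 1) - 2 * i)
  | 0 => by simp
  | n + 1 => by
    have ih := Signs_aux i n
    rw [Finset.prod_range_succ]
    rcases Nat.lt_or_ge n i with h | h
    · have e1 : min i (n + 1) = n + 1 := min_eq_right h
      have e2 : min i n = n := min_eq_right h.le
      rw [e2] at ih
      rw [e1, pow_succ]
      have h1 : (1 : ℝ) ≤ -((2 * (n : ℝ) + 1) - 2 * i) := by
        have : ((n + 1 : ℕ) : ℝ) ≤ (i : ℝ) := by exact_mod_cast h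
        push_cast at this
        linarith
      have := one_le_mul_of_one_le_of_one_le ih h1
      calc (1 : ℝ) ≤ _ := this
        _ = _ := by ring
    · have e1 : min i (n + 1) = i := min_eq_left (by omega)
      have e2 : min i n = i := min_eq_left h
      rw [e2] at ih
      rw [e1]
      have h1 : (1 : ℝ) ≤ (2 * (n : ℝ) + 1) - 2 * i := by
        have : (i : ℝ) ≤ (n : ℝ) := by exact_mod_cast h
        linarith
      have := one_le_mul_of_one_le_of_one_le ih h1
      calc (1 : ℝ) ≤ _ := this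
        _ = _ := by ring

theorem RR_sign (n A i : ℕ) (hi : i ≤ n) :
    1 ≤ (-1 : ℝ) ^ i * ((RR n A).map (Int.castRingHom ℝ)).eval (-((A : ℝ) + 2 * i + 1)) := by
  have h := Signs_aux i n
  rw [min_eq_left hi] at h
  rw [Signs_eval]
  have e : ∏ k ∈ Finset.range n, (-((A : ℝ) + 2 * i + 1) + ((A : ℝ) + 2 * k + 2)) =
      ∏ k ∈ Finset.range n, ((2 * (k : ℝ) + 1) - 2 * i) :=
    Finset.prod_congr rfl fun k _ => by ring
  rw [e]
  exact h

theorem RR_pos (n A : ℕ) (x : ℝ) (hx : -((A : ℝ) + 1) ≤ x) :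
    1 ≤ ((RR n A).map (Int.castRingHom ℝ)).eval x := by
  rw [Signs_eval]
  refine Finset.prod_induction _ (fun y : ℝ => 1 ≤ y)
    (fun a b ha hb => one_le_mul_of_one_le_of_one_le ha hb) (le_refl _) fun k _ => ?_
  have : (0 : ℝ) ≤ (k : ℝ) := Nat.cast_nonneg k
  linarith

theorem dominate (a w : ℝ) (hw : w ≠ 0) :
    ∃ N0 : ℕ, ∀ N : ℕ, N0 ≤ N → 0 < w * (a + N * w) := by
  obtain ⟨N0, hN0⟩ := exists_nat_gt (|a * w| / w ^ 2)
  have hw2 : 0 < w ^ 2 := by positivity
  refine ⟨N0, fun N hN => ?_⟩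
  have h1 : |a * w| / w ^ 2 < N := lt_of_lt_of_le hN0 (by exact_mod_cast hN)
  rw [div_lt_iff₀ hw2] at h1
  have h2 : -|a * w| ≤ a * w := neg_abs_le _
  nlinarith

theorem eval_G (n A N : ℕ) (H0 : ℤ[X]) (q δ x : ℝ) :
    (GG q (HH H0 n A N δ)).eval x
      = (x * (x + q) * (H0.map (Int.castRingHom ℝ)).eval x - 1)
        + N * (x * (x + q) * δ * ((RR n A).map (Int.castRingHom ℝ)).eval x) := by
  rw [GG_eval, HH, eval_add, eval_mul, eval_C]
  ring

end H89ED
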