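import Mathlib
import Pool.Agent.H89.ED.Alt
import Pool.Agent.H89.ED.Signs

/-!
# The real roots of `X (X + q) (H₀ + N δ R) - 1`
-/

set_option autoImplicit false

namespace H89ED

open Polynomial

theorem RealA_sgn (s w b : ℝ) (h1 : 0 < s * w) (h2 : 0 < w * b) : 0 < s * b := by
  by_contra hcon
  have h3 : 0 < w ^ 2 * (s * b) := by
    have h4 := mul_pos h1 h2
    have h5 : s * w * (w * b) = w ^ 2 * (s * b) := by ring
    rwa [h5] at h4
  exact absurd h3 (not_lt.2 (mul_nonpos_of_nonneg_of_nonpos (sq_nonneg w) (not_lt.1 hcon)))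

theorem RealA_dom (a w s : ℝ) (hw : 0 < s * w) :
    ∃ N0 : ℕ, ∀ N : ℕ, N0 ≤ N → 0 < s * (a + N * w) := by
  have hw0 : w ≠ 0 := by
    intro h
    rw [h, mul_zero] at hw
    exact lt_irrefl _ hw
  obtain ⟨N0, h0⟩ := dominate a w hw0
  exact ⟨N0, fun N hN => RealA_sgn s w _ hw (h0 N hN)⟩

theorem real_roots_pos (n A : ℕ) (H0 : ℤ[X]) (hmon : H0.Monic) (hdeg : H0.natDegree = n + 1)
    (q δ : ℝ) (hq : 0 < q) (hA : q < A) (hδ : 0 < δ) :
    ∃ N0 : ℕ, ∀ N : ℕ, N0 ≤ N → ∃ r : Fin (n + 3) → ℝ, StrictMono r ∧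
      (∀ i, (GG q (HH H0 n A N δ)).eval (r i) = 0) ∧
      ∀ i : Fin (n + 3), r i + q < 0 ↔ (i : ℕ) < n + 2 := by
  have hq0 : (0 : ℝ) < q := hq
  have hA0 : (0 : ℝ) < A := lt_trans hq hA
  have hx : ∀ i : ℕ, ∃ N0 : ℕ, i ≤ n → ∀ N : ℕ, N0 ≤ N →
      0 < (-1 : ℝ) ^ i * (GG q (HH H0 n A N δ)).eval (-((A : ℝ) + 2 * i + 1)) := by
    intro i
    by_cases hi : i ≤ n
    · have h1 := RR_sign n A i hi
      have hi0 : (0 : ℝ) ≤ i := Nat.cast_nonneg i
      have h2 : 0 < (-((A : ℝ) + 2 * i + 1)) * (-((A : ℝ) + 2 * i + 1) + q) := by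
        apply mul_pos_of_neg_of_neg <;> linarith
      have hw : 0 < (-1 : ℝ) ^ i * ((-((A : ℝ) + 2 * i + 1)) * (-((A : ℝ) + 2 * i + 1) + q) * δ *
          ((RR n A).map (Int.castRingHom ℝ)).eval (-((A : ℝ) + 2 * i + 1))) := by
        have h3 : (-1 : ℝ) ^ i * ((-((A : ℝ) + 2 * i + 1)) * (-((A : ℝ) + 2 * i + 1) + q) * δ *
          ((RR n A).map (Int.castRingHom ℝ)).eval (-((A : ℝ) + 2 * i + 1)))
          = ((-((A : ℝ) + 2 * i + 1)) * (-((A : ℝ) + 2 * i + 1) + q) * δ) * ((-1 : ℝ) ^ i *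
          ((RR n A).map (Int.castRingHom ℝ)).eval (-((A : ℝ) + 2 * i + 1))) := by ring
        rw [h3]
        exact mul_pos (mul_pos h2 hδ) (lt_of_lt_of_le zero_lt_one h1)
      obtain ⟨N0, h0⟩ := RealA_dom ((-((A : ℝ) + 2 * i + 1)) * (-((A : ℝ) + 2 * i + 1) + q) *
        (H0.map (Int.castRingHom ℝ)).eval (-((A : ℝ) + 2 * i + 1)) - 1) _ _ hw
      refine ⟨N0, fun _ N hN => ?_⟩
      rw [eval_G]
      exact h0 N hN
    · exact ⟨0, fun h => absurd h hi⟩
  have h1 : ∃ N0 : ℕ, ∀ N : ℕ, N0 ≤ N → 0 < (GG q (HH H0 n A N δ)).eval 1 := by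
    have h2 := RR_pos n A 1 (by linarith)
    have hw : 0 < (1 : ℝ) * (1 * (1 + q) * δ * ((RR n A).map (Int.castRingHom ℝ)).eval 1) := by
      have h3 : (0 : ℝ) < 1 + q := by linarith
      rw [one_mul, one_mul]
      exact mul_pos (mul_pos h3 hδ) (lt_of_lt_of_le zero_lt_one h2)
    obtain ⟨N0, h0⟩ := RealA_dom (1 * (1 + q) * (H0.map (Int.castRingHom ℝ)).eval 1 - 1) _ _ hw
    refine ⟨N0, fun N hN => ?_⟩
    rw [eval_G]
    have h3 := h0 N hN
    rw [one_mul] at h3
    exact h3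
  choose f hf using hx
  obtain ⟨N1, hN1⟩ := h1
  refine ⟨max N1 ((Finset.range (n + 1)).sup f), fun N hN => ?_⟩
  have hN1' : N1 ≤ N := le_trans (le_max_left _ _) hN
  have hNf : ∀ i, i ≤ n → f i ≤ N := fun i hi =>
    le_trans (Finset.le_sup (Finset.mem_range.2 (by omega))) (le_trans (le_max_right _ _) hN)
  obtain ⟨hH1, hH2⟩ := HH_monic (R := ℝ) H0 n A N δ hmon hdeg
  obtain ⟨hG1, hG2⟩ := GG_monic q (HH H0 n A N δ) n hH1 hH2
  have hGq : (GG q (HH H0 n A N δ)).eval (-q) = -1 := by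
    rw [GG_eval]
    ring
  obtain ⟨t0, ht0, ht0'⟩ := pos_left (GG q (HH H0 n A N δ)) hG1 (by rw [hG2]; omega)
    (-((A : ℝ) + 2 * (n : ℕ) + 1))
  rw [hG2] at ht0'
  let t : ℕ → ℝ := fun j => if j = n + 3 then 1 else if j = n + 2 then -q else
    if j = 0 then t0 else -((A : ℝ) + 2 * ((n + 1 - j : ℕ) : ℝ) + 1)
  have t3 : t (n + 3) = 1 := by simp only [t, if_true]
  have t2 : t (n + 2) = -q := by
    simp only [t]
    rw [if_neg (by omega), if_pos trivial]
  have tz : t 0 = t0 := by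
    simp only [t]
    rw [if_neg (by omega), if_neg (by omega), if_pos trivial]
  have tm : ∀ j, 1 ≤ j → j ≤ n + 1 → t j = -((A : ℝ) + 2 * ((n + 1 - j : ℕ) : ℝ) + 1) := by
    intro j hj1 hj2
    simp only [t]
    rw [if_neg (by omega), if_neg (by omega), if_neg (by omega)]
  obtain ⟨r, hr1, hr2, hr3⟩ := alternating (n + 3) (GG q (HH H0 n A N δ)) t (by
    intro i hi
    rcases Nat.eq_zero_or_pos i with h | h
    · subst h
      rw [tz, tm (0 + 1) (by omega) (by omega)]
      have e : n + 1 - (0 + 1) = n := by omega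
      rw [e]
      exact ht0
    · by_cases h5 : i ≤ n
      · rw [tm i h (by omega), tm (i + 1) (by omega) (by omega)]
        have e : n + 1 - i = (n + 1 - (i + 1)) + 1 := by omega
        rw [e]
        push_cast
        linarith
      · by_cases h6 : i = n + 1
        · subst h6
          have e2 : n + 1 + 1 = n + 2 := rfl
          rw [tm (n + 1) (by omega) (by omega), e2, t2]
          have e : n + 1 - (n + 1) = 0 := by omega
          rw [e]
          push_cast
          linarith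
        · have h7 : i = n + 2 := by omega
          subst h7
          have e2 : n + 2 + 1 = n + 3 := rfl
          rw [e2, t3, t2]
          linarith) (by
    intro j hj
    rcases Nat.eq_zero_or_pos j with h | h
    · subst h
      rw [tz]
      exact ht0'
    · by_cases h5 : j ≤ n + 1
      · rw [tm j h h5]
        have h6 := hf (n + 1 - j) (by omega) N (hNf _ (by omega))
        have e : n + 3 - j = (n + 1 - j) + 2 := by omega
        rw [e, pow_add]
        have e2 : ((-1 : ℝ)) ^ 2 = 1 := by norm_num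
        rw [e2, mul_one]
        exact h6
      · by_cases h6 : j = n + 2
        · subst h6
          rw [t2, hGq]
          have e : n + 3 - (n + 2) = 1 := by omega
          rw [e]
          norm_num
        · have h7 : j = n + 3 := by omega
          subst h7
          rw [t3, Nat.sub_self, pow_zero, one_mul]
          exact hN1 N hN1')
  refine ⟨r, hr1, hr2, fun i => ?_⟩
  have h9 := hr3 i (n + 2) (by omega)
  rw [t2] at h9
  rw [← h9]
  constructor
  · intro h
    linarith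
  · intro h
    linarith

end H89ED
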