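import Mathlib
import Pool.Agent.H89.ED.Alt
import Pool.Agent.H89.ED.Signs
import Pool.Agent.H89.ED.RealA

/-!
# The real roots of `X (X + q) (H₀ + N δ R) - 1`, `δ` negative
-/

set_option autoImplicit false

namespace H89ED

open Polynomial

theorem real_roots_neg (n A : ℕ) (H0 : ℤ[X]) (hmon : H0.Monic) (hdeg : H0.natDegree = n + 1)
    (q δ : ℝ) (hq : 0 < q) (hA : q < A) (hδ : δ < 0) :
    ∃ N0 : ℕ, ∀ N : ℕ, N0 ≤ N → ∃ r : Fin (n + 3) → ℝ, StrictMono r ∧
      (∀ i, (GG q (HH H0 n A N δ)).eval (r i) = 0) ∧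
      ∀ i : Fin (n + 3), r i + q < 0 ↔ (i : ℕ) < n := by
  have hA0 : (0 : ℝ) < A := lt_trans hq hA
  have hx : ∀ i : ℕ, ∃ N0 : ℕ, i ≤ n → ∀ N : ℕ, N0 ≤ N →
      0 < (-(-1 : ℝ) ^ i) * (GG q (HH H0 n A N δ)).eval (-((A : ℝ) + 2 * i + 1)) := by
    intro i
    by_cases hi : i ≤ n
    · have h1 := RR_sign n A i hi
      have hi0 : (0 : ℝ) ≤ i := Nat.cast_nonneg i
      have h2 : 0 < (-((A : ℝ) + 2 * i + 1)) * (-((A : ℝ) + 2 * i + 1) + q) := by
        apply mul_pos_of_neg_of_neg <;> linarith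
      have hw : 0 < (-(-1 : ℝ) ^ i) * ((-((A : ℝ) + 2 * i + 1)) * (-((A : ℝ) + 2 * i + 1) + q) * δ *
          ((RR n A).map (Int.castRingHom ℝ)).eval (-((A : ℝ) + 2 * i + 1))) := by
        have h3 : (-(-1 : ℝ) ^ i) * ((-((A : ℝ) + 2 * i + 1)) * (-((A : ℝ) + 2 * i + 1) + q) * δ *
          ((RR n A).map (Int.castRingHom ℝ)).eval (-((A : ℝ) + 2 * i + 1)))
          = ((-((A : ℝ) + 2 * i + 1)) * (-((A : ℝ) + 2 * i + 1) + q) * (-δ)) * ((-1 : ℝ) ^ i *
          ((RR n A).map (Int.castRingHom ℝ)).eval (-((A : ℝ) + 2 * i + 1))) := by ring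
        rw [h3]
        exact mul_pos (mul_pos h2 (neg_pos.2 hδ)) (lt_of_lt_of_le zero_lt_one h1)
      obtain ⟨N0, h0⟩ := RealA_dom ((-((A : ℝ) + 2 * i + 1)) * (-((A : ℝ) + 2 * i + 1) + q) *
        (H0.map (Int.castRingHom ℝ)).eval (-((A : ℝ) + 2 * i + 1)) - 1) _ _ hw
      refine ⟨N0, fun _ N hN => ?_⟩
      rw [eval_G]
      exact h0 N hN
    · exact ⟨0, fun h => absurd h hi⟩
  have h1 : ∃ N0 : ℕ, ∀ N : ℕ, N0 ≤ N → 0 < (GG q (HH H0 n A N δ)).eval (-(q / 2)) := by
    have h2 := RR_pos n A (-(q / 2)) (by linarith)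
    have hw : 0 < (1 : ℝ) * (-(q / 2) * (-(q / 2) + q) * δ *
        ((RR n A).map (Int.castRingHom ℝ)).eval (-(q / 2))) := by
      have h3 : (0 : ℝ) < -(q / 2) * (-(q / 2) + q) * δ := by
        have e : -(q / 2) * (-(q / 2) + q) * δ = (q / 2) ^ 2 * (-δ) := by ring
        rw [e]
        exact mul_pos (pow_pos (by linarith) 2) (neg_pos.2 hδ)
      rw [one_mul]
      exact mul_pos h3 (lt_of_lt_of_le zero_lt_one h2)
    obtain ⟨N0, h0⟩ := RealA_dom (-(q / 2) * (-(q / 2) + q)
      * (H0.map (Int.castRingHom ℝ)).eval (-(q / 2)) - 1) _ _ hw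
    refine ⟨N0, fun N hN => ?_⟩
    rw [eval_G]
    have h3 := h0 N hN
    rw [one_mul] at h3
    exact h3
  choose f hf using hx
  obtain ⟨N1, hN1⟩ := h1
  refine ⟨max N1 ((Finset.range (n + 1)).sup f), fun N hN => ?_⟩
  have hN1' : N1 ≤ N := le_trans (le_max_left _ _) hN
  have hNf : ∀ i, i ≤ n → f i ≤ N := fun i hi =>
    le_trans (Finset.le_sup (Finset.mem_range.2 (by omega))) (le_trans (le_max_right _ _) hN)
  obtain ⟨hH1, hH2⟩ := HH_monic (R := ℝ) H0 n A N δ hmon hdeg
  obtain ⟨hG1, hG2⟩ := GG_monic q (HH H0 n A N δ) n hH1 hH2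
  have hGq : (GG q (HH H0 n A N δ)).eval (-q) = -1 := by
    rw [GG_eval]
    ring
  have hG0 : (GG q (HH H0 n A N δ)).eval 0 = -1 := by
    rw [GG_eval]
    ring
  obtain ⟨t0, ht0, ht0'⟩ := pos_right (GG q (HH H0 n A N δ)) hG1 (by rw [hG2]; omega) 0
  let t : ℕ → ℝ := fun j => if j = n + 3 then t0 else if j = n + 2 then 0 else
    if j = n + 1 then -(q / 2) else if j = n then -q else
    -((A : ℝ) + 2 * ((n - j : ℕ) : ℝ) + 1)
  have t3 : t (n + 3) = t0 := by simp only [t, if_true]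
  have t2 : t (n + 2) = 0 := by
    simp only [t]
    rw [if_neg (by omega), if_pos trivial]
  have t1 : t (n + 1) = -(q / 2) := by
    simp only [t]
    rw [if_neg (by omega), if_neg (by omega), if_pos trivial]
  have tn : t n = -q := by
    simp only [t]
    rw [if_neg (by omega), if_neg (by omega), if_neg (by omega), if_pos trivial]
  have tm : ∀ j, j < n → t j = -((A : ℝ) + 2 * ((n - j : ℕ) : ℝ) + 1) := by
    intro j hj
    simp only [t]
    rw [if_neg (by omega), if_neg (by omega), if_neg (by omega), if_neg (by omega)]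
  obtain ⟨r, hr1, hr2, hr3⟩ := alternating (n + 3) (GG q (HH H0 n A N δ)) t (by
    intro i hi
    by_cases h4 : i + 1 < n
    · rw [tm i (by omega), tm (i + 1) h4]
      have e : n - i = (n - (i + 1)) + 1 := by omega
      rw [e]
      push_cast
      linarith
    by_cases h5 : i + 1 = n
    · rw [tm i (by omega), h5, tn]
      have e : n - i = 1 := by omega
      rw [e]
      push_cast
      linarith
    by_cases h6 : i = n
    · subst h6
      rw [tn, t1]
      linarith
    by_cases h7 : i = n + 1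
    · subst h7
      have e2 : n + 1 + 1 = n + 2 := rfl
      rw [t1, e2, t2]
      linarith
    · have h8 : i = n + 2 := by omega
      subst h8
      have e2 : n + 2 + 1 = n + 3 := rfl
      rw [t2, e2, t3]
      exact ht0) (by
    intro j hj
    by_cases h4 : j < n
    · rw [tm j h4]
      have h6 := hf (n - j) (by omega) N (hNf _ (by omega))
      have e : n + 3 - j = (n - j) + 3 := by omega
      rw [e, pow_add]
      have e2 : ((-1 : ℝ)) ^ (n - j) * (-1) ^ 3 = -(-1 : ℝ) ^ (n - j) := by ring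
      rw [e2]
      exact h6
    by_cases h5 : j = n
    · subst h5
      rw [tn, hGq]
      have e : j + 3 - j = 3 := by omega
      rw [e]
      norm_num
    by_cases h6 : j = n + 1
    · subst h6
      rw [t1]
      have e : n + 3 - (n + 1) = 2 := by omega
      have e2 : ((-1 : ℝ)) ^ 2 = 1 := by norm_num
      rw [e, e2, one_mul]
      exact hN1 N hN1'
    by_cases h7 : j = n + 2
    · subst h7
      rw [t2, hG0]
      have e : n + 3 - (n + 2) = 1 := by omega
      rw [e]
      norm_num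
    · have h8 : j = n + 3 := by omega
      subst h8
      rw [t3, Nat.sub_self, pow_zero, one_mul]
      exact ht0')
  refine ⟨r, hr1, hr2, fun i => ?_⟩
  have h9 := hr3 i n (by omega)
  rw [tn] at h9
  rw [← h9]
  constructor
  · intro h
    linarith
  · intro h
    linarith

end H89ED
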