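import Mathlib
import Pool.Agent.H89.ED.RealA
import Pool.Agent.H89.ED.RealB

/-!
# Congruences, and the real roots at all real places
-/

set_option autoImplicit false

namespace H89ED

open Polynomial NumberField

theorem HH_cong {R : Type*} [CommRing R] (H0 H1 Y : ℤ[X]) (M : ℤ) (N N' : ℕ)
    (hN : (N : ℤ) = M * N') (n A : ℕ) (δ : R) (h : H0 = H1 + C M * Y) :
    HH H0 n A N δ = H1.map (Int.castRingHom R) + C (M : R) * (Y.map (Int.castRingHom R)
      + C ((N' : R) * δ) * (RR n A).map (Int.castRingHom R)) := by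
  have e : (N : R) = (M : R) * (N' : R) := by exact_mod_cast congrArg (Int.cast : ℤ → R) hN
  rw [HH, h, e, Polynomial.map_add, Polynomial.map_mul, map_C, eq_intCast, mul_assoc (M : R),
    C_mul (a := (M : R))]
  ring

theorem HH_mod (l : ℕ) [Fact l.Prime] (H0 H1 Y : ℤ[X]) (N N' : ℕ)
    (hN : (N : ℤ) = (l : ℤ) * N') (n A : ℕ) (δ : ZMod l) (h : H0 = H1 + C (l : ℤ) * Y) :
    HH H0 n A N δ = H1.map (Int.castRingHom (ZMod l)) := by
  rw [HH_cong H0 H1 Y l N N' hN n A δ h]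
  have : ((l : ℤ) : ZMod l) = 0 := by
    rw [Int.cast_natCast, ZMod.natCast_self]
  rw [this, C_0, zero_mul, add_zero]

variable (L : Type) [Field L] [NumberField L]

theorem finite_real : Finite (L →+* ℝ) := by
  have : Function.Injective fun σ : L →+* ℝ => (algebraMap ℝ ℂ).comp σ := by
    intro σ τ h
    ext x
    have := congrArg (fun f : L →+* ℂ => f x) h
    exact (algebraMap ℝ ℂ).injective this
  exact Finite.of_injective _ this

theorem exists_bound (f : (L →+* ℝ) → ℕ) : ∃ A : ℕ, ∀ σ, f σ ≤ A := by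
  have := finite_real L
  obtain ⟨A, hA⟩ := (Set.finite_range f).bddAbove
  exact ⟨A, fun σ => hA ⟨σ, rfl⟩⟩

theorem all_real (q δ : 𝓞 L) (hδ : δ ≠ 0) (hpos : ∀ σ : L →+* ℝ, 0 < σ (q : L)) (n : ℕ) (H0 : ℤ[X])
    (hmon : H0.Monic) (hdeg : H0.natDegree = n + 1) (A : ℕ) (hA : ∀ σ : L →+* ℝ, σ (q : L) < A) :
    ∃ N0 : ℕ, ∀ N : ℕ, N0 ≤ N → ∀ σ : L →+* ℝ, ∃ r : Fin (n + 3) → ℝ, StrictMono r ∧
      (∀ i, (GG (σ (q : L)) (HH H0 n A N (σ (δ : L)))).eval (r i) = 0) ∧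
      ∀ i : Fin (n + 3), r i + σ (q : L) < 0 ↔ (i : ℕ) < if σ (δ : L) < 0 then n else n + 2 := by
  have key : ∀ σ : L →+* ℝ, ∃ N0 : ℕ, ∀ N : ℕ, N0 ≤ N →
      ∃ r : Fin (n + 3) → ℝ, StrictMono r ∧
      (∀ i, (GG (σ (q : L)) (HH H0 n A N (σ (δ : L)))).eval (r i) = 0) ∧
      ∀ i : Fin (n + 3), r i + σ (q : L) < 0 ↔
        (i : ℕ) < if σ (δ : L) < 0 then n else n + 2 := by
    intro σ
    have h0 : σ (δ : L) ≠ 0 := by
      intro h
      apply hδ
      have h1 : (δ : L) = 0 := (map_eq_zero σ).1 h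
      exact RingOfIntegers.coe_injective (h1.trans (map_zero (algebraMap (𝓞 L) L)).symm)
    by_cases h : σ (δ : L) < 0
    · rw [if_pos h]
      exact real_roots_neg n A H0 hmon hdeg _ _ (hpos σ) (hA σ) h
    · rw [if_neg h]
      exact real_roots_pos n A H0 hmon hdeg _ _ (hpos σ) (hA σ) (lt_of_le_of_ne (not_lt.1 h) h0.symm)
  choose N0 hN0 using key
  obtain ⟨N1, hN1⟩ := exists_bound L N0
  exact ⟨N1, fun N hN σ => hN0 σ N (le_trans (hN1 σ) hN)⟩

theorem exists_A (q : 𝓞 L) : ∃ A : ℕ, ∀ σ : L →+* ℝ, σ (q : L) < A := by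
  obtain ⟨A, hA⟩ := exists_bound L (fun σ => ⌈σ (q : L)⌉₊)
  refine ⟨A + 1, fun σ => ?_⟩
  have h1 := Nat.le_ceil (σ (q : L))
  have h2 : (⌈σ (q : L)⌉₊ : ℝ) ≤ A := by exact_mod_cast hA σ
  push_cast
  linarith

end H89ED
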