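import Mathlib

/-!
# Chinese remainder theorem for monic integral polynomials
-/

set_option autoImplicit false

namespace H89ED

open Polynomial

theorem Crt_deg (d : ℕ) (H : ℤ[X]) (m : H.Monic) (hd : H.natDegree = d) :
    (H - X ^ d).degree < (d : WithBot ℕ) := by
  have h1 : H.degree = (d : WithBot ℕ) := by
    rw [Polynomial.degree_eq_natDegree m.ne_zero, hd]
  have h2 : (X ^ d : ℤ[X]).degree = (d : WithBot ℕ) := Polynomial.degree_X_pow d
  have h3 := Polynomial.degree_sub_lt_left (h1.trans h2.symm) m.ne_zero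
    (by rw [m.leadingCoeff, Polynomial.leadingCoeff_X_pow])
  rwa [h1] at h3

theorem Crt_degC (d : ℕ) (e : ℤ) (H : ℤ[X]) (m : H.Monic) (hd : H.natDegree = d) :
    (C e * (H - X ^ d)).degree < (d : WithBot ℕ) := by
  rw [← Polynomial.smul_eq_C_mul]
  exact lt_of_le_of_lt (Polynomial.degree_smul_le e _) (Crt_deg d H m hd)

theorem crt3 (M1 M2 M3 : ℤ) (h12 : IsCoprime M1 M2) (h13 : IsCoprime M1 M3)
    (h23 : IsCoprime M2 M3) (d : ℕ) (H1 H2 H3 : ℤ[X]) (m1 : H1.Monic) (d1 : H1.natDegree = d)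
    (m2 : H2.Monic) (d2 : H2.natDegree = d) (m3 : H3.Monic) (d3 : H3.natDegree = d) :
    ∃ H0 : ℤ[X], H0.Monic ∧ H0.natDegree = d ∧ (∃ Y, H0 = H1 + C M1 * Y) ∧
      (∃ Y, H0 = H2 + C M2 * Y) ∧ ∃ Y, H0 = H3 + C M3 * Y := by
  obtain ⟨a1, b1, e1⟩ : IsCoprime M1 (M2 * M3) := h12.mul_right h13
  obtain ⟨a2, b2, e2⟩ : IsCoprime M2 (M1 * M3) := h12.symm.mul_right h23
  obtain ⟨a3, b3, e3⟩ : IsCoprime M3 (M1 * M2) := h13.symm.mul_right h23.symm
  have k1 : (C a1 * C M1 + C b1 * (C M2 * C M3) : ℤ[X]) = 1 := by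
    rw [← C_mul, ← C_mul, ← C_mul, ← C_add, e1, C_1]
  have k2 : (C a2 * C M2 + C b2 * (C M1 * C M3) : ℤ[X]) = 1 := by
    rw [← C_mul, ← C_mul, ← C_mul, ← C_add, e2, C_1]
  have k3 : (C a3 * C M3 + C b3 * (C M1 * C M2) : ℤ[X]) = 1 := by
    rw [← C_mul, ← C_mul, ← C_mul, ← C_add, e3, C_1]
  let R : ℤ[X] := C (b1 * (M2 * M3)) * (H1 - X ^ d) + C (b2 * (M1 * M3)) * (H2 - X ^ d)
    + C (b3 * (M1 * M2)) * (H3 - X ^ d)
  have hR : R.degree < (d : WithBot ℕ) := by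
    refine lt_of_le_of_lt (Polynomial.degree_add_le _ _) (max_lt ?_ (Crt_degC d _ H3 m3 d3))
    exact lt_of_le_of_lt (Polynomial.degree_add_le _ _)
      (max_lt (Crt_degC d _ H1 m1 d1) (Crt_degC d _ H2 m2 d2))
  have hX : (X ^ d : ℤ[X]).degree = (d : WithBot ℕ) := Polynomial.degree_X_pow d
  have hR' : R.degree < (X ^ d : ℤ[X]).degree := by rw [hX]; exact hR
  refine ⟨X ^ d + R, (monic_X_pow d).add_of_left hR', ?_, ?_, ?_, ?_⟩
  · rw [Polynomial.natDegree_add_eq_left_of_degree_lt hR', Polynomial.natDegree_X_pow]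
  · refine ⟨-C a1 * (H1 - X ^ d) + C b2 * C M3 * (H2 - X ^ d)
      + C b3 * C M2 * (H3 - X ^ d), ?_⟩
    simp only [R, C_mul]
    linear_combination (H1 - X ^ d) * k1
  · refine ⟨C b1 * C M3 * (H1 - X ^ d) + -C a2 * (H2 - X ^ d)
      + C b3 * C M1 * (H3 - X ^ d), ?_⟩
    simp only [R, C_mul]
    linear_combination (H2 - X ^ d) * k2
  · refine ⟨C b1 * C M2 * (H1 - X ^ d) + C b2 * C M1 * (H2 - X ^ d)
      + -C a3 * (H3 - X ^ d), ?_⟩
    simp only [R, C_mul]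
    linear_combination (H3 - X ^ d) * k3

end H89ED
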