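import Mathlib

/-!
# A prime of `𝓞 K` above a root modulo a prime of degree one
-/

set_option autoImplicit false

namespace H89ED

open Polynomial NumberField

theorem exists_prime (L K : Type) [Field L] [NumberField L] [Field K] [NumberField K]
    [Algebra L K] (pb : PowerBasis L K) (G : (𝓞 L)[X]) (hmon : G.Monic)
    (hG : minpoly L pb.gen = G.map (algebraMap (𝓞 L) L)) (u : 𝓞 K) (hu : (u : K) = pb.gen)
    (p : ℕ) [Fact p.Prime] (φ : 𝓞 L →+* ZMod p) (c : ℤ) (hc : (G.map φ).eval (c : ZMod p) = 0) :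
    ∃ P : Ideal (𝓞 K), P.IsPrime ∧ u - c ∈ P ∧
      ∀ b : 𝓞 L, φ b = 0 → algebraMap (𝓞 L) (𝓞 K) b ∈ P := by
  have hinjL : Function.Injective (algebraMap (𝓞 L) L) := RingOfIntegers.coe_injective
  obtain ⟨j, hj⟩ : ∃ j, j = algebraMap (𝓞 L) (𝓞 K) := ⟨_, rfl⟩
  have hcomp : (algebraMap (𝓞 K) K).comp j = (algebraMap L K).comp (algebraMap (𝓞 L) L) := by
    rw [hj, ← IsScalarTower.algebraMap_eq, ← IsScalarTower.algebraMap_eq]
  -- a polynomial over `𝓞 L` which vanishes at `u` is a multiple of `G`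
  have hdvd : ∀ g : (𝓞 L)[X], eval₂ j u g = 0 → G ∣ g := by
    intro g hg
    have h1 : aeval pb.gen (g.map (algebraMap (𝓞 L) L)) = 0 := by
      rw [aeval_def, eval₂_map, ← hcomp, ← hu]
      have h2 := hom_eval₂ g j (algebraMap (𝓞 K) K) u
      rw [hg, map_zero] at h2
      exact h2.symm
    have h2 := minpoly.dvd L pb.gen h1
    rw [hG] at h2
    exact (Polynomial.map_dvd_map _ hinjL hmon).1 h2
  have hroot : eval₂ j u G = 0 := by
    have h1 : aeval pb.gen (G.map (algebraMap (𝓞 L) L)) = 0 := by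
      rw [← hG]; exact minpoly.aeval _ _
    rw [aeval_def, eval₂_map, ← hcomp, ← hu] at h1
    apply RingOfIntegers.coe_injective
    show algebraMap (𝓞 K) K _ = algebraMap (𝓞 K) K 0
    rw [hom_eval₂, map_zero]
    exact h1
  rw [eval_map] at hc
  obtain ⟨ψ, hψ⟩ : ∃ ψ : AdjoinRoot G →+* 𝓞 K, ψ = AdjoinRoot.lift j u hroot := ⟨_, rfl⟩
  obtain ⟨χ, hχ⟩ : ∃ χ : AdjoinRoot G →+* ZMod p, χ = AdjoinRoot.lift φ (c : ZMod p) hc := ⟨_, rfl⟩
  have hψinj : Function.Injective ψ := by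
    rw [injective_iff_map_eq_zero]
    intro a ha
    obtain ⟨g, rfl⟩ := AdjoinRoot.mk_surjective a
    rw [hψ, AdjoinRoot.lift_mk] at ha
    exact AdjoinRoot.mk_eq_zero.2 (hdvd g ha)
  let _ : Algebra (AdjoinRoot G) (𝓞 K) := ψ.toAlgebra
  have halg : algebraMap (AdjoinRoot G) (𝓞 K) = ψ := rfl
  have hint : Algebra.IsIntegral (AdjoinRoot G) (𝓞 K) := by
    constructor
    intro x
    obtain ⟨f, hf, hfx⟩ : IsIntegral ℤ x := Algebra.IsIntegral.isIntegral x
    refine ⟨f.map (Int.castRingHom _), hf.map _, ?_⟩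
    rw [eval₂_map]
    have e : (algebraMap (AdjoinRoot G) (𝓞 K)).comp (Int.castRingHom (AdjoinRoot G))
        = algebraMap ℤ (𝓞 K) := RingHom.ext_int _ _
    rw [e]
    exact hfx
  have hker : RingHom.ker (algebraMap (AdjoinRoot G) (𝓞 K)) ≤ RingHom.ker χ := by
    rw [halg, (RingHom.injective_iff_ker_eq_bot ψ).1 hψinj]
    exact bot_le
  have hprime : (RingHom.ker χ).IsPrime := RingHom.ker_isPrime χ
  obtain ⟨P, hP1, hP2⟩ := Ideal.exists_ideal_over_prime_of_isIntegral_of_isDomain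
    (S := 𝓞 K) (RingHom.ker χ) hker
  have hmem : ∀ a : AdjoinRoot G, χ a = 0 → ψ a ∈ P := by
    intro a ha
    have h1 : a ∈ Ideal.comap (algebraMap (AdjoinRoot G) (𝓞 K)) P := by
      rw [hP2]
      exact ha
    exact h1
  refine ⟨P, hP1, ?_, ?_⟩
  · have h1 := hmem (AdjoinRoot.root G - (c : AdjoinRoot G)) (by
      rw [map_sub, map_intCast, hχ, AdjoinRoot.lift_root, sub_self])
    rw [map_sub, map_intCast, hψ, AdjoinRoot.lift_root] at h1
    exact h1
  · intro b hb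
    have h1 := hmem (AdjoinRoot.of G b) (by rw [hχ, AdjoinRoot.lift_of, hb])
    rw [hψ, AdjoinRoot.lift_of, hj] at h1
    exact h1

end H89ED
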