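import Mathlib
import Pool.Agent.H76.EF.Primes
import Pool.Agent.H89.ED.DiscA

/-!
# Ramification and the discriminant
-/

set_option autoImplicit false

namespace H89ED

open Polynomial NumberField

theorem Disc_ker (L : Type) [Field L] [NumberField L] (p : ℕ) [Fact p.Prime]
    (τ0 : 𝓞 L →+* ℤ_[p]) (b : 𝓞 L) (hb : (PadicInt.toZMod (p := p)) (τ0 b) = 0) :
    τ0 b ∈ Ideal.span {(p : ℤ_[p])} := by
  rw [← PadicInt.maximalIdeal_eq_span_p, ← PadicInt.ker_toZMod]
  exact hb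

theorem dvd_discr (L K : Type) [Field L] [NumberField L] [Field K] [NumberField K]
    [Algebra L K] (pb : PowerBasis L K) (G : (𝓞 L)[X]) (hmon : G.Monic)
    (hG : minpoly L pb.gen = G.map (algebraMap (𝓞 L) L)) (u : 𝓞 K) (hu : (u : K) = pb.gen)
    (p : ℕ) [Fact p.Prime] (τ0 : 𝓞 L →+* ℤ_[p]) (k : ℕ) (hk : 2 ≤ k) (a : ZMod p) (c : ℤ)
    (hmod : (G.map τ0).map (PadicInt.toZMod (p := p)) = (X - C a) * (X - C (c : ZMod p)) ^ k)
    (h2 : ¬ ((p : ℤ_[p]) ^ 2 ∣ (G.map τ0).eval (c : ℤ_[p]))) :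
    (p : ℤ) ∣ discr K := by
  have hp : p.Prime := Fact.out
  let φ : 𝓞 L →+* ZMod p := (PadicInt.toZMod (p := p)).comp τ0
  have hφ : ∀ b, φ b = (PadicInt.toZMod (p := p)) (τ0 b) := fun b => rfl
  have hGφ : G.map φ = (X - C a) * (X - C (c : ZMod p)) ^ k := by
    rw [← hmod, Polynomial.map_map]
  have hk0 : k ≠ 0 := by omega
  have hc : (G.map φ).eval (c : ZMod p) = 0 := by
    rw [hGφ, eval_mul, eval_pow, eval_sub, eval_sub, eval_X, eval_C, eval_C, sub_self,
      zero_pow hk0, mul_zero]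
  have hc1 : (derivative (G.map φ)).eval (c : ZMod p) = 0 := by
    obtain ⟨m, rfl⟩ : ∃ m, k = m + 2 := ⟨k - 2, by omega⟩
    rw [hGφ]
    simp [derivative_mul, derivative_pow]
  obtain ⟨P, hP, huP, hφP⟩ := exists_prime L K pb G hmon hG u hu p φ c hc
  have hPp : P.IsPrime := hP
  -- the element g0 lies in the square of P
  have hg0φ : φ (G.eval (c : 𝓞 L)) = 0 := by
    have h := Polynomial.eval_map_apply φ (c : 𝓞 L) (p := G)
    rw [map_intCast] at h
    rw [← h, hc]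
  have hg1φ : φ ((derivative G).eval (c : 𝓞 L)) = 0 := by
    have h := Polynomial.eval_map_apply φ (c : 𝓞 L) (p := derivative G)
    rw [map_intCast, ← derivative_map] at h
    rw [← h, hc1]
  let ι : 𝓞 L →+* 𝓞 K := algebraMap (𝓞 L) (𝓞 K)
  have hroot : (G.map ι).eval u = 0 := by
    have h1 : aeval pb.gen (minpoly L pb.gen) = 0 := minpoly.aeval L pb.gen
    rw [hG, ← hu] at h1
    have h2 : algebraMap (𝓞 K) K ((G.map ι).eval u) = 0 := by
      rw [← h1, aeval_def, eval₂_map, eval_map]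
      rw [hom_eval₂]
      congr 1
    exact (FaithfulSMul.algebraMap_injective (𝓞 K) K) (by rw [h2, map_zero])
  have hg0P : ι (G.eval (c : 𝓞 L)) ∈ P := hφP _ hg0φ
  have hg1P : ι ((derivative G).eval (c : 𝓞 L)) ∈ P := hφP _ hg1φ
  have hg0P2 : ι (G.eval (c : 𝓞 L)) ∈ P ^ 2 := by
    let T : (𝓞 K)[X] := taylor (c : 𝓞 K) (G.map ι)
    have hT : T.eval (u - c) = 0 := by
      rw [taylor_eval, sub_add_cancel, hroot]
    have hT0 : T.coeff 0 = ι (G.eval (c : 𝓞 L)) := by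
      rw [taylor_coeff_zero]
      have h := Polynomial.eval_map_apply ι (c : 𝓞 L) (p := G)
      rw [map_intCast] at h
      exact h
    have hT1 : T.coeff 1 = ι ((derivative G).eval (c : 𝓞 L)) := by
      rw [taylor_coeff_one, derivative_map]
      have h := Polynomial.eval_map_apply ι (c : 𝓞 L) (p := derivative G)
      rw [map_intCast] at h
      exact h
    have e1 : T.divX * X + C (T.coeff 0) = T := divX_mul_X_add T
    have e2 : T.divX.divX * X + C (T.divX.coeff 0) = T.divX := divX_mul_X_add T.divX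
    have e3 : T.divX.coeff 0 = T.coeff 1 := coeff_divX
    have h1 : (T.divX.divX.eval (u - c) * (u - c) + T.coeff 1) * (u - c) + T.coeff 0 = 0 := by
      rw [← hT]
      conv_rhs => rw [← e1, ← e2, e3]
      simp only [eval_add, eval_mul, eval_X, eval_C]
    have h2 : ι (G.eval (c : 𝓞 L)) = -(T.divX.divX.eval (u - c) * ((u - c) * (u - c))
        + T.coeff 1 * (u - c)) := by
      rw [← hT0]
      linear_combination h1
    rw [h2, sq]
    apply neg_mem
    apply add_mem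
    · exact Ideal.mul_mem_left _ _ (Ideal.mul_mem_mul huP huP)
    · exact Ideal.mul_mem_mul (hT1 ▸ hg1P) huP
  -- the prime of L
  let 𝔭 : Ideal (𝓞 L) := RingHom.ker φ
  have hprime : 𝔭.IsPrime := RingHom.ker_isPrime φ
  have hpmem : (p : 𝓞 L) ∈ 𝔭 := by
    rw [RingHom.mem_ker, map_natCast, ZMod.natCast_self]
  have hne : 𝔭 ≠ ⊥ := by
    intro h
    rw [h, Ideal.mem_bot] at hpmem
    exact hp.ne_zero (by exact_mod_cast hpmem)
  have hle : 𝔭 ≤ P.comap ι := fun b hb => hφP b hb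
  have hle2 : 𝔭 ^ 2 ≤ (P ^ 2).comap ι := by
    rw [← Ideal.map_le_iff_le_comap, Ideal.map_pow]
    exact Ideal.pow_right_mono (Ideal.map_le_iff_le_comap.mpr hle) 2
  have hnot : G.eval (c : 𝓞 L) ∉ 𝔭 ^ 2 := by
    intro hmem
    apply h2
    have h3 : 𝔭 ≤ (Ideal.span {(p : ℤ_[p])}).comap τ0 := fun b hb => Disc_ker L p τ0 b hb
    have h4 : 𝔭 ^ 2 ≤ (Ideal.span {(p : ℤ_[p])} ^ 2).comap τ0 := by
      rw [← Ideal.map_le_iff_le_comap, Ideal.map_pow]
      exact Ideal.pow_right_mono (Ideal.map_le_iff_le_comap.mpr h3) 2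
    have h5 := h4 hmem
    rw [Ideal.mem_comap, Ideal.span_singleton_pow, Ideal.mem_span_singleton] at h5
    have h6 := Polynomial.eval_map_apply τ0 (c : 𝓞 L) (p := G)
    rw [map_intCast] at h6
    rw [h6]
    exact h5
  have hsup : 𝔭 ^ 2 ⊔ Ideal.span {G.eval (c : 𝓞 L)} = 𝔭 ^ 1 := by
    apply Ideal.eq_prime_pow_of_succ_lt_of_le hne
    · refine lt_of_le_of_ne le_sup_left ?_
      intro h
      apply hnot
      have h7 : G.eval (c : 𝓞 L) ∈ 𝔭 ^ (1 + 1) ⊔ Ideal.span {G.eval (c : 𝓞 L)} :=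
        Ideal.mem_sup_right (Ideal.mem_span_singleton_self _)
      rw [show 𝔭 ^ 2 = 𝔭 ^ (1 + 1) from rfl]
      rw [h]
      exact h7
    · rw [pow_one]
      apply sup_le (Ideal.pow_le_self (by norm_num))
      rw [Ideal.span_singleton_le_iff_mem]
      exact hg0φ
  have hpP2 : (p : 𝓞 K) ∈ P ^ 2 := by
    have h8 : (p : 𝓞 L) ∈ 𝔭 ^ 2 ⊔ Ideal.span {G.eval (c : 𝓞 L)} := by
      rw [hsup, pow_one]
      exact hpmem
    have h9 : 𝔭 ^ 2 ⊔ Ideal.span {G.eval (c : 𝓞 L)} ≤ (P ^ 2).comap ι := by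
      apply sup_le hle2
      rw [Ideal.span_singleton_le_iff_mem]
      exact hg0P2
    have h10 := h9 h8
    rw [Ideal.mem_comap, map_natCast] at h10
    exact h10
  by_contra hdisc
  exact H76EF.not_mem_sq hp hdisc hP (Ideal.pow_le_self (by norm_num) hpP2) hpP2

end H89ED
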