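import Mathlib
import Pool.Agent.H89.ED.PadA

/-!
# Extending homomorphisms from `𝓞 L` to `𝓞 K`
-/

set_option autoImplicit false

namespace H89ED

open Polynomial NumberField

theorem Ext_eval (p : ℕ) [Fact p.Prime] (L : Type) [Field L] [NumberField L] (G : (𝓞 L)[X])
    (τ : L →+* ℚ_[p]) (τ0 : 𝓞 L →+* ℤ_[p])
    (hτ : ∀ b : 𝓞 L, ((τ0 b : ℤ_[p]) : ℚ_[p]) = τ (b : L)) (z : ℤ_[p])
    (hz : (G.map τ0).eval z = 0) :
    (G.map (algebraMap (𝓞 L) L)).eval₂ τ (z : ℚ_[p]) = 0 := by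
  have h1 : τ.comp (algebraMap (𝓞 L) L) = (PadicInt.Coe.ringHom (p := p)).comp τ0 := by
    ext b
    exact (hτ b).symm
  rw [eval₂_map, h1]
  have h2 : (z : ℚ_[p]) = PadicInt.Coe.ringHom z := rfl
  rw [h2, ← hom_eval₂, ← eval_map, hz, map_zero]

theorem extend (p : ℕ) [Fact p.Prime] (L K : Type) [Field L] [NumberField L] [Field K]
    [NumberField K] [Algebra L K] (pb : PowerBasis L K) (G : (𝓞 L)[X])
    (hG : minpoly L pb.gen = G.map (algebraMap (𝓞 L) L)) (u : 𝓞 K) (hu : (u : K) = pb.gen)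
    (τ : L →+* ℚ_[p]) (τ0 : 𝓞 L →+* ℤ_[p])
    (hτ : ∀ b : 𝓞 L, ((τ0 b : ℤ_[p]) : ℚ_[p]) = τ (b : L)) (z : ℤ_[p])
    (hz : (G.map τ0).eval z = 0) :
    ∃ φ : 𝓞 K →+* ZMod p, φ u = PadicInt.toZMod z ∧
      ∀ b : 𝓞 L, φ (algebraMap (𝓞 L) (𝓞 K) b) = PadicInt.toZMod (τ0 b) := by
  let _ := τ.toAlgebra
  have h0 : aeval (z : ℚ_[p]) (minpoly L pb.gen) = 0 := by
    rw [hG, aeval_def]
    exact Ext_eval p L G τ τ0 hτ z hz
  obtain ⟨σ0, hσ0⟩ := int_hom p K (pb.lift (z : ℚ_[p]) h0 : K →+* ℚ_[p])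
  have hinj : Function.Injective ((↑) : ℤ_[p] → ℚ_[p]) := Subtype.val_injective
  refine ⟨PadicInt.toZMod.comp σ0, ?_, fun b => ?_⟩
  · have h1 : σ0 u = z := by
      apply hinj
      rw [hσ0, hu]
      exact pb.lift_gen _ h0
    rw [RingHom.comp_apply, h1]
  · have h1 : σ0 (algebraMap (𝓞 L) (𝓞 K) b) = τ0 b := by
      apply hinj
      rw [hσ0, hτ]
      have h2 : ((algebraMap (𝓞 L) (𝓞 K) b : 𝓞 K) : K) = algebraMap L K (b : L) := by
        rw [← IsScalarTower.algebraMap_apply (𝓞 L) L K]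
        rfl
      rw [h2]
      exact (pb.lift (z : ℚ_[p]) h0).commutes (b : L)
    rw [RingHom.comp_apply, h1]

end H89ED
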