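import Mathlib

/-!
# The extension of a number field defined by an irreducible polynomial
-/

set_option autoImplicit false

namespace H89ED

open Polynomial

theorem exists_field (L : Type) [Field L] [NumberField L] (f : L[X]) (hmon : f.Monic)
    (hirr : Irreducible f) :
    ∃ (K : Type) (_ : Field K) (_ : NumberField K) (_ : Algebra L K) (pb : PowerBasis L K),
      minpoly L pb.gen = f ∧ Module.finrank L K = f.natDegree := by
  have : Fact (Irreducible f) := ⟨hirr⟩
  have hne := hirr.ne_zero
  have hfin : FiniteDimensional L (AdjoinRoot f) := (AdjoinRoot.powerBasis hne).finite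
  have hchar : CharZero (AdjoinRoot f) :=
    charZero_of_injective_algebraMap (algebraMap L _).injective
  have hnf : NumberField (AdjoinRoot f) := NumberField.of_module_finite L (AdjoinRoot f)
  refine ⟨AdjoinRoot f, inferInstance, hnf, inferInstance, AdjoinRoot.powerBasis hne, ?_, ?_⟩
  · exact AdjoinRoot.minpoly_powerBasis_gen_of_monic hmon hne
  · rw [(AdjoinRoot.powerBasis hne).finrank, AdjoinRoot.powerBasis_dim]

end H89ED
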