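import Mathlib
import Pool.Agent.H76.EN.Eis

/-!
# The factorisation over `ℤ_p`
-/

set_option autoImplicit false

namespace H89ED

open Polynomial

theorem Loc_norm_lt {p : ℕ} [Fact p.Prime] {x : ℤ_[p]} (h : PadicInt.toZMod x = 0) :
    ‖x‖ < 1 := by
  have h1 : x ∈ RingHom.ker (PadicInt.toZMod (p := p)) := h
  rw [PadicInt.ker_toZMod] at h1
  exact PadicInt.mem_nonunits.1 h1

theorem Loc_norm_one {p : ℕ} [Fact p.Prime] {x : ℤ_[p]} (h : PadicInt.toZMod x ≠ 0) :
    ‖x‖ = 1 := by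
  apply le_antisymm (PadicInt.norm_le_one _)
  by_contra hc
  apply h
  have h1 : x ∈ RingHom.ker (PadicInt.toZMod (p := p)) := by
    rw [PadicInt.ker_toZMod]
    exact PadicInt.mem_nonunits.2 (not_le.1 hc)
  exact h1

theorem local_factor (p : ℕ) [Fact p.Prime] (f : ℤ_[p][X]) (k : ℕ) (hk : 0 < k) (hmon : f.Monic)
    (hdeg : f.natDegree = k + 1) (a c : ZMod p)
    (hmod : f.map (PadicInt.toZMod (p := p)) = (X - C a) * (X - C c) ^ k) (hac : a ≠ c)
    (c' : ℤ_[p]) (hc' : PadicInt.toZMod c' = c) (h2 : ¬ ((p : ℤ_[p]) ^ 2 ∣ f.eval c')) :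
    ∃ (z : ℤ_[p]) (h : ℤ_[p][X]), f.eval z = 0 ∧ PadicInt.toZMod z = a ∧ h.Monic ∧
      h.natDegree = k ∧ Irreducible h ∧ f = (X - C z) * h ∧
      h.map (PadicInt.toZMod (p := p)) = (X - C c) ^ k := by
  obtain ⟨a', ha'⟩ := ZMod.ringHom_surjective (PadicInt.toZMod (p := p)) a
  have ev : ∀ (F : ℤ_[p][X]) (b : ℤ_[p]), PadicInt.toZMod (F.eval b)
      = (F.map (PadicInt.toZMod (p := p))).eval (PadicInt.toZMod b) := by
    intro F b
    rw [eval_map, eval₂_hom]
  have h0 : PadicInt.toZMod (f.eval a') = 0 := by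
    rw [ev, hmod, ha', eval_mul, eval_sub, eval_X, eval_C, sub_self, zero_mul]
  have h1 : PadicInt.toZMod (f.derivative.eval a') ≠ 0 := by
    rw [ev, ← derivative_map, hmod, ha', derivative_mul, eval_add, eval_mul, eval_mul, eval_sub,
      eval_X, eval_C, sub_self, zero_mul, add_zero]
    rw [derivative_X_sub_C, eval_one, one_mul, eval_pow, eval_sub, eval_X, eval_C]
    exact pow_ne_zero _ (sub_ne_zero.2 hac)
  have hd : ‖aeval a' f.derivative‖ = 1 := by
    rw [coe_aeval_eq_eval]; exact Loc_norm_one h1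
  have hn : ‖aeval a' f‖ < 1 := by
    rw [coe_aeval_eq_eval]; exact Loc_norm_lt h0
  obtain ⟨z, hz, hza, -, -⟩ := hensels_lemma (F := f) (a := a')
    (by rw [hd]; simpa using hn)
  rw [coe_aeval_eq_eval] at hz
  rw [hd] at hza
  have hm : z - a' ∈ RingHom.ker (PadicInt.toZMod (p := p)) := by
    rw [PadicInt.ker_toZMod]
    exact PadicInt.mem_nonunits.2 hza
  rw [RingHom.mem_ker, map_sub, sub_eq_zero, ha'] at hm
  obtain ⟨h, hh⟩ := dvd_iff_isRoot.2 (IsRoot.def.2 hz)
  have hhmon : h.Monic := by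
    have := hmon
    rw [hh] at this
    exact Monic.of_mul_monic_left (monic_X_sub_C z) this
  have hhdeg : h.natDegree = k := by
    have e1 := hdeg
    rw [hh, (monic_X_sub_C z).natDegree_mul hhmon, natDegree_X_sub_C] at e1
    omega
  have hhmod : h.map (PadicInt.toZMod (p := p)) = (X - C c) ^ k := by
    have e1 := congrArg (Polynomial.map (PadicInt.toZMod (p := p))) hh
    rw [Polynomial.map_mul, Polynomial.map_sub, map_X, map_C, hm, hmod] at e1
    exact (mul_left_cancel₀ (monic_X_sub_C a).ne_zero e1).symm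
  refine ⟨z, h, hz, hm, hhmon, hhdeg, ?_, hh, hhmod⟩
  apply H76EN.eis_irred p h k hk hhmon hhdeg c' (by rw [hc']; exact hhmod)
  intro hd
  apply h2
  have e1 : f.eval c' = (c' - z) * h.eval c' := by
    have := congrArg (Polynomial.eval c') hh
    simpa using this
  rw [e1]
  exact Dvd.dvd.mul_left hd _

end H89ED
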