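import Mathlib

/-!
# Irreducibility and absence of intermediate fields over a base field
-/

set_option autoImplicit false

namespace H89ED

open Polynomial

section
variable (L E : Type) [Field L] [Field E] (τ : L →+* E) (f : L[X]) (k : ℕ) (hk : 0 < k)
  (hmon : f.Monic) (hdeg : f.natDegree = k + 1) (z : E) (h : E[X]) (hhdeg : h.natDegree = k)
  (hirr : Irreducible h) (hh : f.map τ = (X - C z) * h)

include hk hmon hdeg hhdeg hirr hh in
theorem irred (hroot : ∀ b : L, f.eval b ≠ 0) : Irreducible f := by
  have hprime := hirr.prime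
  have hf0 : f ≠ 0 := hmon.ne_zero
  have key : ∀ A B : L[X], f = A * B → h ∣ A.map τ → IsUnit B := by
    intro A B hAB hd
    have hA0 : A ≠ 0 := by rintro rfl; rw [zero_mul] at hAB; exact hf0 hAB
    have hB0 : B ≠ 0 := by rintro rfl; rw [mul_zero] at hAB; exact hf0 hAB
    have h1 : k ≤ A.natDegree := by
      have := natDegree_le_of_dvd hd ((Polynomial.map_ne_zero_iff τ.injective).2 hA0)
      rw [hhdeg, natDegree_map] at this
      exact this
    have h2 : A.natDegree + B.natDegree = k + 1 := by
      rw [← natDegree_mul hA0 hB0, ← hAB, hdeg]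
    rcases Nat.lt_or_ge B.natDegree 1 with h4 | h4
    · have h5 : B.natDegree = 0 := by omega
      rw [natDegree_eq_zero] at h5
      obtain ⟨b, hb⟩ := h5
      rw [← hb, isUnit_C, isUnit_iff_ne_zero]
      rintro rfl
      rw [C_0] at hb
      exact hB0 hb.symm
    · exfalso
      have h5 : B.degree = 1 := by
        rw [degree_eq_natDegree hB0]
        have : B.natDegree = 1 := by omega
        rw [this]; rfl
      obtain ⟨q, hq⟩ := exists_root_of_degree_eq_one h5
      apply hroot q
      rw [hAB, eval_mul, hq, mul_zero]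
  constructor
  · intro hu
    have := natDegree_eq_zero_of_isUnit hu
    omega
  · intro A B hAB
    have e : f.map τ = A.map τ * B.map τ := by rw [hAB, Polynomial.map_mul]
    have hd : h ∣ A.map τ * B.map τ := by
      rw [← e, hh]; exact Dvd.intro_left _ rfl
    rcases hprime.dvd_or_dvd hd with h1 | h1
    · right; exact key A B hAB h1
    · left; exact key B A (by rw [hAB, mul_comm]) h1

include hk hmon hdeg hhdeg hirr hh in
theorem no_intermediate (K : Type) [Field K] [Algebra L K] (pb : PowerBasis L K)
    (hf : minpoly L pb.gen = f) (M : IntermediateField L K) : M = ⊥ ∨ M = ⊤ := by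
  have hfin : FiniteDimensional L K := pb.finite
  let _ : Algebra L E := τ.toAlgebra
  have halg : algebraMap L E = τ := rfl
  have hz : aeval z (minpoly L pb.gen) = 0 := by
    rw [hf, aeval_def, halg, ← eval_map, hh, eval_mul, eval_sub, eval_X, eval_C, sub_self,
      zero_mul]
  obtain ⟨σ', hσ'⟩ : ∃ σ' : K →ₐ[L] E, σ' pb.gen = z := ⟨pb.lift z hz, pb.lift_gen z hz⟩
  obtain ⟨σ, hσ0⟩ : ∃ σ : K →+* E, σ = (σ' : K →+* E) := ⟨_, rfl⟩
  have hσ : σ pb.gen = z := by rw [hσ0]; exact hσ'
  have hσL : σ.comp (algebraMap L K) = τ := by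
    rw [hσ0]
    exact σ'.comp_algebraMap
  have hint : IsIntegral M pb.gen := Algebra.IsIntegral.isIntegral _
  obtain ⟨P, hP⟩ : ∃ P, P = (minpoly M pb.gen).map (algebraMap M K) := ⟨_, rfl⟩
  have hPmon : P.Monic := by rw [hP]; exact (minpoly.monic hint).map _
  have hPdeg : P.natDegree = (minpoly M pb.gen).natDegree := by
    rw [hP, natDegree_map]
  have hPdvd : P ∣ f.map (algebraMap L K) := by
    have h1 := minpoly.dvd_map_of_isScalarTower L M pb.gen
    rw [hf] at h1
    have h2 := Polynomial.map_dvd (algebraMap M K) h1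
    rw [← hP, Polynomial.map_map, ← IsScalarTower.algebraMap_eq] at h2
    exact h2
  obtain ⟨Q, hQ1⟩ := hPdvd
  have hProot : P.IsRoot pb.gen := by
    rw [IsRoot.def, hP, eval_map, ← aeval_def]
    exact minpoly.aeval _ _
  obtain ⟨P1, hP1⟩ := dvd_iff_isRoot.2 hProot
  have hfK : (f.map (algebraMap L K)).Monic := hmon.map _
  have hP0 : P ≠ 0 := hPmon.ne_zero
  have hP10 : P1 ≠ 0 := by
    rintro rfl; rw [mul_zero] at hP1; exact hP0 hP1
  have hQ0 : Q ≠ 0 := by
    rintro rfl; rw [mul_zero] at hQ1; exact hfK.ne_zero hQ1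
  have hdegs : P.natDegree = 1 + P1.natDegree := by
    rw [hP1, natDegree_mul (X_sub_C_ne_zero _) hP10, natDegree_X_sub_C]
  have e1 : f.map τ = (X - C z) * (P1.map σ * Q.map σ) := by
    have := congrArg (Polynomial.map σ) hQ1
    rw [hP1, Polynomial.map_mul, Polynomial.map_mul, Polynomial.map_sub, map_X, map_C,
      Polynomial.map_map, hσL, hσ, mul_assoc] at this
    exact this
  have e4 : h = P1.map σ * Q.map σ := by
    rw [hh] at e1
    exact mul_left_cancel₀ (X_sub_C_ne_zero _) e1
  rcases hirr.isUnit_or_isUnit e4 with hu | hu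
  · right
    have h1 := natDegree_eq_zero_of_isUnit hu
    rw [natDegree_map] at h1
    have h2 : (minpoly M pb.gen).natDegree = 1 := by rw [← hPdeg, hdegs, h1]
    have h3 : (minpoly M pb.gen).degree = 1 := by
      rw [degree_eq_natDegree (minpoly.ne_zero hint), h2]; rfl
    obtain ⟨y, hy⟩ := minpoly.mem_range_of_degree_eq_one M pb.gen h3
    have hmem : pb.gen ∈ M := by
      rw [← hy]; exact y.2
    rw [eq_top_iff]
    intro x _
    obtain ⟨g, hg⟩ := pb.exists_eq_aeval' x
    rw [hg]
    have : aeval pb.gen g = ((aeval (⟨pb.gen, hmem⟩ : M) g : M) : K) :=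
      aeval_algHom_apply M.val (⟨pb.gen, hmem⟩ : M) g
    rw [this]
    exact SetLike.coe_mem _
  · left
    have h1 := natDegree_eq_zero_of_isUnit hu
    rw [natDegree_map] at h1
    have h2 : P.natDegree = k + 1 := by
      have e5 := congrArg natDegree hQ1
      rw [hmon.natDegree_map, hdeg, natDegree_mul hP0 hQ0, h1] at e5
      omega
    have h3 : k + 1 ≤ Module.finrank M K := by
      rw [← h2, hPdeg]
      exact minpoly.natDegree_le _
    have h4 : Module.finrank L K = k + 1 := by
      rw [pb.finrank, ← pb.natDegree_minpoly, hf, hdeg]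
    have h5 : Module.finrank L M * Module.finrank M K = Module.finrank L K :=
      Module.finrank_mul_finrank L M K
    have h6 : 0 < Module.finrank L M := Module.finrank_pos
    have h7 : Module.finrank L M = 1 := by
      rw [h4] at h5
      nlinarith
    exact IntermediateField.finrank_eq_one_iff.1 h7

end

end H89ED
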