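import Pool.Agent.H76.EN.Real

/-!
# `K = L(u)` is totally real

SETTING.  `L` is a totally real number field, `K / L` has the power basis `pb`, the minimal polynomial of
`u = pb.gen` over `L` is `G.map (algebraMap (𝓞 L) L)`, `G` monic of degree `d`, and for every
`σ : L →+* ℝ` the polynomial `G` has `d` distinct real roots `r σ 0 < r σ 1 < ...` along `σ`.
Then `K` is totally real (compare `H76EN.totallyReal_of`).
-/

set_option autoImplicit false

namespace H89ED

open Polynomial NumberField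

/-- a complex embedding of a totally real field factors through the real numbers -/
theorem RealK_factor (L : Type) [Field L] [NumberField L] [IsTotallyReal L] (ψ : L →+* ℂ) :
    ∃ σ : L →+* ℝ, ψ = (algebraMap ℝ ℂ).comp σ := by
  have hψ : ComplexEmbedding.IsReal ψ := by
    rw [← InfinitePlace.isReal_mk_iff]
    exact IsTotallyReal.isReal _
  refine ⟨hψ.embedding, ?_⟩
  ext x
  exact (hψ.coe_embedding_apply x).symm

section
variable (L K : Type) [Field L] [NumberField L] [IsTotallyReal L] [Field K] [NumberField K]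
  [Algebra L K] (pb : PowerBasis L K) (G : (𝓞 L)[X]) (hmon : G.Monic) (d : ℕ)
  (hd : G.natDegree = d) (hG : minpoly L pb.gen = G.map (algebraMap (𝓞 L) L))
  (r : (L →+* ℝ) → Fin d → ℝ) (hr : ∀ σ, StrictMono (r σ))
  (hroot : ∀ (σ : L →+* ℝ) (i : Fin d), (G.map (σ.comp (algebraMap (𝓞 L) L))).eval (r σ i) = 0)

include hmon hd hG hr hroot in
theorem totally_real : IsTotallyReal K := by
  constructor
  intro v
  rw [← InfinitePlace.mk_embedding v, InfinitePlace.isReal_mk_iff]
  obtain ⟨φ, hφ⟩ : ∃ φ : K →+* ℂ, φ = v.embedding := ⟨_, rfl⟩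
  rw [← hφ]
  obtain ⟨σ, hσ⟩ := RealK_factor L (φ.comp (algebraMap L K))
  -- the image of the generator is real
  have h0 : aeval (φ pb.gen) (G.map (σ.comp (algebraMap (𝓞 L) L))) = 0 := by
    have h1 : (minpoly L pb.gen).eval₂ (algebraMap L K) pb.gen = 0 := by
      rw [← aeval_def]; exact minpoly.aeval _ _
    have h2 : (minpoly L pb.gen).eval₂ (φ.comp (algebraMap L K)) (φ pb.gen) = 0 := by
      rw [← Polynomial.hom_eval₂, h1, map_zero]
    rw [hG, hσ, eval₂_map] at h2
    rw [aeval_def, eval₂_map]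
    exact h2
  have hmon' : (G.map (σ.comp (algebraMap (𝓞 L) L))).Monic := hmon.map _
  obtain ⟨i, hi⟩ := H76EN.complex_root_real d (G.map (σ.comp (algebraMap (𝓞 L) L)))
    (by rw [hmon.natDegree_map, hd]) hmon'.ne_zero (r σ) (hr σ).injective (hroot σ) _ h0
  rw [ComplexEmbedding.isReal_iff]
  let _ : Algebra L ℂ := (φ.comp (algebraMap L K)).toAlgebra
  obtain ⟨a, ha⟩ : ∃ a : K →ₐ[L] ℂ, ∀ x, a x = φ x :=
    ⟨{ toRingHom := φ, commutes' := fun _ => rfl }, fun _ => rfl⟩
  obtain ⟨b, hb⟩ : ∃ b : K →ₐ[L] ℂ, ∀ x, b x = (starRingEnd ℂ) (φ x) := by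
    refine ⟨{ toRingHom := (starRingEnd ℂ).comp φ, commutes' := ?_ }, fun _ => rfl⟩
    intro x
    show (starRingEnd ℂ) ((φ.comp (algebraMap L K)) x) = (φ.comp (algebraMap L K)) x
    rw [hσ]
    exact Complex.conj_ofReal _
  have hab : b = a := by
    apply pb.algHom_ext
    rw [ha, hb, hi, Complex.conj_ofReal]
  ext y
  rw [ComplexEmbedding.conjugate_coe_eq]
  exact (hb y).symm.trans ((congrArg (fun g : K →ₐ[L] ℂ => g y) hab).trans (ha y))

end

end H89ED
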