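import Mathlib
import Pool.Agent.H89.ED.Core1
import Pool.Agent.H89.ED.ChooseP
import Pool.Agent.H89.ED.ChooseL
import Pool.Agent.H89.ED.Crt
import Pool.Agent.H89.ED.Loc
import Pool.Agent.H89.ED.Prim
import Pool.Agent.H89.ED.Fld
import Pool.Agent.H89.ED.RealK
import Pool.Agent.H89.ED.CardK
import Pool.Agent.H89.ED.Disc
import Pool.Agent.H89.ED.Ext

/-!
# The field `K = L(u)`
-/

set_option autoImplicit false

namespace H89ED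

open Polynomial NumberField

/-- the polynomial -/
theorem exists_poly (L : Type) [Field L] [NumberField L] (q ω : 𝓞 L) (hq : q ≠ 0)
    (hω : ω ≠ 2) (hq1 : q ^ 3 + 1 ≠ 0) (hq2 : 4 * q ^ 3 - 3 ≠ 0)
    (hpos : ∀ σ : L →+* ℝ, 0 < σ (q : L)) (r : ℕ) (hr : 3 ≤ r) (hodd : Odd r)
    (hrq : (r : 𝓞 L) ∣ q) (hD : (dickson 1 (1 : 𝓞 L) r).eval ω = 2) (n B : ℕ) (δ : 𝓞 L)
    (hδ : δ ≠ 0) :
    ∃ H : (𝓞 L)[X], H.Monic ∧ H.natDegree = n + 1 ∧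
      -- real places
      (∀ σ : L →+* ℝ, ∃ r : Fin (n + 3) → ℝ, StrictMono r ∧
        (∀ i, ((GG q H).map (σ.comp (algebraMap (𝓞 L) L))).eval (r i) = 0) ∧
        ∀ i : Fin (n + 3), r i + σ (q : L) < 0 ↔
          (i : ℕ) < if σ (δ : L) < 0 then n else n + 2) ∧
      -- no root in `𝓞 L`
      (∀ x : 𝓞 L, (GG q H).eval x ≠ 0) ∧
      -- the prime `p`
      (∃ (p : ℕ) (_ : Fact p.Prime) (τ : L →+* ℚ_[p]) (τ0 : 𝓞 L →+* ℤ_[p]) (a : ZMod p) (c : ℤ),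
        B < p ∧ (∀ b : 𝓞 L, ((τ0 b : ℤ_[p]) : ℚ_[p]) = τ (b : L)) ∧ a ≠ (c : ZMod p) ∧
        (((GG q H).map τ0).map (PadicInt.toZMod (p := p))
          = (X - C a) * (X - C (c : ZMod p)) ^ (n + 2)) ∧
        ¬ ((p : ℤ_[p]) ^ 2 ∣ ((GG q H).map τ0).eval (c : ℤ_[p]))) ∧
      -- the prime `l'`
      ∃ (l : ℕ) (_ : Fact l.Prime) (τ : L →+* ℚ_[l]) (τ0 : 𝓞 L →+* ℤ_[l]) (z : ℤ_[l])
        (c y : ZMod l), (∀ b : 𝓞 L, ((τ0 b : ℤ_[l]) : ℚ_[l]) = τ (b : L)) ∧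
        (∀ t, (dickson 1 (1 : ZMod l) r).eval t ≠ y) ∧
        c * (y + 2) + 4 * PadicInt.toZMod (τ0 q) = 0 ∧
        ((GG q H).map τ0).eval z = 0 ∧ PadicInt.toZMod z = c := by
  obtain ⟨p, hp, τ, τ0, H1, a, c, hB, hτ, p1, p2, p3, p4⟩ := choose_p L q hq r hr hrq n B
  obtain ⟨l, hl, φ, H2, hlB, l1, l2, l3⟩ := choose_l L q n p
  obtain ⟨l', hl', τ', τ0', H3, c', y, hl'B, hτ', m1, m2, m3, m4, m5⟩ :=
    choose_l' L q ω hq hω hq1 hq2 r hodd hD n l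
  have hpp : p.Prime := hp.out
  have hlp : l.Prime := hl.out
  have hlp' : l'.Prime := hl'.out
  have c12 : IsCoprime ((p : ℤ) ^ 2) (l : ℤ) := by
    apply IsCoprime.pow_left
    rw [Nat.isCoprime_iff_coprime]
    exact (Nat.coprime_primes hpp hlp).2 (by omega)
  have c13 : IsCoprime ((p : ℤ) ^ 2) (l' : ℤ) := by
    apply IsCoprime.pow_left
    rw [Nat.isCoprime_iff_coprime]
    exact (Nat.coprime_primes hpp hlp').2 (by omega)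
  have c23 : IsCoprime (l : ℤ) (l' : ℤ) := by
    rw [Nat.isCoprime_iff_coprime]
    exact (Nat.coprime_primes hlp hlp').2 (by omega)
  obtain ⟨H0, h1, h2, ⟨Y1, hY1⟩, ⟨Y2, hY2⟩, ⟨Y3, hY3⟩⟩ :=
    crt3 ((p : ℤ) ^ 2) l l' c12 c13 c23 (n + 1) H1 H2 H3 p1 p2 l1 l2 m1 m2
  obtain ⟨A, hA⟩ := exists_A L q
  obtain ⟨N0, hN0⟩ := all_real L q δ hδ hpos n H0 h1 h2 A hA
  obtain ⟨N, hN⟩ : ∃ N, N = N0 * (p ^ 2 * l * l') := ⟨_, rfl⟩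
  have hNN : N0 ≤ N := by
    rw [hN]
    exact Nat.le_mul_of_pos_right _
      (Nat.mul_pos (Nat.mul_pos (pow_pos hpp.pos 2) hlp.pos) hlp'.pos)
  obtain ⟨g1, g2⟩ := HH_monic H0 n A N δ h1 h2
  refine ⟨HH H0 n A N δ, g1, g2, ?_, ?_, ?_, ?_⟩
  · intro σ
    obtain ⟨s, s1, s2, s3⟩ := hN0 N hNN σ
    refine ⟨s, s1, ?_, s3⟩
    intro i
    rw [GG_map, HH_map]
    exact s2 i
  · apply l3
    rw [HH_map]
    exact HH_mod l H0 H2 Y2 N (N0 * (p ^ 2 * l')) (by rw [hN]; push_cast; ring) n A (φ δ) hY2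
  · obtain ⟨k1, k2⟩ := p4 (HH H0 n A N δ) _ (by
      rw [HH_map, HH_cong H0 H1 Y1 ((p : ℤ) ^ 2) N (N0 * (l * l')) (by rw [hN]; push_cast; ring)
        n A (τ0 δ) hY1]
      push_cast
      rfl)
    exact ⟨p, hp, τ, τ0, a, c, hB, hτ, p3, k1, k2⟩
  · obtain ⟨z, z1, z2⟩ := m5 (HH H0 n A N δ) (by
      rw [HH_map, HH_map]
      exact HH_mod l' H0 H3 Y3 N (N0 * (p ^ 2 * l)) (by rw [hN]; push_cast; ring) n A _ hY3)
    exact ⟨l', hl', τ', τ0', z, c', y, hτ', m3, m4, z1, z2⟩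

end H89ED
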