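import Mathlib
import Pool.Agent.H89.ED.Core

/-!
# The field `K = L(u)`, continued
-/

set_option autoImplicit false

namespace H89ED

open Polynomial NumberField

theorem core (L : Type) [Field L] [NumberField L] [IsTotallyReal L] (q ω : 𝓞 L) (hq : q ≠ 0)
    (hω : ω ≠ 2) (hq1 : q ^ 3 + 1 ≠ 0) (hq2 : 4 * q ^ 3 - 3 ≠ 0)
    (hpos : ∀ σ : L →+* ℝ, 0 < σ (q : L)) (r : ℕ) (hr : 3 ≤ r) (hodd : Odd r)
    (hrq : (r : 𝓞 L) ∣ q) (hD : (dickson 1 (1 : 𝓞 L) r).eval ω = 2) (n B : ℕ) (δ : 𝓞 L)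
    (hδ : δ ≠ 0) :
    ∃ (K : Type) (_ : Field K) (_ : NumberField K) (_ : Algebra L K),
      Module.finrank L K = n + 3 ∧ IsTotallyReal K ∧
      (∀ M : IntermediateField L K, M = ⊥ ∨ M = ⊤) ∧ (B : ℤ) < |discr K| ∧
      ∃ u h : 𝓞 K, h * u = 1 ∧ IsUnit (u + algebraMap (𝓞 L) (𝓞 K) q) ∧
        (∀ σ : L →+* ℝ, Nat.card {ρ : K →+* ℝ // ρ.comp (algebraMap L K) = σ ∧
          ρ ((u + algebraMap (𝓞 L) (𝓞 K) q : 𝓞 K) : K) < 0}
            = if σ (δ : L) < 0 then n else n + 2) ∧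
        ∃ (l : ℕ) (_ : Fact l.Prime) (φ : 𝓞 K →+* ZMod l) (y : ZMod l),
          (∀ t, (dickson 1 (1 : ZMod l) r).eval t ≠ y) ∧
          φ u * (y + 2) + 4 * φ (algebraMap (𝓞 L) (𝓞 K) q) = 0 := by
  obtain ⟨H, h1, h2, hreal, hno, ⟨p, hp, τ, τ0, a, c, hpB, hτ, hac, hmod, hp2⟩,
    ⟨l, hl, τ', τ0', z', c', y, hτ', hy, hc', hz', hzc⟩⟩ :=
    exists_poly L q ω hq hω hq1 hq2 hpos r hr hodd hrq hD n B δ hδ
  obtain ⟨G, hG⟩ : ∃ G, G = GG q H := ⟨_, rfl⟩
  obtain ⟨hGm, hGd⟩ := GG_monic q H n h1 h2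
  rw [← hG] at hreal hno hmod hp2 hz' hGm hGd
  -- the factorisation at `p`
  obtain ⟨z, h, f1, f2, f3, f4, f5, f6, f7⟩ := local_factor p (G.map τ0) (n + 2) (by omega)
    (hGm.map _) (by rw [hGm.natDegree_map, hGd]) a c hmod hac (c : ℤ_[p]) (by simp) hp2
  have hinj : Function.Injective (algebraMap (𝓞 L) L) := RingOfIntegers.coe_injective
  obtain ⟨f, hf⟩ : ∃ f : L[X], f = G.map (algebraMap (𝓞 L) L) := ⟨_, rfl⟩
  have hfm : f.Monic := by rw [hf]; exact hGm.map _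
  have hfd : f.natDegree = (n + 2) + 1 := by rw [hf, hGm.natDegree_map, hGd]
  have hcomp : (algebraMap ℤ_[p] ℚ_[p]).comp τ0 = τ.comp (algebraMap (𝓞 L) L) := by
    ext b
    exact hτ b
  have hfac : f.map τ = (X - C (z : ℚ_[p])) * h.map (algebraMap ℤ_[p] ℚ_[p]) := by
    rw [hf, Polynomial.map_map, ← hcomp, ← Polynomial.map_map, f6, Polynomial.map_mul,
      Polynomial.map_sub, map_X, map_C]
    rfl
  have hhirr : Irreducible (h.map (algebraMap ℤ_[p] ℚ_[p])) :=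
    (f3.irreducible_iff_irreducible_map_fraction_map).1 f5
  have hhd : (h.map (algebraMap ℤ_[p] ℚ_[p])).natDegree = n + 2 := by
    rw [f3.natDegree_map, f4]
  have hroot : ∀ b : L, f.eval b ≠ 0 := by
    intro b hb
    have hint : IsIntegral (𝓞 L) b := ⟨G, hGm, by rw [← eval_map, ← hf]; exact hb⟩
    obtain ⟨b', hb'⟩ := IsIntegrallyClosed.isIntegral_iff.1 hint
    apply hno b'
    apply hinj
    rw [map_zero, ← eval_map_apply, ← hf, hb']
    exact hb
  have hirr : Irreducible f := irred L ℚ_[p] τ f (n + 2) (by omega) hfm hfd z _ hhd hhirr hfac hroot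
  obtain ⟨K, iK, iN, iA, pb, hpb, hfin⟩ := exists_field L f hfm hirr
  have hmin : minpoly L pb.gen = G.map (algebraMap (𝓞 L) L) := by rw [hpb, hf]
  -- the element `u`
  have hgen : aeval pb.gen f = 0 := by rw [← hpb]; exact minpoly.aeval _ _
  have hgint : IsIntegral (𝓞 L) pb.gen := by
    refine ⟨G, hGm, ?_⟩
    rw [hf, aeval_def, eval₂_map] at hgen
    exact hgen
  have hgint' : IsIntegral ℤ pb.gen := isIntegral_trans _ hgint
  obtain ⟨u, hu⟩ : ∃ u : 𝓞 K, (u : K) = pb.gen := ⟨⟨pb.gen, hgint'⟩, rfl⟩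
  obtain ⟨j, hj⟩ : ∃ j, j = algebraMap (𝓞 L) (𝓞 K) := ⟨_, rfl⟩
  have hGu : (G.map j).eval u = 0 := by
    apply RingOfIntegers.coe_injective
    show algebraMap (𝓞 K) K _ = algebraMap (𝓞 K) K 0
    rw [map_zero, ← eval_map_apply, Polynomial.map_map]
    have e1 : (algebraMap (𝓞 K) K).comp j = (algebraMap L K).comp (algebraMap (𝓞 L) L) := by
      rw [hj, ← IsScalarTower.algebraMap_eq, ← IsScalarTower.algebraMap_eq]
    rw [e1, ← Polynomial.map_map, ← hf]
    rw [← eval_map_algebraMap] at hgen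
    rw [← hu] at hgen
    exact hgen
  have hrel : u * (u + j q) * (H.map j).eval u = 1 := by
    rw [hG, GG_map, GG_eval] at hGu
    linear_combination hGu
  have hdisc : (p : ℤ) ∣ discr K :=
    dvd_discr L K pb G hGm hmin u hu p τ0 (n + 2) (by omega) a c hmod hp2
  choose s s1 s2 s3 using hreal
  refine ⟨K, iK, iN, iA, by rw [hfin, hfd], ?_, ?_, ?_, u, (u + j q) * (H.map j).eval u, ?_, ?_,
    ?_, ?_⟩
  · exact totally_real L K pb G hGm (n + 3) hGd hmin s s1 s2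
  · exact fun M => no_intermediate L ℚ_[p] τ f (n + 2) (by omega) hfm hfd z _ hhd hhirr hfac K pb
      hpb M
  · have h0 : discr K ≠ 0 := discr_ne_zero K
    have h3 : p ≤ (discr K).natAbs := Nat.le_of_dvd (Int.natAbs_pos.2 h0) (Int.natCast_dvd.1 hdisc)
    rw [Int.abs_eq_natAbs]
    exact_mod_cast lt_of_lt_of_le hpB h3
  · linear_combination hrel
  · rw [← hj]
    refine IsUnit.of_mul_eq_one (u * (H.map j).eval u) ?_
    linear_combination hrel
  · intro σ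
    have h4 := card_emb L K pb G hGm (n + 3) hGd hmin s s1 s2 σ (σ (q : L))
    have h5 : Nat.card {i : Fin (n + 3) // s σ i + σ (q : L) < 0}
        = if σ (δ : L) < 0 then n else n + 2 := by
      obtain ⟨m, hm⟩ : ∃ m, m = if σ (δ : L) < 0 then n else n + 2 := ⟨_, rfl⟩
      have hmle : m ≤ n + 3 := by rw [hm]; split_ifs <;> omega
      have e2 : ∀ i : Fin (n + 3), (s σ i + σ (q : L) < 0) ↔ (i : ℕ) < m := by
        intro i
        rw [hm]
        exact s3 σ i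
      rw [← hm]
      have e3 : {i : Fin (n + 3) // s σ i + σ (q : L) < 0} ≃ Fin m := by
        refine ⟨fun i => ⟨i.1, (e2 _).1 i.2⟩, fun i => ⟨⟨i.1, lt_of_lt_of_le i.2 hmle⟩,
          (e2 _).2 i.2⟩, ?_, ?_⟩
        · intro i
          rfl
        · intro i
          rfl
      rw [Nat.card_congr e3, Nat.card_fin]
    rw [← h5, ← h4]
    apply Nat.card_congr
    refine Equiv.subtypeEquivRight ?_
    intro ρ
    constructor
    · rintro ⟨g1, g2⟩
      refine ⟨g1, ?_⟩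
      have e4 : ρ ((u + j q : 𝓞 K) : K) = ρ pb.gen + σ (q : L) := by
        rw [← g1, ← hu, hj]
        show ρ ((u : K) + algebraMap L K (q : L)) = _
        rw [map_add]
        rfl
      rw [hj] at e4
      rw [e4] at g2
      exact g2
    · rintro ⟨g1, g2⟩
      refine ⟨g1, ?_⟩
      have e4 : ρ ((u + j q : 𝓞 K) : K) = ρ pb.gen + σ (q : L) := by
        rw [← g1, ← hu, hj]
        show ρ ((u : K) + algebraMap L K (q : L)) = _
        rw [map_add]
        rfl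
      rw [hj] at e4
      rw [e4]
      exact g2
  · obtain ⟨φ, φ1, φ2⟩ := extend l L K pb G hmin u hu τ' τ0' hτ' z' hz'
    refine ⟨l, hl, φ, y, hy, ?_⟩
    rw [φ1, φ2, hzc]
    exact hc'

end H89ED
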