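import Mathlib
import Pool.Agent.H25.ES.Phi

/-!
# The polynomial `X Φ ^ 2 + 4 h` has no root in `K`
-/

set_option autoImplicit false

namespace H89ED

open Polynomial NumberField

theorem NoRoot_integral (K : Type) [Field K] [NumberField K] (P : (𝓞 K)[X]) (hP : P.Monic)
    (h : 𝓞 K) (x : K) (hx : x * ((P.map (algebraMap (𝓞 K) K)).eval x) ^ 2 + 4 * (h : K) = 0) :
    ∃ y : 𝓞 K, (y : K) = x ∧ y * (P.eval y) ^ 2 + 4 * h = 0 := by
  have h2 : IsIntegral (𝓞 K) x := by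
    refine ⟨X * P ^ 2 + C (4 * h), ?_, ?_⟩
    · have hne : (X * P ^ 2).Monic := monic_X.mul (hP.pow 2)
      refine hne.add_of_left ?_
      have hd : (X * P ^ 2).natDegree = 1 + 2 * P.natDegree := by
        rw [monic_X.natDegree_mul (hP.pow 2), natDegree_X, hP.natDegree_pow]
      refine lt_of_le_of_lt degree_C_le ?_
      rw [degree_eq_natDegree hne.ne_zero, hd]
      exact_mod_cast (by omega : 0 < 1 + 2 * P.natDegree)
    · rw [eval₂_add, eval₂_mul, eval₂_X, eval₂_C, eval₂_pow, ← eval_map, map_mul, map_ofNat]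
      exact hx
  obtain ⟨y, hy⟩ := IsIntegrallyClosed.isIntegral_iff.1 h2
  refine ⟨y, hy, ?_⟩
  have hinj : Function.Injective (algebraMap (𝓞 K) K) := RingOfIntegers.coe_injective
  apply hinj
  rw [map_add, map_mul, map_pow, map_mul, map_ofNat, map_zero, ← eval_map_apply, hy]
  exact hx

theorem no_root_curve (L K : Type) [Field L] [NumberField L] [Field K] [NumberField K]
    [Algebra L K] (p : ℕ) (ω : 𝓞 L) (Φ : (𝓞 L)[X]) (hm : Φ.Monic)
    (hΦ : C ((2 - ω) ^ p) * X * Φ ^ 2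
      = (dickson 1 (1 : 𝓞 L) p).comp (C (2 - ω) * X - 2) + 2)
    (u h : 𝓞 K) (hu : h * u = 1) (l : ℕ) [Fact l.Prime] (φ : 𝓞 K →+* ZMod l) (Y : ZMod l)
    (hY : ∀ t, (dickson 1 (1 : ZMod l) p).eval t ≠ Y)
    (hc : φ u * (Y + 2) + 4 * φ (algebraMap (𝓞 L) (𝓞 K) ((2 - ω) ^ p)) = 0) (x : K) :
    x * ((Φ.map (algebraMap (𝓞 L) K)).eval x) ^ 2 + 4 * (h : K) ≠ 0 := by
  intro hx
  have hmap : (Φ.map (algebraMap (𝓞 L) (𝓞 K))).map (algebraMap (𝓞 K) K)
      = Φ.map (algebraMap (𝓞 L) K) := by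
    rw [Polynomial.map_map]
    rfl
  rw [← hmap] at hx
  obtain ⟨y, -, hy⟩ := NoRoot_integral K (Φ.map (algebraMap (𝓞 L) (𝓞 K))) (hm.map _) h x hx
  -- the identity of `hΦ` at `y`
  have h1 := congrArg (fun Q : (𝓞 L)[X] => (Q.map (algebraMap (𝓞 L) (𝓞 K))).eval y) hΦ
  simp only [Polynomial.map_mul, Polynomial.map_pow, Polynomial.map_add, Polynomial.map_sub,
    Polynomial.map_comp, map_C, map_X, Polynomial.map_ofNat, eval_mul, eval_pow, eval_add,
    eval_sub, eval_comp, eval_C, eval_X, eval_ofNat] at h1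
  have h2 := congrArg φ h1
  have h3 : (dickson 1 (1 : ZMod l) p).eval
      (φ (algebraMap (𝓞 L) (𝓞 K) (2 - ω) * y - 2))
      = φ (((dickson 1 (1 : 𝓞 L) p).map (algebraMap (𝓞 L) (𝓞 K))).eval
          (algebraMap (𝓞 L) (𝓞 K) (2 - ω) * y - 2)) := by
    rw [Polynomial.map_dickson, ← eval_map_apply, Polynomial.map_dickson]
    simp
  refine hY (φ (algebraMap (𝓞 L) (𝓞 K) (2 - ω) * y - 2)) ?_
  rw [h3]
  have hu' : φ h * φ u = 1 := by rw [← map_mul, hu, map_one]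
  have hy' := congrArg φ hy
  simp only [map_add, map_mul, map_pow, map_ofNat, map_zero] at h2 hy' hc ⊢
  linear_combination (-1 : ZMod l) * h2 + φ (algebraMap (𝓞 L) (𝓞 K) (2 - ω)) ^ p * hy' - φ h * hc
    + (Y + 2) * hu'

end H89ED
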