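import Mathlib
import Pool.Agent.H25.ES.Field

/-!
# Facts about `ω = ζ + 1/ζ`: `2 - ω` is totally positive
-/

set_option autoImplicit false

namespace H89ED

open Polynomial NumberField

theorem OmegaA_re (z : ℂ) (n : ℕ) (hn : n ≠ 0) (hz : z ^ n = 1) (h1 : z ≠ 1) (x : ℝ)
    (hx : (x : ℂ) = z + z⁻¹) : 0 < 2 - x := by
  have hnorm : ‖z‖ = 1 := Complex.norm_eq_one_of_pow_eq_one hz hn
  have hinv : z⁻¹ = (starRingEnd ℂ) z := Complex.inv_eq_conj hnorm
  have hxre : x = 2 * z.re := by
    have h := congrArg Complex.re hx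
    rw [hinv] at h
    simp at h
    linarith
  have hre : z.re ≤ 1 := by
    have := Complex.re_le_norm z
    linarith
  have hne : z.re ≠ 1 := by
    intro h
    apply h1
    have h2 : z.re ^ 2 + z.im ^ 2 = 1 := by
      have := Complex.sq_norm z
      rw [hnorm, Complex.normSq_apply] at this
      nlinarith
    have him : z.im = 0 := by
      rw [h] at h2
      nlinarith
    apply Complex.ext <;> simp [h, him]
  have : z.re < 1 := lt_of_le_of_ne hre hne
  linarith

theorem omega_lt (L : Type) [Field L] [NumberField L] (ω : 𝓞 L) (p : ℕ) (hp : p.Prime)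
    (ζ : AlgebraicClosure L) (hζ : IsPrimitiveRoot ζ p)
    (hω : algebraMap L (AlgebraicClosure L) (ω : L) = ζ + ζ⁻¹) (σ : L →+* ℝ) :
    0 < 2 - σ (ω : L) := by
  letI : Algebra L ℂ := (Complex.ofRealHom.comp σ).toAlgebra
  let s : AlgebraicClosure L →ₐ[L] ℂ := IsAlgClosed.lift
  refine OmegaA_re (s ζ) p hp.ne_zero ?_ ?_ _ ?_
  · rw [← map_pow, hζ.pow_eq_one, map_one]
  · intro h
    have h2 : ζ = 1 := s.toRingHom.injective (by simpa using h)
    exact hζ.ne_one hp.one_lt h2
  · have h := congrArg s hω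
    rw [AlgHom.commutes, map_add, map_inv₀] at h
    exact h

end H89ED
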