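import Mathlib
import Pool.Agent.H25.ES.Field

/-!
# Facts about `ω = ζ + 1/ζ` and `q = (2 - ω) ^ p`
-/

set_option autoImplicit false

namespace H89ED

open Polynomial NumberField

theorem OmegaB_der {R : Type*} [CommRing R] (n : ℕ) :
    (derivative (dickson 1 (1 : R) n)).eval (-2) = (-1) ^ (n + 1) * (n : R) ^ 2 := by
  induction n using Nat.twoStepInduction with
  | zero => rw [dickson_zero]; simp
  | one => rw [dickson_one]; simp
  | more n ih1 ih2 =>
    rw [dickson_add_two, C_1, one_mul, derivative_sub, derivative_mul, derivative_X, one_mul,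
      eval_sub, eval_add, eval_mul, eval_X, H25ES.dick_neg_two, ih1, ih2]
    push_cast
    ring

section
variable {R Ω' : Type*} [CommRing R] [IsDomain R] [Field Ω'] (ι : R →+* Ω')
  (hι : Function.Injective ι) (p g : ℕ) (hpg : p = 2 * g + 1) (ζ : Ω') (ω : R)
  (hζ : IsPrimitiveRoot ζ p) (hp : p.Prime) (hω : ι ω = ζ + ζ⁻¹) (ε : ℕ → R)
  (hε : ∀ k, 2 - (dickson 1 (1 : R) k).eval ω = (2 - ω) * ε k)

include hι hζ hp hω in
theorem dick_omega : (dickson 1 (1 : R) p).eval ω = 2 := by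
  have hζ0 : ζ ≠ 0 := hζ.ne_zero hp.ne_zero
  apply hι
  rw [H25ES.iota_d ι ζ ω hω hζ0, inv_pow, hζ.pow_eq_one, map_ofNat, inv_one]
  norm_num

include hι hpg hζ hp hω hε in
theorem p_dvd : (p : R) ∣ (2 - ω) ^ p := by
  have hne := H25ES.pi_ne ι p ζ ω hζ hp hω
  have h1 := H25ES.phi_id ι hι p g hpg ζ ω hζ hp hω ε hε
  have h2 := congrArg (fun f : R[X] => (derivative f).eval 0) h1
  simp only [derivative_mul, derivative_C, derivative_X, zero_mul, one_mul, zero_add,
    derivative_comp, derivative_add, derivative_sub, derivative_ofNat, eval_add, eval_mul, eval_C,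
    eval_X, eval_sub, eval_comp, mul_one, mul_zero, eval_ofNat, add_zero, zero_sub, sub_zero,
    OmegaB_der] at h2
  have h3 : (2 - ω) ^ g * (H25ES.phi ε g).eval 0 = (-1) ^ g * (p : R) := by
    apply mul_left_cancel₀ hne
    rw [hpg]
    push_cast at h2 ⊢
    have e : (2 - ω) * ((2 - ω) ^ g * (H25ES.phi ε g).eval 0)
        = (2 - ω) ^ (g + 1) * (H25ES.phi ε g).eval 0 := by ring
    rw [e, h2]
    ring
  have h4 : IsUnit ((H25ES.phi ε g).eval 0) := by
    have e : (H25ES.phi ε g).eval 0 = ∏ k ∈ Finset.Icc 1 g, (0 - ε k) := by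
      rw [H25ES.phi, eval_prod]
      simp only [eval_sub, eval_X, eval_C]
    rw [e]
    refine Finset.prod_induction _ IsUnit (fun a b ha hb => ha.mul hb) isUnit_one ?_
    intro k hk
    rw [zero_sub]
    exact (H25ES.eps_isUnit ι hι p g hpg ζ ω hζ hp hω ε hε hk).neg
  have h5 : (p : R) ∣ (2 - ω) ^ g * (H25ES.phi ε g).eval 0 := by
    rw [h3]
    exact Dvd.intro_left _ rfl
  have h6 : (p : R) ∣ (2 - ω) ^ g := h4.dvd_mul_right.1 h5
  exact h6.trans (pow_dvd_pow _ (by omega))

end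

end H89ED
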