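import Mathlib

/-!
# Quadratic extensions with large discriminant
-/

set_option autoImplicit false

namespace H89ED

open NumberField

/-- `L(s)` has degree two when `s ^ 2 = a` is not a square in `L`. -/
theorem QuadA_finrank (L A : Type) [Field L] [Field A] [Algebra L A] (a : L) (s : A)
    (ha : ¬ IsSquare a) (hs : s ^ 2 = algebraMap L A a) :
    Module.finrank L (IntermediateField.adjoin L {s}) = 2 := by
  have hirr : Irreducible (Polynomial.X ^ 2 - Polynomial.C a : Polynomial L) := by
    refine X_pow_sub_C_irreducible_of_prime Nat.prime_two ?_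
    intro b hb
    exact ha ⟨b, by rw [← hb, sq]⟩
  have hmon : (Polynomial.X ^ 2 - Polynomial.C a : Polynomial L).Monic :=
    Polynomial.monic_X_pow_sub_C a (by norm_num)
  have hmin : Polynomial.X ^ 2 - Polynomial.C a = minpoly L s := by
    refine minpoly.eq_of_irreducible_of_monic hirr ?_ hmon
    simp [hs]
  have hint : IsIntegral L s := ⟨_, hmon, by simp [hs]⟩
  rw [IntermediateField.adjoin.finrank hint, ← hmin]
  exact Polynomial.natDegree_X_pow_sub_C

/-- elements of `L(s)` are `x + y s`. -/
theorem QuadA_mem (L A : Type) [Field L] [Field A] [Algebra L A] (a : L) (s : A)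
    (ha : ¬ IsSquare a) (hs : s ^ 2 = algebraMap L A a) (t : A)
    (ht : t ∈ IntermediateField.adjoin L {s}) :
    ∃ x y : L, t = algebraMap L A x + algebraMap L A y * s := by
  have hmon : (Polynomial.X ^ 2 - Polynomial.C a : Polynomial L).Monic :=
    Polynomial.monic_X_pow_sub_C a (by norm_num)
  have hint : IsIntegral L s := ⟨_, hmon, by simp [hs]⟩
  have hfd : FiniteDimensional L (IntermediateField.adjoin L {s}) :=
    IntermediateField.adjoin.finiteDimensional hint
  have hr := QuadA_finrank L A a s ha hs
  set E := IntermediateField.adjoin L {s} with hE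
  have hsE : s ∈ E := IntermediateField.mem_adjoin_simple_self L s
  let s' : E := ⟨s, hsE⟩
  have hli : LinearIndependent L ![(1 : E), s'] := by
    rw [LinearIndependent.pair_iff]
    intro x y hxy
    have h1 : algebraMap L A x + algebraMap L A y * s = 0 := by
      have := congrArg (fun z : E => (z : A)) hxy
      simpa [Algebra.smul_def, s'] using this
    have hy : y = 0 := by
      by_contra hy
      apply ha
      refine ⟨-x / y, ?_⟩
      have hy' : algebraMap L A y ≠ 0 := by
        simpa using hy
      have h2 : s = algebraMap L A (-x / y) := by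
        rw [map_div₀, map_neg]
        field_simp
        linear_combination h1
      have h3 : algebraMap L A a = algebraMap L A (-x / y * (-x / y)) := by
        rw [← hs, h2, map_mul, sq]
      exact (algebraMap L A).injective h3
    subst hy
    refine ⟨?_, rfl⟩
    simpa using h1
  have htop := hli.span_eq_top_of_card_eq_finrank' (by simp [hr])
  have hmem : (⟨t, ht⟩ : E) ∈ Submodule.span L (Set.range ![(1 : E), s']) := by
    rw [htop]; exact Submodule.mem_top
  rw [Matrix.range_cons, Matrix.range_cons, Matrix.range_empty, Set.union_empty,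
    Set.singleton_union, Submodule.mem_span_pair] at hmem
  obtain ⟨x, y, hxy⟩ := hmem
  refine ⟨x, y, ?_⟩
  have := congrArg (fun z : E => (z : A)) hxy
  simp only [IntermediateField.coe_add] at this
  have h4 : ((x • (1 : E) : E) : A) = algebraMap L A x := by
    simp [Algebra.smul_def]
  have h5 : ((y • s' : E) : A) = algebraMap L A y * s := by
    simp [Algebra.smul_def, s']
  rw [← h4, ← h5]
  exact this.symm

theorem QuadA_ne (L A : Type) [Field L] [CharZero L] [Field A] [Algebra L A] (a b : L) (s t : A)
    (ha : ¬ IsSquare a) (hb : ¬ IsSquare b) (hab : ¬ IsSquare (a * b))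
    (hs : s ^ 2 = algebraMap L A a) (ht : t ^ 2 = algebraMap L A b) :
    IntermediateField.adjoin L {s} ≠ IntermediateField.adjoin L {t} := by
  intro h
  have htm : t ∈ IntermediateField.adjoin L {s} := by
    rw [h]; exact IntermediateField.mem_adjoin_simple_self L t
  obtain ⟨x, y, hxy⟩ := QuadA_mem L A a s ha hs t htm
  have hsq : algebraMap L A b = algebraMap L A (x ^ 2 + y ^ 2 * a) + algebraMap L A (2 * x * y) * s := by
    rw [← ht, hxy]
    simp only [map_add, map_mul, map_pow, map_ofNat]
    linear_combination (algebraMap L A y) ^ 2 * hs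
  have hxy0 : 2 * x * y = 0 := by
    by_contra hne
    apply ha
    have hne' : algebraMap L A (2 * x * y) ≠ 0 := by
      rw [Ne, map_eq_zero]; exact hne
    refine ⟨(b - (x ^ 2 + y ^ 2 * a)) / (2 * x * y), ?_⟩
    have h2 : s = algebraMap L A ((b - (x ^ 2 + y ^ 2 * a)) / (2 * x * y)) := by
      rw [map_div₀, map_sub, eq_div_iff hne']
      linear_combination -hsq
    have h3 : algebraMap L A a = algebraMap L A ((b - (x ^ 2 + y ^ 2 * a)) / (2 * x * y) *
        ((b - (x ^ 2 + y ^ 2 * a)) / (2 * x * y))) := by
      rw [map_mul, ← h2, ← sq, hs]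
    exact (algebraMap L A).injective h3
  have h2 : (2 : L) ≠ 0 := two_ne_zero
  rcases mul_eq_zero.1 hxy0 with hx | hy
  · have hx : x = 0 := by
      rcases mul_eq_zero.1 hx with h | h
      · exact absurd h h2
      · exact h
    subst hx
    apply hab
    refine ⟨y * a, ?_⟩
    have h3 : algebraMap L A b = algebraMap L A (y ^ 2 * a) := by
      rw [hsq]; simp
    have h4 := (algebraMap L A).injective h3
    rw [h4]; ring
  · subst hy
    apply hb
    refine ⟨x, ?_⟩
    have h3 : algebraMap L A b = algebraMap L A (x * x) := by
      rw [hsq]; simp [sq]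
    exact (algebraMap L A).injective h3

theorem quad_large (L : Type) [Field L] [NumberField L] (B : ℕ) :
    ∃ N : ℕ, ∀ a : Fin N → L, (∀ i, ¬ IsSquare (a i)) →
      (∀ i j, i ≠ j → ¬ IsSquare (a i * a j)) →
      ∃ (i : Fin N) (F : Type) (_ : Field F) (_ : NumberField F) (_ : Algebra L F),
        Module.finrank L F = 2 ∧ (∃ r : F, r ^ 2 = algebraMap L F (a i)) ∧ (B : ℤ) < |discr F| := by
  classical
  have hfin := NumberField.finite_of_discr_bdd (AlgebraicClosure L) B
  refine ⟨hfin.toFinset.card + 1, fun a ha hab => ?_⟩
  by_contra hcon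
  have hs : ∀ i, ∃ s : AlgebraicClosure L, s ^ 2 = algebraMap L (AlgebraicClosure L) (a i) :=
    fun i => IsAlgClosed.exists_pow_nat_eq _ (by norm_num)
  choose s hs using hs
  have hfd : ∀ i, FiniteDimensional L (IntermediateField.adjoin L {s i}) := fun i =>
    IntermediateField.adjoin.finiteDimensional (Algebra.IsIntegral.isIntegral _)
  have hfdQ : ∀ i, FiniteDimensional ℚ
      ((IntermediateField.adjoin L {s i}).restrictScalars ℚ) := by
    intro i
    have := hfd i
    exact FiniteDimensional.trans ℚ L (IntermediateField.adjoin L {s i})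
  let f : Fin (hfin.toFinset.card + 1) →
      { F : IntermediateField ℚ (AlgebraicClosure L) // FiniteDimensional ℚ F } :=
    fun i => ⟨(IntermediateField.adjoin L {s i}).restrictScalars ℚ, hfdQ i⟩
  have hinj : Function.Injective f := by
    intro i j hij
    by_contra hne
    have h1 : (IntermediateField.adjoin L {s i}).restrictScalars ℚ =
        (IntermediateField.adjoin L {s j}).restrictScalars ℚ := congrArg Subtype.val hij
    have h2 := IntermediateField.restrictScalars_injective ℚ h1
    exact QuadA_ne L _ (a i) (a j) (s i) (s j) (ha i) (ha j) (hab i j hne) (hs i) (hs j) h2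
  have hmem : ∀ i, f i ∈ hfin.toFinset := by
    intro i
    rw [Set.Finite.mem_toFinset]
    by_contra hlt
    apply hcon
    have hNF : NumberField (IntermediateField.adjoin L {s i}) :=
      @NumberField.mk _ _ inferInstance (hfdQ i)
    refine ⟨i, IntermediateField.adjoin L {s i}, inferInstance, hNF, inferInstance,
      QuadA_finrank L _ (a i) (s i) (ha i) (hs i),
      ⟨⟨s i, IntermediateField.mem_adjoin_simple_self L (s i)⟩, ?_⟩, ?_⟩
    · apply Subtype.ext
      simpa using hs i
    · exact not_le.1 hlt
  have hcard := Finset.card_le_card_of_injOn (s := Finset.univ) (t := hfin.toFinset) f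
    (fun i _ => hmem i) (hinj.injOn)
  simp at hcard

end H89ED
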