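import Mathlib

/-!
# Real embeddings of a quadratic extension
-/

set_option autoImplicit false

namespace H89ED

open Polynomial in
theorem QuadB_minpoly (L F : Type) [Field L] [NumberField L] [Field F] [NumberField F] [Algebra L F]
    (a : L) (ha : ¬ IsSquare (a ^ 2 + 4)) (η : F)
    (hη : η ^ 2 = algebraMap L F a * η + 1) :
    minpoly L η = X ^ 2 - C a * X - 1 := by
  have hm : (X ^ 2 - C a * X - 1 : L[X]).Monic := by
    monicity!
  have hd : (X ^ 2 - C a * X - 1 : L[X]).natDegree = 2 := by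
    compute_degree!
  have hirr : Irreducible (X ^ 2 - C a * X - 1 : L[X]) := by
    rw [Polynomial.Monic.irreducible_iff_roots_eq_zero_of_degree_le_three hm (by rw [hd]) (by rw [hd]; norm_num)]
    rw [Multiset.eq_zero_iff_forall_notMem]
    intro r hr
    rw [Polynomial.mem_roots hm.ne_zero] at hr
    have h1 : r ^ 2 - a * r - 1 = 0 := by
      simpa [Polynomial.IsRoot.def] using hr
    exact ha ⟨2 * r - a, by linear_combination (-4) * h1⟩
  symm
  apply minpoly.eq_of_irreducible_of_monic hirr _ hm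
  simp [hη]

theorem QuadB_top (L F : Type) [Field L] [NumberField L] [Field F] [NumberField F] [Algebra L F]
    (hF : Module.finrank L F = 2) (a : L) (ha : ¬ IsSquare (a ^ 2 + 4)) (η : F)
    (hη : η ^ 2 = algebraMap L F a * η + 1) : Algebra.adjoin L {η} = ⊤ := by
  have : FiniteDimensional L F := Module.finite_of_finrank_pos (by rw [hF]; norm_num)
  rw [← IntermediateField.adjoin_eq_top_iff]
  rw [Field.primitive_element_iff_minpoly_natDegree_eq, hF, QuadB_minpoly L F a ha η hη]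
  compute_degree!

theorem QuadB_exists (L F : Type) [Field L] [NumberField L] [Field F] [NumberField F] [Algebra L F]
    (hF : Module.finrank L F = 2) (a : L) (ha : ¬ IsSquare (a ^ 2 + 4)) (η : F)
    (hη : η ^ 2 = algebraMap L F a * η + 1) (σ : L →+* ℝ) (y : ℝ) (hy : y ^ 2 = σ a * y + 1) :
    ∃ ρ : F →+* ℝ, ρ.comp (algebraMap L F) = σ ∧ ρ η = y := by
  have : FiniteDimensional L F := Module.finite_of_finrank_pos (by rw [hF]; norm_num)
  have hint : IsIntegral L η := Algebra.IsIntegral.isIntegral η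
  let _ : Algebra L ℝ := σ.toAlgebra
  have hal : ∀ x : L, algebraMap L ℝ x = σ x := fun x => rfl
  let pb := PowerBasis.ofAdjoinEqTop' hint (QuadB_top L F hF a ha η hη)
  have hg : pb.gen = η := PowerBasis.ofAdjoinEqTop'_gen _ _
  have hy' : Polynomial.aeval y (minpoly L pb.gen) = 0 := by
    rw [hg, QuadB_minpoly L F a ha η hη]
    simp [hal, hy]
  refine ⟨(pb.lift y hy' : F →+* ℝ), ?_, ?_⟩
  · ext x
    simp [hal]
  · have := pb.lift_gen y hy'
    rw [hg] at this
    exact this

theorem QuadB_ext (L F : Type) [Field L] [NumberField L] [Field F] [NumberField F] [Algebra L F]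
    (hF : Module.finrank L F = 2) (a : L) (ha : ¬ IsSquare (a ^ 2 + 4)) (η : F)
    (hη : η ^ 2 = algebraMap L F a * η + 1) (σ : L →+* ℝ) (ρ₁ ρ₂ : F →+* ℝ)
    (h1 : ρ₁.comp (algebraMap L F) = σ) (h2 : ρ₂.comp (algebraMap L F) = σ) (h : ρ₁ η = ρ₂ η) :
    ρ₁ = ρ₂ := by
  ext x
  have hx : x ∈ Algebra.adjoin L {η} := by
    rw [QuadB_top L F hF a ha η hη]; trivial
  induction hx using Algebra.adjoin_induction with
  | mem x hx =>
    rw [Set.mem_singleton_iff] at hx
    rw [hx, h]
  | algebraMap r =>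
    exact (DFunLike.congr_fun h1 r).trans (DFunLike.congr_fun h2 r).symm
  | add x y _ _ hx hy => rw [map_add, map_add, hx, hy]
  | mul x y _ _ hx hy => rw [map_mul, map_mul, hx, hy]

theorem quad_card (L F : Type) [Field L] [NumberField L] [Field F] [NumberField F] [Algebra L F]
    (hF : Module.finrank L F = 2) (a q : L) (ha : ¬ IsSquare (a ^ 2 + 4)) (η : F)
    (hη : η ^ 2 = algebraMap L F a * η + 1) (σ : L →+* ℝ) (hpos : 0 < σ (1 + q * a - q ^ 2)) :
    Nat.card {ρ : F →+* ℝ // ρ.comp (algebraMap L F) = σ ∧ ρ (η⁻¹ + algebraMap L F q) < 0} = 1 := by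
  have hη0 : η ≠ 0 := by
    rintro rfl
    simp at hη
  have hpos' : 0 < 1 + σ q * σ a - σ q ^ 2 := by
    simpa using hpos
  -- the image of `η`
  have hroot : ∀ ρ : F →+* ℝ, ρ.comp (algebraMap L F) = σ → (ρ η) ^ 2 = σ a * ρ η + 1 := by
    intro ρ hρ
    have := congrArg ρ hη
    rw [map_pow, map_add, map_mul, map_one] at this
    rw [this, ← hρ]
    rfl
  have hval : ∀ ρ : F →+* ℝ, ρ.comp (algebraMap L F) = σ →
      ρ (η⁻¹ + algebraMap L F q) = (ρ η)⁻¹ + σ q := by
    intro ρ hρ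
    rw [map_add, map_inv₀, ← hρ]
    rfl
  -- two different roots
  have hprod : ∀ y z : ℝ, y ^ 2 = σ a * y + 1 → z ^ 2 = σ a * z + 1 → y ≠ z →
      (y⁻¹ + σ q) * (z⁻¹ + σ q) < 0 := by
    intro y z hy hz hyz
    have hsum : y + z = σ a := by
      have : (y - z) * (y + z - σ a) = 0 := by linear_combination hy - hz
      rcases mul_eq_zero.mp this with h | h
      · exact absurd (sub_eq_zero.mp h) hyz
      · linarith
    have hyz1 : y * z = -1 := by
      have : z = σ a - y := by linarith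
      rw [this]
      linear_combination (-1) * hy
    have hy0 : y ≠ 0 := by
      rintro rfl
      simp at hy
    have hz0 : z ≠ 0 := by
      rintro rfl
      simp at hz
    have hyi : y⁻¹ = -z := by
      rw [inv_eq_iff_eq_inv, eq_comm, inv_eq_iff_eq_inv]
      field_simp
      linarith
    have hzi : z⁻¹ = -y := by
      rw [inv_eq_iff_eq_inv, eq_comm, inv_eq_iff_eq_inv]
      field_simp
      linarith
    have h : (-z + σ q) * (-y + σ q) = y * z - σ q * (y + z) + σ q ^ 2 := by ring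
    rw [hyi, hzi, mul_comm, mul_comm, h, hyz1, hsum]
    linarith
  rw [Nat.card_eq_one_iff_unique]
  constructor
  · constructor
    rintro ⟨ρ₁, h1, h1'⟩ ⟨ρ₂, h2, h2'⟩
    rw [Subtype.mk.injEq]
    by_cases h : ρ₁ η = ρ₂ η
    · exact QuadB_ext L F hF a ha η hη σ ρ₁ ρ₂ h1 h2 h
    · exfalso
      have h3 := hprod _ _ (hroot ρ₁ h1) (hroot ρ₂ h2) h
      rw [hval ρ₁ h1] at h1'
      rw [hval ρ₂ h2] at h2'
      nlinarith
  · have hD : 0 ≤ σ a ^ 2 + 4 := by positivity
    have hs := Real.sq_sqrt hD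
    have hs0 : 0 < Real.sqrt (σ a ^ 2 + 4) := Real.sqrt_pos.mpr (by positivity)
    set s := Real.sqrt (σ a ^ 2 + 4) with hsdef
    have hy : ((σ a + s) / 2) ^ 2 = σ a * ((σ a + s) / 2) + 1 := by
      linear_combination (1 / 4) * hs
    have hz : ((σ a - s) / 2) ^ 2 = σ a * ((σ a - s) / 2) + 1 := by
      linear_combination (1 / 4) * hs
    have hne : (σ a + s) / 2 ≠ (σ a - s) / 2 := by
      intro h
      linarith
    have h3 := hprod _ _ hy hz hne
    obtain ⟨ρ₁, h1, h1'⟩ := QuadB_exists L F hF a ha η hη σ _ hy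
    obtain ⟨ρ₂, h2, h2'⟩ := QuadB_exists L F hF a ha η hη σ _ hz
    rw [← h1', ← h2', ← hval ρ₁ h1, ← hval ρ₂ h2] at h3
    rcases mul_neg_iff.mp h3 with h | h
    · exact ⟨⟨ρ₂, h2, h.2⟩⟩
    · exact ⟨⟨ρ₁, h1, h.1⟩⟩

end H89ED
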