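import Mathlib
import Pool.Agent.H89.ED.Core2
import Pool.Agent.H89.ED.OmegaA
import Pool.Agent.H89.ED.OmegaB
import Pool.Agent.H89.ED.NoRoot
import Pool.Agent.H89.ED.QuadA
import Pool.Agent.H89.ED.QuadB
import Pool.Agent.H25.ES.Main

/-!
# The theorem
-/

set_option autoImplicit false

namespace H89ED

open Polynomial NumberField H25ES

/-- an inequality of integers from a divisibility -/
theorem not_dvd_three (L : Type) [Field L] [NumberField L] (r : ℕ) (hr : 3 ≤ r) (q : 𝓞 L)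
    (hrq : (r : 𝓞 L) ∣ q) : 4 * q ^ 3 - 3 ≠ 0 := by
  intro h
  obtain ⟨s, hs⟩ := hrq
  have h1 : (r : 𝓞 L) ^ 3 * (4 * s ^ 3) = 3 := by
    rw [hs] at h
    linear_combination h
  have h2 : Algebra.norm ℤ ((r : 𝓞 L) ^ 3 * (4 * s ^ 3)) = Algebra.norm ℤ (3 : 𝓞 L) := by rw [h1]
  have e1 : Algebra.norm ℤ (r : 𝓞 L) = (r : ℤ) ^ Module.finrank ℤ (𝓞 L) := by
    have := Algebra.norm_algebraMap (R := ℤ) (S := 𝓞 L) (r : ℤ)
    rw [map_natCast] at this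
    exact this
  have e2 : Algebra.norm ℤ (3 : 𝓞 L) = 3 ^ Module.finrank ℤ (𝓞 L) := by
    have := Algebra.norm_algebraMap (R := ℤ) (S := 𝓞 L) (3 : ℤ)
    rw [map_ofNat] at this
    exact this
  rw [map_mul, map_pow, e1, e2] at h2
  obtain ⟨k, hk⟩ : ∃ k, k = Module.finrank ℤ (𝓞 L) := ⟨_, rfl⟩
  have hk0 : 0 < k := by rw [hk]; exact Module.finrank_pos
  rw [← hk] at h2
  have h3 : ((r : ℤ) ^ k) ^ 3 ∣ 3 ^ k := ⟨_, h2.symm⟩
  have h4 := Int.le_of_dvd (by positivity) h3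
  have h5 : (3 : ℤ) ^ k ≤ (r : ℤ) ^ k := by
    apply pow_le_pow_left₀ (by norm_num)
    exact_mod_cast hr
  have h6 : (1 : ℤ) < 3 ^ k := one_lt_pow₀ (by norm_num) hk0.ne'
  have h7 : ((3 : ℤ) ^ k) ^ 3 ≤ ((r : ℤ) ^ k) ^ 3 := pow_le_pow_left₀ (by positivity) h5 3
  have h8 : ((3 : ℤ) ^ k) ^ 3 ≤ 3 ^ k := le_trans h7 h4
  generalize (3 : ℤ) ^ k = t at h6 h8
  have h9 : t * t * t ≤ t := by
    have : t ^ 3 = t * t * t := by ring
    rw [← this]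
    exact h8
  nlinarith [mul_pos (lt_trans one_pos h6) (sub_pos.2 h6)]

/-- the statement for a fixed extension -/
def Good (p : ℕ) (L : Type) [Field L] [NumberField L] (ω : 𝓞 L) (Φ : (𝓞 L)[X]) (m : ℕ)
    (δ : 𝓞 L) (B : ℕ) : Prop :=
  ∃ (K : Type) (_ : Field K) (_ : NumberField K) (_ : Algebra L K),
    Module.finrank L K = m ∧ IsTotallyReal K ∧
    (∀ M : IntermediateField L K, M = ⊥ ∨ M = ⊤) ∧ (B : ℤ) < |discr K| ∧
    ∃ u h : 𝓞 K, h * u = 1 ∧ IsUnit (u + algebraMap (𝓞 L) (𝓞 K) ((2 - ω) ^ p)) ∧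
      (∀ (k : Type) [Field k] (φ : 𝓞 K →+* k) (x y : k),
        ¬ (y ^ 2 + (((X * Φ).map (algebraMap (𝓞 L) (𝓞 K))).map φ).eval x * y = φ h * x ∧
          2 * y + (((X * Φ).map (algebraMap (𝓞 L) (𝓞 K))).map φ).eval x = 0 ∧
          (derivative (((X * Φ).map (algebraMap (𝓞 L) (𝓞 K))).map φ)).eval x * y = φ h)) ∧
      (∀ x : K, x * ((Φ.map (algebraMap (𝓞 L) K)).eval x) ^ 2 + 4 * (h : K) ≠ 0) ∧
      ∀ σ : L →+* ℝ, Nat.card {ρ : K →+* ℝ // ρ.comp (algebraMap L K) = σ ∧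
        ρ ((u + algebraMap (𝓞 L) (𝓞 K) ((2 - ω) ^ p) : 𝓞 K) : K) < 0}
          = if 0 < σ (δ : L) then m - 1 else m - 3

theorem good (p : ℕ) (hp : p.Prime) (hp2 : p ≠ 2) (L : Type) [Field L] [NumberField L]
    [IsTotallyReal L] (ω : 𝓞 L)
    (hω : ∃ ζ : AlgebraicClosure L, IsPrimitiveRoot ζ p ∧
      algebraMap L (AlgebraicClosure L) (ω : L) = ζ + ζ⁻¹) :
    ∃ Φ : (𝓞 L)[X], Φ.Monic ∧ Φ.natDegree = (p - 1) / 2 ∧ (X * Φ).Separable ∧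
      C ((2 - ω) ^ p) * X * Φ ^ 2 = (dickson 1 (1 : 𝓞 L) p).comp (C (2 - ω) * X - 2) + 2 ∧
      ∀ (m : ℕ) (δ : 𝓞 L) (B : ℕ), 3 ≤ m → δ ≠ 0 → Good p L ω Φ m δ B := by
  obtain ⟨ζ, hζ, hζω⟩ := hω
  obtain ⟨g, hpg⟩ : ∃ g, p = 2 * g + 1 := hp.odd_of_ne_two hp2
  have hg : 1 ≤ g := by have := hp.two_le; omega
  have hgp : (p - 1) / 2 = g := by omega
  obtain ⟨ι, hι0⟩ : ∃ ι : 𝓞 L →+* AlgebraicClosure L,
      ι = (algebraMap L (AlgebraicClosure L)).comp (algebraMap (𝓞 L) L) := ⟨_, rfl⟩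
  have hι : Function.Injective ι := by
    rw [hι0]
    exact (algebraMap L (AlgebraicClosure L)).injective.comp
      (FaithfulSMul.algebraMap_injective (𝓞 L) L)
  have hιω : ι ω = ζ + ζ⁻¹ := by rw [hι0]; exact hζω
  choose ε hε hε2 using fun k => eps_exists ω k
  have hπ := pi_ne ι p ζ ω hζ hp hιω
  have hΦ := phi_dick ι hι p g hpg ζ ω hζ hp hιω ε hε
  rw [hgp]
  refine ⟨phi ε g, phi_monic ε g, phi_natDegree ε g,
    xphi_separable ι hι p g hpg ζ ω hζ hp hιω ε hε, hΦ, ?_⟩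
  intro m δ B hm hδ
  obtain ⟨n, hn⟩ : ∃ n, m = n + 3 := ⟨m - 3, by omega⟩
  obtain ⟨q, hq⟩ : ∃ q, q = (2 - ω) ^ p := ⟨_, rfl⟩
  have hq0 : q ≠ 0 := by rw [hq]; exact pow_ne_zero _ hπ
  have hpos : ∀ σ : L →+* ℝ, 0 < σ (q : L) := by
    intro σ
    have h1 := omega_lt L ω p hp ζ hζ hζω σ
    have h2 : σ (q : L) = (2 - σ (ω : L)) ^ p := by
      rw [hq]
      have : (((2 - ω) ^ p : 𝓞 L) : L) = (2 - (ω : L)) ^ p := by
        rw [c_pow, c_sub, c_two]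
      rw [this, map_pow, map_sub, map_ofNat]
    rw [h2]
    exact pow_pos h1 p
  have hrq : (p : 𝓞 L) ∣ q := by
    rw [hq]
    exact p_dvd ι hι p g hpg ζ ω hζ hp hιω ε hε
  have hp3 : 3 ≤ p := by omega
  have hq1 : q ^ 3 + 1 ≠ 0 := by
    intro h
    obtain ⟨w⟩ : Nonempty (InfinitePlace L) := inferInstance
    have h1 := hpos (rho w)
    have h2 : rho w (((q ^ 3 + 1 : 𝓞 L) : 𝓞 L) : L) = 0 := by
      rw [h]
      simp
    have h3 : (((q ^ 3 + 1 : 𝓞 L) : 𝓞 L) : L) = (q : L) ^ 3 + 1 := by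
      rw [c_add, c_pow, c_one]
    rw [h3, map_add, map_pow, map_one] at h2
    have h4 := pow_pos h1 3
    linarith
  have hD : (dickson 1 (1 : 𝓞 L) p).eval ω = 2 := dick_omega ι hι p ζ ω hζ hp hιω
  have hω2 : ω ≠ 2 := fun h => hπ (by rw [h]; ring)
  obtain ⟨K, iK, iN, iA, k1, k2, k3, k4, u, h, k5, k6, k7, l, hl, φ, y, k8, k9⟩ :=
    core L q ω hq0 hω2 hq1 (not_dvd_three L p hp3 q hrq) hpos p hp3 ⟨g, hpg⟩ hrq hD n B δ hδ
  rw [hn, Good, ← hq]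
  refine ⟨K, iK, iN, iA, k1, k2, k3, k4, u, h, k5, k6, ?_, ?_, ?_⟩
  · intro k _ ψ x y ⟨s1, s2, s3⟩
    have hu : IsUnit h := IsUnit.of_mul_eq_one u k5
    rw [Polynomial.map_map] at s1 s2 s3
    refine smooth_hom ι hι p g hpg ζ ω hζ hp hιω ε hε hε2
      (ψ.comp (algebraMap (𝓞 L) (𝓞 K))) (ψ h) ?_ ?_ x y s1 s2 s3
    · exact (hu.map ψ).ne_zero
    · have h3 := ((hu.mul k6).map ψ).ne_zero
      have e : h * (u + algebraMap (𝓞 L) (𝓞 K) q) = 1 + algebraMap (𝓞 L) (𝓞 K) q * h := by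
        linear_combination k5
      rw [e, map_add, map_one, map_mul, hq, map_pow, map_pow] at h3
      exact h3
  · exact no_root_curve L K p ω (phi ε g) (phi_monic ε g) hΦ u h k5 l φ y k8
      (by rw [← hq]; exact k9)
  · intro σ
    rw [k7 σ]
    have h0 : σ (δ : L) ≠ 0 := by
      intro h
      apply hδ
      have h1 : (δ : L) = 0 := (map_eq_zero σ).1 h
      exact RingOfIntegers.coe_injective (h1.trans (map_zero (algebraMap (𝓞 L) L)).symm)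
    rcases lt_or_gt_of_ne h0 with h | h
    · rw [if_pos h, if_neg (not_lt.2 h.le)]
      omega
    · rw [if_neg (not_lt.2 h.le), if_pos h]
      omega

end H89ED
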