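import Mathlib
import Pool.Agent.H89.ED.Main

/-!
# The theorem for all `m ≥ 2`
-/

set_option autoImplicit false

namespace H89ED

open Polynomial NumberField H25ES

theorem no_intermediate_two (L K : Type) [Field L] [Field K] [Algebra L K]
    (h : Module.finrank L K = 2) (M : IntermediateField L K) : M = ⊥ ∨ M = ⊤ := by
  have hfin : FiniteDimensional L K := Module.finite_of_finrank_pos (by omega)
  have h1 : Module.finrank L M * Module.finrank M K = 2 := by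
    rw [Module.finrank_mul_finrank, h]
  have h2 : Module.finrank L M ∣ 2 := ⟨_, h1.symm⟩
  rcases (Nat.dvd_prime Nat.prime_two).1 h2 with h3 | h3
  · left
    exact IntermediateField.finrank_eq_one_iff.1 h3
  · right
    have h4 : Module.finrank M K = 1 := by
      rw [h3] at h1
      omega
    exact IntermediateField.finrank_eq_one_iff_eq_top.1 h4

theorem pi_ne' (p : ℕ) (hp : p.Prime) (L : Type) [Field L] [NumberField L] (ω : 𝓞 L)
    (hω : ∃ ζ : AlgebraicClosure L, IsPrimitiveRoot ζ p ∧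
      algebraMap L (AlgebraicClosure L) (ω : L) = ζ + ζ⁻¹) : 2 - ω ≠ 0 := by
  obtain ⟨ζ, hζ, hζω⟩ := hω
  obtain ⟨ι, hι0⟩ : ∃ ι : 𝓞 L →+* AlgebraicClosure L,
      ι = (algebraMap L (AlgebraicClosure L)).comp (algebraMap (𝓞 L) L) := ⟨_, rfl⟩
  have hιω : ι ω = ζ + ζ⁻¹ := by rw [hι0]; exact hζω
  exact pi_ne ι p ζ ω hζ hp hιω

theorem phi_unique {R : Type*} [CommRing R] [IsDomain R] (h2 : (2 : R) ≠ 0) (c : R) (hc : c ≠ 0)
    (A B D : R[X]) (hA : A.Monic) (hB : B.Monic) (h1 : C c * X * A ^ 2 = D)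
    (h3 : C c * X * B ^ 2 = D) : A = B := by
  have h4 : C c * X ≠ (0 : R[X]) := mul_ne_zero (C_ne_zero.2 hc) X_ne_zero
  have h5 : A ^ 2 = B ^ 2 := mul_left_cancel₀ h4 (h1.trans h3.symm)
  rcases sq_eq_sq_iff_eq_or_eq_neg.1 h5 with h | h
  · exact h
  · exfalso
    have h6 : A.leadingCoeff = 1 := hA
    rw [h, leadingCoeff_neg, hB.leadingCoeff] at h6
    apply h2
    linear_combination -h6

theorem all (p : ℕ) (hp : p.Prime) (hp2 : p ≠ 2) (L : Type) [Field L] [NumberField L]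
    [IsTotallyReal L] (ω : 𝓞 L)
    (hω : ∃ ζ : AlgebraicClosure L, IsPrimitiveRoot ζ p ∧
      algebraMap L (AlgebraicClosure L) (ω : L) = ζ + ζ⁻¹) :
    ∃ Φ : (𝓞 L)[X], Φ.Monic ∧ Φ.natDegree = (p - 1) / 2 ∧ (X * Φ).Separable ∧
      C ((2 - ω) ^ p) * X * Φ ^ 2 = (dickson 1 (1 : 𝓞 L) p).comp (C (2 - ω) * X - 2) + 2 ∧
      ∀ (m : ℕ) (δ : 𝓞 L) (B : ℕ), 2 ≤ m → δ ≠ 0 →
        (m = 2 → 1 < Module.finrank ℚ L ∧ ∀ σ : L →+* ℝ, 0 < σ (δ : L)) →
        Good p L ω Φ m δ B := by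
  obtain ⟨Φ, h1, h2, h3, h4, h5⟩ := good p hp hp2 L ω hω
  refine ⟨Φ, h1, h2, h3, h4, ?_⟩
  intro m δ B hm hδ hm2
  by_cases hm3 : 3 ≤ m
  · exact h5 m δ B hm3 hδ
  have hm' : m = 2 := by omega
  obtain ⟨hL, hδpos⟩ := hm2 hm'
  obtain ⟨Φ', g1, g2, g3, g4, g5⟩ := curves p hp hp2 L hL ω hω
  have hΦ : Φ' = Φ :=
    phi_unique two_ne_zero _ (pow_ne_zero p (pi_ne' p hp L ω hω)) _ _ _ g1 h1 g4 h4
  rw [hΦ] at g5
  obtain ⟨N, hN⟩ := quad_large L B
  obtain ⟨a, a1, a2, -, a4, a5⟩ := g5 N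
  obtain ⟨i, F, iF, iN, iA, f1, ⟨r, f2⟩, f3⟩ := hN (fun i => (a i : L) ^ 2 + 4) a1 a2
  obtain ⟨b1, η, b2, b3, b4, b5, b6⟩ := a5 i F f1 ⟨r, f2⟩
  rw [hm', Good]
  obtain ⟨u, hu⟩ : ∃ u, u = η - algebraMap (𝓞 L) (𝓞 F) (a i) := ⟨_, rfl⟩
  have hηu : η * u = 1 := by
    rw [hu]
    linear_combination b4
  refine ⟨F, iF, iN, iA, f1, b1, no_intermediate_two L F f1, f3, u, η, hηu, ?_, b5, b6, ?_⟩
  · have e : u + algebraMap (𝓞 L) (𝓞 F) ((2 - ω) ^ p)
        = u * (1 + algebraMap (𝓞 L) (𝓞 F) ((2 - ω) ^ p) * η) := by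
      linear_combination (- algebraMap (𝓞 L) (𝓞 F) ((2 - ω) ^ p)) * hηu
    rw [e]
    exact (IsUnit.of_mul_eq_one η (by rw [mul_comm]; exact hηu)).mul b3
  · intro σ
    rw [if_pos (hδpos σ)]
    have h0 : (η : F) * (u : F) = 1 := by
      have := congrArg (fun x : 𝓞 F => (x : F)) hηu
      simpa using this
    have hu' : (u : F) = (η : F)⁻¹ := eq_inv_of_mul_eq_one_right h0
    have hη' : (η : F) ^ 2 = algebraMap L F (a i : L) * (η : F) + 1 := by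
      have := congrArg (fun x : 𝓞 F => (x : F)) b4
      simp only [map_pow, map_add, map_mul, map_one] at this
      exact this
    have hpos : 0 < σ (1 + (((2 - ω) ^ p : 𝓞 L) : L) * (a i : L)
        - (((2 - ω) ^ p : 𝓞 L) : L) ^ 2) := by
      have := a4 i σ
      rw [c_sub, c_add, c_one, c_mul, c_pow _ 2] at this
      exact this
    have key := quad_card L F f1 (a i : L) (((2 - ω) ^ p : 𝓞 L) : L) (a1 i) (η : F) hη' σ hpos
    rw [show 2 - 1 = 1 by norm_num, ← key]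
    apply Nat.card_congr
    refine Equiv.subtypeEquivRight ?_
    intro ρ
    have e4 : ((u + algebraMap (𝓞 L) (𝓞 F) ((2 - ω) ^ p) : 𝓞 F) : F)
        = (η : F)⁻¹ + algebraMap L F (((2 - ω) ^ p : 𝓞 L) : L) := by
      rw [← hu']
      rfl
    rw [e4]

end H89ED
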